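import Pool.Agent.H83.TN.Pair

/-!
The local lemmas over the completion `L_w` of the field of fractions of a Dedekind domain.
-/

set_option linter.unusedSectionVars false
set_option linter.style.haveILetI false

namespace Pool.Agent.H83.TN

open Polynomial WithZero IsDedekindDomain HeightOneSpectrum

section

variable {B L : Type*} [CommRing B] [IsDedekindDomain B] [Field L] [Algebra B L]
  [IsFractionRing B L] (w : HeightOneSpectrum B) {n : ℕ}

theorem adic_good (hn : n ≠ 0) {ι : Type*} [Fintype ι] (hcard : Nat.Coprime (Fintype.card ι) n)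
    {c : w.adicCompletion L} (hc : (Valued.v c : ℤᵐ⁰) = 1) (r : ι → w.adicCompletion L)
    (hr : ∀ i, (Valued.v (r i) : ℤᵐ⁰) ≤ 1)
    (hrr : ∀ i j, i ≠ j → (Valued.v (r i - r j) : ℤᵐ⁰) = 1)
    (A Q : (w.adicCompletion L)[X]) (hA : A.Monic) (hcop : IsCoprime A (∏ i, (X - C (r i))))
    (hdvd : A ∣ C c * Q ^ n - ∏ i, (X - C (r i))) (i : ι) :
    Ev (Valued.v : Valuation (w.adicCompletion L) ℤᵐ⁰) n (A.eval (r i)) := by
  letI : (Valued.v : Valuation (w.adicCompletion L) ℤᵐ⁰).RankOne :=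
    Valuation.IsRankOneDiscrete.rankOne _ (e := 2) one_lt_two
  letI : NontriviallyNormedField (w.adicCompletion L) :=
    Valued.toNontriviallyNormedField _ ℤᵐ⁰
  haveI : IsUltrametricDist (w.adicCompletion L) := inferInstance
  haveI : CompleteSpace (w.adicCompletion L) := inferInstance
  exact pair_good (M := w.adicCompletion L) (w := Valued.v)
    (fun x => Valued.toNormedField.norm_lt_one_iff) hn hcard hc r hr hrr A Q hA hcop hdvd i

theorem adic_node (hn : n.Prime) (hn1 : (Valued.v (n : w.adicCompletion L) : ℤᵐ⁰) = 1)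
    {a e0 : ℕ} (ha : a + 1 = n * e0) {ι : Type*} [Fintype ι] {g : ℕ}
    (hg : Fintype.card ι = n * g) {ϖ c r0 : w.adicCompletion L}
    (hϖ : (Valued.v ϖ : ℤᵐ⁰) = exp (-1 : ℤ)) (hc : (Valued.v c : ℤᵐ⁰) = 1)
    (hr0 : (Valued.v r0 : ℤᵐ⁰) = 1) (r : ι → w.adicCompletion L)
    (hr : ∀ i, (Valued.v (r i) : ℤᵐ⁰) = exp (-1 : ℤ))
    (hrr : ∀ i j, i ≠ j → (Valued.v (r i - r j) : ℤᵐ⁰) = exp (-1 : ℤ))
    (A Q : (w.adicCompletion L)[X]) (hA : A.Monic)
    (hcop : IsCoprime A ((X - C r0) * ∏ i, (X - C (r i))))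
    (hdvd : A ∣ C c * Q ^ n - (X - C r0) * ∏ i, (X - C (r i))) :
    ∃ s : ℕ, Cl (Valued.v : Valuation (w.adicCompletion L) ℤᵐ⁰) n
      ((-c ^ a) ^ A.natDegree * A.eval r0 * (-(c ^ a * r0)) ^ s) ∧
      ∀ i, Ev (Valued.v : Valuation (w.adicCompletion L) ℤᵐ⁰) n (ϖ ^ s * A.eval (r i)) := by
  letI : (Valued.v : Valuation (w.adicCompletion L) ℤᵐ⁰).RankOne :=
    Valuation.IsRankOneDiscrete.rankOne _ (e := 2) one_lt_two
  letI : NontriviallyNormedField (w.adicCompletion L) :=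
    Valued.toNontriviallyNormedField _ ℤᵐ⁰
  haveI : IsUltrametricDist (w.adicCompletion L) := inferInstance
  haveI : CompleteSpace (w.adicCompletion L) := inferInstance
  exact pair_node (M := w.adicCompletion L) (w := Valued.v)
    (fun x => Valued.toNormedField.norm_lt_one_iff) hn hn1 ha hg hϖ hc hr0 r hr hrr A Q hA hcop
    hdvd

/-- the good case after a substitution `x = l + b x'` -/
theorem adic_shift (hn : n ≠ 0) {ι : Type*} [Fintype ι] (hcard : Nat.Coprime (Fintype.card ι) n)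
    {c c' b e l : w.adicCompletion L} (hb : b ≠ 0) (hcc : c = c' * e ^ n * b ^ Fintype.card ι)
    (hc' : (Valued.v c' : ℤᵐ⁰) = 1) (r r' : ι → w.adicCompletion L)
    (hrr' : ∀ i, r i = l + b * r' i)
    (hr : ∀ i, (Valued.v (r' i) : ℤᵐ⁰) ≤ 1)
    (hrr : ∀ i j, i ≠ j → (Valued.v (r' i - r' j) : ℤᵐ⁰) = 1)
    (A Q : (w.adicCompletion L)[X]) (hA : A.Monic) (hcop : IsCoprime A (∏ i, (X - C (r i))))
    (hdvd : A ∣ C c * Q ^ n - ∏ i, (X - C (r i))) (i : ι) :
    Ev (Valued.v : Valuation (w.adicCompletion L) ℤᵐ⁰) n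
      (A.eval (r i) / b ^ A.natDegree) := by
  set m := Fintype.card ι with hm
  set lin : (w.adicCompletion L)[X] := C b * X + C l with hlin
  have hbC : (C b : (w.adicCompletion L)[X]) ≠ 0 := by rwa [Ne, C_eq_zero]
  have hbinv : (C b⁻¹ * C b : (w.adicCompletion L)[X]) = 1 := by
    rw [← C_mul, inv_mul_cancel₀ hb, C_1]
  have hprod : (∏ i, (X - C (r i))).comp lin = C b ^ m * ∏ i, (X - C (r' i)) := by
    rw [prod_comp, hm, ← Finset.card_univ, ← Finset.prod_const, ← Finset.prod_mul_distrib]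
    refine Finset.prod_congr rfl fun i _ => ?_
    rw [sub_comp, X_comp, C_comp, hrr' i, hlin, C_add, C_mul]
    ring
  set A' : (w.adicCompletion L)[X] := C (b⁻¹ ^ A.natDegree) * A.comp lin with hA'
  have hlinnd : lin.natDegree = 1 := natDegree_linear hb
  have hlinlc : lin.leadingCoeff = b := leadingCoeff_linear hb
  have hA'm : A'.Monic := by
    rw [hA', Monic, leadingCoeff_mul, leadingCoeff_C, leadingCoeff_comp (by rw [hlinnd]; omega),
      hA.leadingCoeff, one_mul, hlinlc, ← mul_pow, inv_mul_cancel₀ hb, one_pow]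
  have hAcomp : A.comp lin = C (b ^ A.natDegree) * A' := by
    rw [hA', ← mul_assoc, ← C_mul, ← mul_pow, mul_inv_cancel₀ hb, one_pow, C_1, one_mul]
  have hA'cop : IsCoprime A' (∏ i, (X - C (r' i))) := by
    obtain ⟨s, t, hst⟩ := hcop
    have h1 := congrArg (fun p => comp p lin) hst
    rw [add_comp, mul_comp, mul_comp, one_comp, hprod, hAcomp] at h1
    exact ⟨s.comp lin * C (b ^ A.natDegree), t.comp lin * C b ^ m, by rw [← h1]; ring⟩
  have hA'dvd : A' ∣ C c' * (C e * Q.comp lin) ^ n - ∏ i, (X - C (r' i)) := by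
    obtain ⟨R, hR⟩ := hdvd
    have h1 := congrArg (fun p => comp p lin) hR
    rw [sub_comp, mul_comp, mul_comp, pow_comp, C_comp, hprod, hAcomp, hcc] at h1
    refine ⟨C (b⁻¹ ^ m) * C (b ^ A.natDegree) * R.comp lin, ?_⟩
    have h2 : (C (b⁻¹ ^ m) * C b ^ m : (w.adicCompletion L)[X]) = 1 := by
      rw [← C_pow, ← C_mul, ← mul_pow, inv_mul_cancel₀ hb, one_pow, C_1]
    rw [C_mul, C_mul, C_pow, C_pow] at h1
    linear_combination (C (b⁻¹ ^ m)) * h1 -
      (C c' * C e ^ n * (Q.comp lin) ^ n - ∏ i, (X - C (r' i))) * h2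
  have h1 := adic_good w hn hcard hc' r' hr hrr A' (C e * Q.comp lin) hA'm hA'cop hA'dvd i
  have h2 : A'.eval (r' i) = A.eval (r i) / b ^ A.natDegree := by
    rw [hA', eval_mul, eval_C, eval_comp, hlin, eval_add, eval_mul, eval_C, eval_X, eval_C,
      hrr' i, inv_pow, add_comm l, div_eq_inv_mul]
  rwa [h2] at h1

end

end Pool.Agent.H83.TN
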