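import Pool.Agent.H83.TN.Fac
import Pool.Agent.H94.LT.Fin

/-!
The valuations of a Selmer element: `δ ∏ t_i ^ s_i` has all valuations divisible by `n`.
-/

set_option linter.unusedSectionVars false
set_option linter.style.haveILetI false

namespace Pool.Agent.H83.TN

open Polynomial WithZero IsDedekindDomain HeightOneSpectrum
open Pool.Agent.H94.LT (place)
open Pool.Agent.H83.T5 (sB sB_apply sB_C sB_X sB_base sB_mul sB_one sL sL_alg sL_aeval
  sL_ne_zero val_transport val_eq_one C_notMem prod_notMem polyAlg ratAlg isScalarTower_rat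
  ratAlg_algebraMap exists_below mem_below asIdeal_eq_span irreducible_map_of_coprime
  natDegree_dvd_of_factor val_gen)

section

variable {F k : Type*} [Field F] [Field k] [Algebra F k] [FiniteDimensional F k]

attribute [local instance] polyAlg ratAlg isScalarTower_rat

variable [Fintype (k ≃ₐ[F] k)] [DecidableEq (k ≃ₐ[F] k)]

/-- the product of the conjugates of `π` other than `π` -/
noncomputable def tt (F : Type*) [Field F] [Algebra F k] [Fintype (k ≃ₐ[F] k)]
    [DecidableEq (k ≃ₐ[F] k)] (π : k[X]) : k[X] :=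
  ∏ ρ ∈ Finset.univ.erase (1 : k ≃ₐ[F] k), sB ρ π

theorem sB_tt (σ : k ≃ₐ[F] k) (π : k[X]) :
    sB σ (tt F π) = ∏ ρ ∈ Finset.univ.erase σ, sB ρ π := by
  rw [tt, map_prod]
  refine Finset.prod_bij (fun κ _ => σ * κ) ?_ ?_ ?_ ?_
  · intro κ hκ
    rw [Finset.mem_erase] at hκ ⊢
    refine ⟨fun h => hκ.1 ?_, Finset.mem_univ _⟩
    exact mul_left_cancel (h.trans (mul_one σ).symm)
  · intro κ _ κ' _ h
    exact mul_left_cancel h
  · intro κ hκ
    rw [Finset.mem_erase] at hκ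
    refine ⟨σ⁻¹ * κ, ?_, by rw [mul_inv_cancel_left]⟩
    rw [Finset.mem_erase]
    refine ⟨fun h => hκ.1 ?_, Finset.mem_univ _⟩
    rw [← mul_one σ, ← h, mul_inv_cancel_left]
  · intro κ _
    rw [sB_mul]

/-- the data attached to the factorisation -/
structure FacData (P A B : F[X]) (τ : k) (ι : Type) [Fintype ι] (w : ι → F[X])
    (π : ι → k[X]) : Prop where
  hP : P.map (algebraMap F k) = ∏ σ : k ≃ₐ[F] k, (X - C (σ τ))
  hτ : ∀ σ ρ : k ≃ₐ[F] k, σ τ = ρ τ → σ = ρ
  hcard : Fintype.card (k ≃ₐ[F] k) = Module.finrank F k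
  hm1 : 1 < Module.finrank F k
  hAB : IsCoprime A B
  hB : B ≠ 0
  hw : ∀ i, Irreducible (w i)
  hW : wPoly P A B = ∏ i, w i
  hcop : ∀ i j, i ≠ j → IsCoprime (w i) (w j)
  hπ : ∀ i, Irreducible (π i)
  hπw : ∀ i, π i ∣ (w i).map (algebraMap F k)
  hπq : ∀ i, π i ∣ qq A B τ (1 : k ≃ₐ[F] k)

namespace FacData

variable {P A B : F[X]} {τ : k} {ι : Type} [Fintype ι] {w : ι → F[X]} {π : ι → k[X]}

theorem copπ (h : FacData P A B τ ι w π) {i j : ι} (hij : i ≠ j) : IsCoprime (π i) (π j) := by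
  have h1 : IsCoprime ((w i).map (algebraMap F k)) ((w j).map (algebraMap F k)) :=
    (h.hcop i j hij).map (mapRingHom (algebraMap F k))
  exact (h1.of_isCoprime_of_dvd_left (h.hπw i)).of_isCoprime_of_dvd_right (h.hπw j)

theorem W_ne (h : FacData P A B τ ι w π) : wPoly P A B ≠ 0 := by
  rw [h.hW]; exact Finset.prod_ne_zero_iff.2 fun i _ => (h.hw i).ne_zero

theorem qne (h : FacData P A B τ ι w π) (σ : k ≃ₐ[F] k) : qq A B τ σ ≠ 0 := by
  intro h0
  have h1 : (wPoly P A B).map (algebraMap F k) = 0 := by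
    rw [prod_qq A B τ P h.hP, ← qq_mul_th A B τ σ, h0, zero_mul]
  rw [Polynomial.map_eq_zero] at h1
  exact h.W_ne h1

theorem degree (h : FacData P A B τ ι w π) (i : ι) :
    (w i).natDegree = Module.finrank F k * (π i).natDegree :=
  factor_degree h.hAB h.hτ h.hcard (h.hw i) (h.hπ i) (h.hπw i) (h.hπq i)

theorem dvdσ (h : FacData P A B τ ι w π) (i : ι) (σ : k ≃ₐ[F] k) :
    sB σ (π i) ∣ qq A B τ σ := by
  have h1 := map_dvd (sB σ) (h.hπq i)
  rwa [sB_qq, mul_one] at h1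

/-- each prime over `W` is a conjugate of one of the `π_i` -/
theorem exists_prime (h : FacData P A B τ ι w π) (v : HeightOneSpectrum k[X])
    (hv : (∏ σ : k ≃ₐ[F] k, qq A B τ σ) ∈ v.asIdeal) :
    ∃ (i : ι) (σ : k ≃ₐ[F] k), sB σ (π i) ∈ v.asIdeal := by
  obtain ⟨σ, -, hσ⟩ := (v.isPrime.prod_mem_iff).1 hv
  obtain ⟨c, hc, hq⟩ := qq_factor h.hP h.hAB h.hτ h.hcard h.hw h.hW h.hcop h.hπ h.hπw h.hπq
  have h1 : qq A B τ σ = sB σ (qq A B τ 1) := by rw [sB_qq, mul_one]
  rw [h1, hq, map_mul, map_prod, sB_C] at hσ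
  rcases v.isPrime.mem_or_mem hσ with h2 | h2
  · exact absurd h2 (C_notMem (by rw [Ne, map_eq_zero]; exact hc))
  · obtain ⟨i, -, hi⟩ := (v.isPrime.prod_mem_iff).1 h2
    exact ⟨i, σ, hi⟩

theorem self_mem (h : FacData P A B τ ι w π) (i : ι) :
    π i ∈ (place (π i) (h.hπ i)).asIdeal := Ideal.mem_span_singleton_self _

theorem conj_notMem (h : FacData P A B τ ι w π) (i j : ι) {σ : k ≃ₐ[F] k} (hσ : σ ≠ 1) :
    sB σ (π j) ∉ (place (π i) (h.hπ i)).asIdeal := by
  refine notMem_of_isCoprime ?_ (h.self_mem i)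
  have h1 := factor_coprime h.hAB h.hτ (h.hπq i) (h.hπq j) (Ne.symm hσ)
  rwa [sB_one] at h1

theorem other_notMem (h : FacData P A B τ ι w π) {i j : ι} (hij : i ≠ j) :
    π j ∉ (place (π i) (h.hπ i)).asIdeal :=
  notMem_of_isCoprime (h.copπ hij) (h.self_mem i)

theorem prod_mem (h : FacData P A B τ ι w π) (i : ι) :
    (∏ σ, qq A B τ σ) ∈ (place (π i) (h.hπ i)).asIdeal := by
  obtain ⟨c, hc⟩ := h.hπq i
  rw [← qq_mul_th A B τ 1, hc, mul_assoc]
  exact Ideal.mul_mem_right _ _ (h.self_mem i)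

theorem val_self (h : FacData P A B τ ι w π) (i : ι) :
    (place (π i) (h.hπ i)).valuation (RatFunc k) (algebraMap k[X] (RatFunc k) (π i)) =
      exp (-1 : ℤ) := val_gen (h.hπ i).ne_zero rfl

theorem val_qq [DecidableEq ι] (h : FacData P A B τ ι w π) (i : ι) :
    (place (π i) (h.hπ i)).valuation (RatFunc k) (algebraMap k[X] (RatFunc k) (qq A B τ 1)) =
      exp (-1 : ℤ) := by
  obtain ⟨c, hc, hq⟩ := qq_factor h.hP h.hAB h.hτ h.hcard h.hw h.hW h.hcop h.hπ h.hπw h.hπq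
  rw [hq, ← Finset.mul_prod_erase Finset.univ π (Finset.mem_univ i), map_mul, map_mul, map_mul,
    map_mul, h.val_self i, val_eq_one (C_notMem hc), one_mul, val_eq_one, mul_one]
  exact prod_notMem _ _ fun j hj => h.other_notMem (Ne.symm (Finset.mem_erase.1 hj).1)

/-- `D` is a unit at the primes over `W` -/
theorem D_notMem (h : FacData P A B τ ι w π) {D : F[X]}
    (hD : ∀ Q : F[X], Irreducible Q → Q ∣ D → Nat.Coprime Q.natDegree (Module.finrank F k))
    (v : HeightOneSpectrum k[X]) (hv : (∏ σ, qq A B τ σ) ∈ v.asIdeal) :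
    D.map (algebraMap F k) ∉ v.asIdeal := by
  intro hDv
  obtain ⟨v', hv'⟩ := exists_below (F := F) v
  rw [← mem_below hv'] at hDv
  rw [← prod_qq A B τ P h.hP, ← mem_below hv', h.hW] at hv
  obtain ⟨i, -, hi⟩ := (v'.isPrime.prod_mem_iff).1 hv
  have h1 : (w i) ∣ D := by
    rw [asIdeal_eq_span (h.hw i) hi, Ideal.mem_span_singleton] at hDv
    exact hDv
  have h2 := hD _ (h.hw i) h1
  rw [h.degree i] at h2
  have h3 := Nat.Coprime.coprime_dvd_left (Dvd.intro _ rfl : Module.finrank F k ∣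
    Module.finrank F k * _) h2
  rw [Nat.coprime_self] at h3
  have := h.hm1
  omega

theorem B_notMem (h : FacData P A B τ ι w π) (v : HeightOneSpectrum k[X])
    (hv : (∏ σ, qq A B τ σ) ∈ v.asIdeal) : B.map (algebraMap F k) ∉ v.asIdeal := by
  obtain ⟨σ, -, hσ⟩ := (v.isPrime.prod_mem_iff).1 hv
  exact notMem_of_isCoprime (qq_isCoprime_B A B τ h.hAB σ) hσ

theorem DB_notMem (h : FacData P A B τ ι w π) {D : F[X]}
    (hD : ∀ Q : F[X], Irreducible Q → Q ∣ D → Nat.Coprime Q.natDegree (Module.finrank F k))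
    (v : HeightOneSpectrum k[X]) (hv : (∏ σ, qq A B τ σ) ∈ v.asIdeal) :
    (D * B).map (algebraMap F k) ∉ v.asIdeal := by
  rw [Polynomial.map_mul]
  intro h0
  rcases v.isPrime.mem_or_mem h0 with h1 | h1
  · exact h.D_notMem hD v hv h1
  · exact h.B_notMem v hv h1

theorem tt_ne (h : FacData P A B τ ι w π) (i : ι) : tt F (π i) ≠ 0 :=
  Finset.prod_ne_zero_iff.2 fun ρ _ => (sB_irreducible (h.hπ i)).ne_zero

theorem tt_notMem (h : FacData P A B τ ι w π) (i j : ι) :
    tt F (π j) ∉ (place (π i) (h.hπ i)).asIdeal :=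
  prod_notMem _ _ fun ρ hρ => h.conj_notMem i j (Finset.mem_erase.1 hρ).1

theorem tt_notMem_good (h : FacData P A B τ ι w π) (v : HeightOneSpectrum k[X])
    (hv : (∏ σ, qq A B τ σ) ∉ v.asIdeal) (j : ι) : tt F (π j) ∉ v.asIdeal := by
  refine prod_notMem _ _ fun ρ _ h0 => good_qq A B τ hv ρ ?_
  obtain ⟨c, hc⟩ := h.dvdσ j ρ
  rw [hc]
  exact Ideal.mul_mem_right _ _ h0

/-- valuations of the conjugates of `t_j` at `π_i` -/
theorem val_sB_tt (h : FacData P A B τ ι w π) (i j : ι) {σ : k ≃ₐ[F] k} (hσ : σ ≠ 1) :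
    (place (π i) (h.hπ i)).valuation (RatFunc k)
      (algebraMap k[X] (RatFunc k) (sB σ (tt F (π j)))) =
    (place (π i) (h.hπ i)).valuation (RatFunc k) (algebraMap k[X] (RatFunc k) (π j)) := by
  rw [sB_tt, ← Finset.mul_prod_erase (Finset.univ.erase σ) _ (a := 1) (by simp [Ne.symm hσ]),
    sB_one, map_mul, map_mul, val_eq_one (prod_notMem _ _ fun ρ hρ =>
      h.conj_notMem i j (Finset.mem_erase.1 hρ).1), mul_one]

theorem transport (h : FacData P A B τ ι w π) {v : HeightOneSpectrum k[X]} {i : ι}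
    {σ : k ≃ₐ[F] k} (hv : sB σ (π i) ∈ v.asIdeal) (x : RatFunc k) :
    v.valuation (RatFunc k) x = (place (π i) (h.hπ i)).valuation (RatFunc k) (sL σ⁻¹ x) := by
  have hspan := asIdeal_eq_span (sB_irreducible (h.hπ i)) hv
  refine (val_transport σ⁻¹ (place (π i) (h.hπ i)) v (fun p => ?_) x).symm
  rw [hspan]
  show sB σ⁻¹ p ∈ Ideal.span {π i} ↔ _
  rw [Ideal.mem_span_singleton, Ideal.mem_span_singleton]
  have h3 : π i = sB σ⁻¹ (sB σ (π i)) := (sB_inv σ (π i)).symm
  conv_lhs => rw [h3]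
  exact map_dvd_iff (sB σ⁻¹)

end FacData

/-- the structure of the valuations of a Selmer element -/
theorem alt {n a g e0 : ℕ} (hn : n.Prime) (ha : a + 1 = n * e0) (hnk : (n : k) ≠ 0)
    {P A B : F[X]} {τ : k} {ι : Type} [Fintype ι] [DecidableEq ι] {w : ι → F[X]} {π : ι → k[X]}
    (h : FacData P A B τ ι w π) (hm : Fintype.card (k ≃ₐ[F] k) = n * g + 1) (D : F[X])
    (hD : ∀ Q : F[X], Irreducible Q → Q ∣ D → Nat.Coprime Q.natDegree (Module.finrank F k))
    (Δ : (RatFunc F)[X])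
    (hloc : ∀ v : HeightOneSpectrum F[X], LocN n a (fPoly P A B) (D * B) v Δ)
    (hne : dd A B τ Δ (1 : k ≃ₐ[F] k) ≠ 0) {y : RatFunc k}
    (hnorm : ∏ σ : k ≃ₐ[F] k, dd A B τ Δ σ = y ^ n) :
    ∃ s : ι → ℕ, (∀ v : HeightOneSpectrum k[X], Ev (v.valuation (RatFunc k)) n
      (dd A B τ Δ (1 : k ≃ₐ[F] k) *
        algebraMap k[X] (RatFunc k) (∏ i, tt F (π i) ^ s i))) ∧
      ∀ i, Cl (Valued.v :
          Valuation ((place (π i) (h.hπ i)).adicCompletion (RatFunc k)) ℤᵐ⁰) n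
        (algebraMap (RatFunc k) ((place (π i) (h.hπ i)).adicCompletion (RatFunc k))
          (dd A B τ Δ (1 : k ≃ₐ[F] k) * (-(algebraMap F[X] (RatFunc k) (D * B) ^ a *
            algebraMap k[X] (RatFunc k) (th A B τ (1 : k ≃ₐ[F] k)))) ^ s i)) := by
  have hcardn : Nat.Coprime (Fintype.card (k ≃ₐ[F] k)) n := by
    rw [hm]
    exact Nat.Coprime.symm ((Nat.coprime_mul_right_add_right n 1 g).2 (Nat.coprime_one_right n))
      |> fun h => by simpa [Nat.coprime_comm, add_comm, mul_comm] using h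
  have hand : n ∣ a + 1 := by rw [ha]; exact Dvd.intro _ rfl
  -- the nodes
  have hnode : ∀ i, ∃ s : ℕ, Cl (Valued.v :
          Valuation ((place (π i) (h.hπ i)).adicCompletion (RatFunc k)) ℤᵐ⁰) n
        (algebraMap (RatFunc k) ((place (π i) (h.hπ i)).adicCompletion (RatFunc k))
          (dd A B τ Δ (1 : k ≃ₐ[F] k) * (-(algebraMap F[X] (RatFunc k) (D * B) ^ a *
            algebraMap k[X] (RatFunc k) (th A B τ (1 : k ≃ₐ[F] k)))) ^ s)) ∧
      ∀ σ : k ≃ₐ[F] k, σ ≠ 1 → Ev ((place (π i) (h.hπ i)).valuation (RatFunc k)) n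
        (algebraMap k[X] (RatFunc k) (π i) ^ s * dd A B τ Δ σ) := by
    intro i
    set w0 := place (π i) (h.hπ i) with hw0
    obtain ⟨v0, hv0⟩ := exists_below (F := F) w0
    haveI := hv0
    have hq1 := h.val_qq i
    have hmem : qq A B τ (1 : k ≃ₐ[F] k) ∈ w0.asIdeal := mem_of_val hq1
    refine place_node v0 w0 hn (ι := k ≃ₐ[F] k) ha hm 1 (fPoly P A B) (D * B) Δ
      (fun σ => algebraMap k[X] (RatFunc k) (th A B τ σ)) (fPoly_split P A B τ h.hP h.qne)
      (hloc v0) ?_ (algebraMap k[X] (RatFunc k) (π i)) (h.val_self i) ?_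
      (val_eq_one (bad_th_self A B τ hmem h.hAB h.hτ))
      (fun σ hσ => bad_th A B τ hq1 h.hAB h.hτ hσ)
      (fun σ ρ hσ hρ hσρ => bad_sub A B τ hq1 h.hAB h.hτ hσ hρ hσρ)
    · have h3 : (n : RatFunc k) = algebraMap k[X] (RatFunc k) (C (n : k)) := by
        rw [map_natCast, map_natCast]
      rw [h3]
      exact val_eq_one (C_notMem hnk)
    · rw [IsScalarTower.algebraMap_apply F[X] k[X] (RatFunc k)]
      exact val_eq_one (h.DB_notMem hD _ (h.prod_mem i))
  choose s hs hs' using hnode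
  refine ⟨s, fun v => ?_, hs⟩
  set ι' := algebraMap k[X] (RatFunc k) with hι'
  have hTne : ι' (∏ i, tt F (π i) ^ s i) ≠ 0 := by
    rw [hι', Ne, FaithfulSMul.algebraMap_eq_zero_iff]
    exact Finset.prod_ne_zero_iff.2 fun i _ => pow_ne_zero _ (h.tt_ne i)
  by_cases hWv : (∏ σ, qq A B τ σ) ∈ v.asIdeal
  · obtain ⟨i, σ, hσ⟩ := h.exists_prime v hWv
    refine ⟨mul_ne_zero hne hTne, ?_⟩
    rw [h.transport hσ, map_mul, sL_dd, mul_one, hι', sL_alg]
    by_cases h1 : σ⁻¹ = 1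
    · rw [h1, sB_one]
      set w0 := place (π i) (h.hπ i) with hw0
      have h2 : Ev (w0.valuation (RatFunc k)) n
          (dd A B τ Δ (1 : k ≃ₐ[F] k) * (-(algebraMap F[X] (RatFunc k) (D * B) ^ a *
            algebraMap k[X] (RatFunc k) (th A B τ (1 : k ≃ₐ[F] k)))) ^ s i) :=
        (ev_alg_iff w0 _).1 (hs i).ev
      have h3 : Ev (w0.valuation (RatFunc k)) n (-(algebraMap F[X] (RatFunc k) (D * B) ^ a *
            algebraMap k[X] (RatFunc k) (th A B τ (1 : k ≃ₐ[F] k)))) := by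
        refine Ev.of_val ?_
        rw [Valuation.map_neg, map_mul, map_pow,
          val_eq_one (bad_th_self A B τ (mem_of_val (h.val_qq i)) h.hAB h.hτ),
          IsScalarTower.algebraMap_apply F[X] k[X] (RatFunc k)]
        have h4 : w0.valuation (RatFunc k) (algebraMap k[X] (RatFunc k)
            (algebraMap F[X] k[X] (D * B))) = 1 :=
          val_eq_one (h.DB_notMem hD _ (h.prod_mem i))
        rw [h4, one_pow, mul_one]
      have h5 : Ev (w0.valuation (RatFunc k)) n (dd A B τ Δ (1 : k ≃ₐ[F] k)) := by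
        rw [mul_comm] at h2
        exact (h3.pow (s i)).of_mul h2
      have h6 : Ev (w0.valuation (RatFunc k)) n
          (algebraMap k[X] (RatFunc k) (∏ i, tt F (π i) ^ s i)) := by
        refine Ev.of_val (val_eq_one (prod_notMem _ _ fun j _ h7 => ?_))
        exact h.tt_notMem i j (w0.isPrime.mem_of_pow_mem _ h7)
      exact (h5.mul h6).2
    · have h2 := (hs' i _ h1).2
      set w0 := place (π i) (h.hπ i) with hw0
      have h3 : w0.valuation (RatFunc k)
          (algebraMap k[X] (RatFunc k) (sB σ⁻¹ (∏ i, tt F (π i) ^ s i))) =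
          w0.valuation (RatFunc k) (algebraMap k[X] (RatFunc k) (π i) ^ s i) := by
        rw [map_prod, map_prod, map_prod, Finset.prod_eq_single i]
        · rw [map_pow, map_pow, map_pow, map_pow, h.val_sB_tt i i h1]
        · intro j _ hj
          rw [map_pow, map_pow, map_pow, h.val_sB_tt i j h1,
            val_eq_one (h.other_notMem (Ne.symm hj)), one_pow]
        · intro h0
          exact absurd (Finset.mem_univ i) h0
      rw [map_mul, h3, mul_comm, ← map_mul]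
      exact h2
  · have hT : Ev (v.valuation (RatFunc k)) n (ι' (∏ i, tt F (π i) ^ s i)) := by
      refine Ev.of_val (val_eq_one (prod_notMem _ _ fun j _ h7 => ?_))
      exact h.tt_notMem_good v hWv j (v.isPrime.mem_of_pow_mem _ h7)
    refine Ev.mul ?_ hT
    by_cases hDv : D.map (algebraMap F k) ∈ v.asIdeal
    · exact par_inert hn.ne_zero A B D τ hcardn hD Δ hne hnorm v hDv
    · exact par_good hn.ne_zero P A B D h.hB τ h.hP h.qne h.hτ hm hand Δ hloc v hDv hWv

end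

end Pool.Agent.H83.TN
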