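import Mathlib

/-!
`n`-th powers in finite fields.
-/

namespace Pool.Agent.H83.TN

open Polynomial

section

variable {E : Type*} [Field E] [Finite E] {n : ℕ}

theorem exists_char (E : Type*) [Field E] [Finite E] {n : ℕ} (hn : n ≠ 0)
    (h : n ∣ Nat.card E - 1) :
    ∃ χ : Eˣ →* Multiplicative (ZMod n), Function.Surjective χ ∧
      ∀ x, χ x = 1 ↔ ∃ y, x = y ^ n := by
  obtain ⟨g, hg⟩ := IsCyclic.exists_generator (α := Eˣ)
  have hN : n ∣ Nat.card Eˣ := by rw [Nat.card_units]; exact h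
  set e := zmodMulEquivOfGenerator hg rfl with he
  set c : ZMod (Nat.card Eˣ) →+* ZMod n := ZMod.castHom hN (ZMod n) with hc
  set χ : Eˣ →* Multiplicative (ZMod n) :=
    (AddMonoidHom.toMultiplicative c.toAddMonoidHom).comp e.symm.toMonoidHom with hχ
  have hχg : ∀ i : ℤ, χ (g ^ i) = Multiplicative.ofAdd (i : ZMod n) := by
    intro i
    have h1 : e.symm (g ^ i) = Multiplicative.ofAdd (i : ZMod (Nat.card Eˣ)) :=
      zmodMulEquivOfGenerator_symm_apply_zpow hg rfl i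
    have h2 : χ (g ^ i) = Multiplicative.ofAdd (c (Multiplicative.toAdd (e.symm (g ^ i)))) := rfl
    rw [h2, h1, toAdd_ofAdd, map_intCast]
  refine ⟨χ, fun a => ?_, fun x => ?_⟩
  · haveI : NeZero n := ⟨hn⟩
    refine ⟨g ^ ((Multiplicative.toAdd a).val : ℤ), ?_⟩
    rw [hχg, Int.cast_natCast, ZMod.natCast_val, ZMod.cast_id]
    exact ofAdd_toAdd a
  · obtain ⟨i, rfl⟩ := hg x
    simp only
    rw [hχg]
    constructor
    · intro h1
      have h2 : ((i : ℤ) : ZMod n) = 0 := h1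
      rw [ZMod.intCast_zmod_eq_zero_iff_dvd] at h2
      obtain ⟨j, rfl⟩ := h2
      exact ⟨g ^ j, by rw [← zpow_natCast, ← zpow_mul, mul_comm]⟩
    · rintro ⟨y, hy⟩
      obtain ⟨j, rfl⟩ := hg y
      simp only at hy
      have h1 := congrArg χ hy
      rw [hχg, map_pow, hχg, ← ofAdd_nsmul, nsmul_eq_mul, ZMod.natCast_self, zero_mul] at h1
      exact h1

theorem exists_root_of_pow {n : ℕ} (h : n ∣ Nat.card E - 1) (x : Eˣ)
    (hx : x ^ ((Nat.card E - 1) / n) = 1) : ∃ y, x = y ^ n := by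
  obtain ⟨g, hg⟩ := IsCyclic.exists_generator (α := Eˣ)
  obtain ⟨i, rfl⟩ := hg x
  simp only at hx ⊢
  have hord : orderOf g = Nat.card E - 1 := by
    rw [orderOf_eq_card_of_forall_mem_zpowers hg, Nat.card_units]
  have hpos : 0 < Nat.card E - 1 := by
    have := Finite.one_lt_card (α := E)
    omega
  rw [← zpow_natCast, ← zpow_mul, ← orderOf_dvd_iff_zpow_eq_one, hord] at hx
  obtain ⟨N, hN⟩ := h
  have hn0 : 0 < n := by
    rcases Nat.eq_zero_or_pos n with h0 | h0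
    · rw [h0, zero_mul] at hN; omega
    · exact h0
  have hN0 : N ≠ 0 := by rintro rfl; rw [mul_zero] at hN; omega
  rw [hN, Nat.mul_div_cancel_left N hn0] at hx
  push_cast at hx
  have h1 : (n : ℤ) ∣ i := Int.dvd_of_mul_dvd_mul_right (by exact_mod_cast hN0) hx
  obtain ⟨j, rfl⟩ := h1
  exact ⟨g ^ j, by rw [← zpow_natCast, ← zpow_mul, mul_comm]⟩

theorem exists_primitive {F : Type*} [Field F] [Finite F] {n : ℕ} (h : n ∣ Nat.card F - 1) :
    ∃ ζ : F, IsPrimitiveRoot ζ n := by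
  obtain ⟨g, hg⟩ := IsCyclic.exists_ofOrder_eq_natCard (α := Fˣ)
  rw [Nat.card_units] at hg
  have hpos : 0 < Nat.card F - 1 := by
    have := Finite.one_lt_card (α := F)
    omega
  obtain ⟨N, hN⟩ := h
  have hN0 : N ≠ 0 := by rintro rfl; rw [mul_zero] at hN; omega
  refine ⟨((g ^ N : Fˣ) : F), ?_⟩
  rw [IsPrimitiveRoot.coe_units_iff]
  have h1 : orderOf (g ^ N) = n := by
    rw [orderOf_pow_of_dvd hN0 (by rw [hg, hN]; exact Dvd.intro_left _ rfl), hg, hN,
      Nat.mul_div_cancel _ (Nat.pos_of_ne_zero hN0)]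
  rw [← h1]
  exact IsPrimitiveRoot.orderOf _

end

section

variable {F k : Type*} [Field F] [Field k] [Algebra F k] [Finite k]

theorem card_dvd (F k : Type*) [Field F] [Field k] [Algebra F k] [Finite k] [Finite F] {n : ℕ}
    (h : n ∣ Nat.card F - 1) : n ∣ Nat.card k - 1 := by
  refine h.trans ?_
  haveI : FiniteDimensional F k := inferInstance
  have h1 : Nat.card k = Nat.card F ^ Module.finrank F k := Module.natCard_eq_pow_finrank
  rw [h1]
  have h2 := Nat.sub_dvd_pow_sub_pow (Nat.card F) 1 (Module.finrank F k)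
  rwa [one_pow] at h2

/-- a conjugate of `e` is `e` times an `n`-th power -/
theorem conj_div [Finite F] {n : ℕ} (hn : n ≠ 0) (h : n ∣ Nat.card F - 1) (σ : k ≃ₐ[F] k) {e : k}
    (he : e ≠ 0) : ∃ c : k, c ≠ 0 ∧ σ e = e * c ^ n := by
  have hk := card_dvd F k h
  set N := (Nat.card k - 1) / n with hN
  have hNn : N * n = Nat.card k - 1 := Nat.div_mul_cancel hk
  have hpow : ∀ x : k, x ≠ 0 → (x ^ N) ^ n = 1 := by
    intro x hx
    have : Fintype k := Fintype.ofFinite k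
    rw [← pow_mul, hNn, Nat.card_eq_fintype_card]
    exact FiniteField.pow_card_sub_one_eq_one x hx
  obtain ⟨ζ, hζ⟩ := exists_primitive h
  have hζk := hζ.map_of_injective (algebraMap F k).injective
  haveI : NeZero n := ⟨hn⟩
  obtain ⟨i, -, hi⟩ := hζk.eq_pow_of_pow_eq_one (hpow e he)
  have hfix : σ (e ^ N) = e ^ N := by
    rw [← hi, ← map_pow, AlgEquiv.commutes]
  have hσe : σ e ≠ 0 := by rw [Ne, map_eq_zero]; exact he
  set x : kˣ := Units.mk0 (σ e / e) (div_ne_zero hσe he) with hx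
  have hx1 : x ^ N = 1 := by
    apply Units.ext
    rw [Units.val_pow_eq_pow_val, hx, Units.val_mk0, div_pow, ← map_pow, hfix, Units.val_one,
      div_self (pow_ne_zero _ he)]
  obtain ⟨y, hy⟩ := exists_root_of_pow hk x hx1
  refine ⟨(y : k), y.ne_zero, ?_⟩
  have h1 := congrArg (fun u : kˣ => (u : k)) hy
  simp only [hx, Units.val_mk0, Units.val_pow_eq_pow_val] at h1
  rw [← h1, mul_div_cancel₀ _ he]

/-- if the norm is an `n`-th power then so is `e` -/
theorem root_of_prod [Finite F] [Fintype (k ≃ₐ[F] k)] {n g : ℕ} (hn : n ≠ 0)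
    (h : n ∣ Nat.card F - 1) (hm : Fintype.card (k ≃ₐ[F] k) = n * g + 1) {e b : k} (he : e ≠ 0)
    (hb : ∏ σ : k ≃ₐ[F] k, σ e = b ^ n) : ∃ c : k, c ≠ 0 ∧ e = c ^ n := by
  choose c hc0 hc using fun σ : k ≃ₐ[F] k => conj_div hn h σ he
  rw [Finset.prod_congr rfl fun σ _ => hc σ, Finset.prod_mul_distrib, Finset.prod_const,
    Finset.card_univ, hm, Finset.prod_pow] at hb
  have h1 : (∏ σ, c σ) ≠ 0 := Finset.prod_ne_zero_iff.2 fun σ _ => hc0 σ
  have h2 : e ^ g ≠ 0 := pow_ne_zero g he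
  have hb0 : b ≠ 0 := by
    rintro rfl
    rw [zero_pow hn] at hb
    exact mul_ne_zero (pow_ne_zero _ he) (pow_ne_zero _ h1) hb
  refine ⟨b / (e ^ g * ∏ σ, c σ), div_ne_zero hb0 (mul_ne_zero h2 h1), ?_⟩
  rw [div_pow, ← hb, mul_pow, ← pow_mul e g n, mul_comm g n, pow_succ]
  field_simp

end

end Pool.Agent.H83.TN
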