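import Pool.Agent.H94.LT.Cl

/-!
`n`-th power classes modulo `1 + m` in a valued field.
-/

namespace Pool.Agent.H83.TN

open WithZero
open Pool.Agent.H94.LT (log_mul' val_eq_one_of_sub)

section

variable {M : Type*} [Field M] (v : Valuation M ℤᵐ⁰) (n : ℕ)

/-- `x` is an `n`-th power times an element congruent to `1`. -/
def Cl (x : M) : Prop := ∃ s : M, s ≠ 0 ∧ v (x * s ^ n - 1) < 1

/-- `x` is nonzero and the valuation of `x` is divisible by `n` -/
def Ev (x : M) : Prop := x ≠ 0 ∧ (n : ℤ) ∣ log (v x)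

variable {v n}

theorem Ev.ne_zero {x : M} (h : Ev v n x) : x ≠ 0 := h.1

theorem Ev.mul {x y : M} (hx : Ev v n x) (hy : Ev v n y) : Ev v n (x * y) :=
  ⟨mul_ne_zero hx.1 hy.1, by rw [log_mul' hx.1 hy.1]; exact dvd_add hx.2 hy.2⟩

theorem Ev.npow {s : M} (hs : s ≠ 0) : Ev v n (s ^ n) :=
  ⟨pow_ne_zero n hs, by rw [map_pow, log_pow]; exact ⟨log (v s), by simp⟩⟩

theorem Ev.pow {x : M} (hx : Ev v n x) (k : ℕ) : Ev v n (x ^ k) :=
  ⟨pow_ne_zero k hx.1, by rw [map_pow, log_pow, nsmul_eq_mul]; exact Dvd.dvd.mul_left hx.2 _⟩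

theorem Ev.of_mul_npow {x s : M} (hs : s ≠ 0) (h : Ev v n (x * s ^ n)) : Ev v n x := by
  obtain ⟨h0, h1⟩ := h
  have hx : x ≠ 0 := left_ne_zero_of_mul h0
  refine ⟨hx, ?_⟩
  rw [log_mul' hx (pow_ne_zero n hs)] at h1
  exact (dvd_add_left (Ev.npow (v := v) (n := n) hs).2).1 h1

theorem Ev.of_mul {x y : M} (hx : Ev v n x) (h : Ev v n (x * y)) : Ev v n y := by
  have hy : y ≠ 0 := right_ne_zero_of_mul h.1
  refine ⟨hy, ?_⟩
  have h1 := h.2
  rw [log_mul' hx.1 hy] at h1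
  exact (dvd_add_right hx.2).1 h1

theorem Ev.of_val {x : M} (h : v x = 1) : Ev v n x :=
  ⟨by rintro rfl; simp at h, by rw [h]; simp⟩

theorem Ev.inv {x : M} (h : Ev v n x) : Ev v n x⁻¹ :=
  ⟨inv_ne_zero h.1, by rw [map_inv₀, log_inv]; exact (dvd_neg).2 h.2⟩

theorem Ev.prod {ι : Type*} (s : Finset ι) (f : ι → M) (h : ∀ i ∈ s, Ev v n (f i)) :
    Ev v n (∏ i ∈ s, f i) := by
  classical
  induction s using Finset.induction_on with
  | empty => rw [Finset.prod_empty]; exact Ev.of_val (map_one v)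
  | insert a s ha ih =>
    rw [Finset.prod_insert ha]
    exact (h a (Finset.mem_insert_self _ _)).mul
      (ih fun i hi => h i (Finset.mem_insert_of_mem hi))

theorem Cl.ev {x : M} (h : Cl v n x) : Ev v n x := by
  obtain ⟨s, hs, h⟩ := h
  exact Ev.of_mul_npow hs (Ev.of_val (val_eq_one_of_sub h))

theorem Cl.ne_zero {x : M} (h : Cl v n x) : x ≠ 0 := h.ev.ne_zero

theorem Cl.of_lt {x : M} (h : v (x - 1) < 1) : Cl v n x := ⟨1, one_ne_zero, by simpa using h⟩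

theorem Cl.npow {s : M} (hs : s ≠ 0) : Cl v n (s ^ n) :=
  ⟨s⁻¹, inv_ne_zero hs, by
    rw [← mul_pow, mul_inv_cancel₀ hs]; simp⟩

theorem Cl.one : Cl v n 1 := by simpa using Cl.npow (v := v) (n := n) (one_ne_zero (α := M))

theorem Cl.mul {x y : M} (hx : Cl v n x) (hy : Cl v n y) : Cl v n (x * y) := by
  obtain ⟨s, hs, h1⟩ := hx
  obtain ⟨r, hr, h2⟩ := hy
  refine ⟨s * r, mul_ne_zero hs hr, ?_⟩
  have h3 : x * y * (s * r) ^ n - 1 = (x * s ^ n) * (y * r ^ n - 1) + (x * s ^ n - 1) := by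
    rw [mul_pow]; ring
  rw [h3]
  refine lt_of_le_of_lt (v.map_add _ _) (max_lt ?_ h1)
  rw [map_mul, val_eq_one_of_sub h1, one_mul]
  exact h2

theorem Cl.inv {x : M} (hx : Cl v n x) : Cl v n x⁻¹ := by
  have hx0 := hx.ne_zero
  obtain ⟨s, hs, h1⟩ := hx
  refine ⟨s⁻¹, inv_ne_zero hs, ?_⟩
  have h2 : x⁻¹ * s⁻¹ ^ n - 1 = -((x * s ^ n)⁻¹ * (x * s ^ n - 1)) := by
    have h3 : s ^ n ≠ 0 := pow_ne_zero n hs
    rw [inv_pow]
    field_simp
    ring
  rw [h2, Valuation.map_neg, map_mul, map_inv₀, val_eq_one_of_sub h1, inv_one, one_mul]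
  exact h1

theorem Cl.of_mul {x y : M} (hx : Cl v n x) (h : Cl v n (x * y)) : Cl v n y := by
  have h1 := hx.inv.mul h
  rwa [inv_mul_cancel_left₀ hx.ne_zero] at h1

theorem Cl.of_mul_npow {x s : M} (hs : s ≠ 0) (h : Cl v n (x * s ^ n)) : Cl v n x := by
  rw [mul_comm] at h
  exact (Cl.npow hs).of_mul h

theorem Cl.pow {x : M} (hx : Cl v n x) (k : ℕ) : Cl v n (x ^ k) := by
  induction k with
  | zero => rw [pow_zero]; exact Cl.one
  | succ k ih => rw [pow_succ]; exact ih.mul hx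

theorem Cl.pow_dvd {x : M} (hx : x ≠ 0) {k : ℕ} (hk : n ∣ k) : Cl v n (x ^ k) := by
  obtain ⟨j, rfl⟩ := hk
  rw [mul_comm, pow_mul]
  exact Cl.npow (pow_ne_zero j hx)

theorem Ev.pow_dvd {x : M} (hx : x ≠ 0) {k : ℕ} (hk : n ∣ k) : Ev v n (x ^ k) :=
  (Cl.pow_dvd hx hk).ev

theorem Cl.prod {ι : Type*} (s : Finset ι) (f : ι → M) (h : ∀ i ∈ s, Cl v n (f i)) :
    Cl v n (∏ i ∈ s, f i) := by
  classical
  induction s using Finset.induction_on with
  | empty => rw [Finset.prod_empty]; exact Cl.one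
  | insert a s ha ih =>
    rw [Finset.prod_insert ha]
    exact (h a (Finset.mem_insert_self _ _)).mul
      (ih fun i hi => h i (Finset.mem_insert_of_mem hi))

/-- a power prime to `n` detects classes -/
theorem Cl.of_pow {x : M} (hx : x ≠ 0) {k : ℕ} (hk : Nat.Coprime k n) (h : Cl v n (x ^ k)) :
    Cl v n x := by
  by_cases hn : n = 0
  · subst hn
    rw [Nat.coprime_zero_right] at hk
    rwa [hk, pow_one] at h
  by_cases hn1 : n = 1
  · subst hn1
    exact ⟨x⁻¹, inv_ne_zero hx, by rw [pow_one, mul_inv_cancel₀ hx]; simp⟩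
  obtain ⟨j, hj⟩ := Nat.exists_mul_mod_eq_one_of_coprime hk (by omega)
  have h1 : Cl v n (x ^ (k * j)) := by rw [pow_mul]; exact h.pow j
  have h2 : k * j = n * (k * j / n) + 1 := by
    rw [← hj.2]; exact (Nat.div_add_mod _ _).symm
  rw [h2, pow_succ] at h1
  exact (Cl.pow_dvd hx (Dvd.intro _ rfl)).of_mul h1

theorem Ev.of_pow {x : M} (hx : x ≠ 0) {k : ℕ} (hk : Nat.Coprime k n) (h : Ev v n (x ^ k)) :
    Ev v n x := by
  refine ⟨hx, ?_⟩
  have h1 := h.2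
  rw [map_pow, log_pow, nsmul_eq_mul] at h1
  exact (IsCoprime.dvd_of_dvd_mul_left
    (Nat.isCoprime_iff_coprime.2 (Nat.Coprime.symm hk)) h1)

theorem Cl.div_of_lt {x y : M} (hy : y ≠ 0) (h : v (x - y) < v y) : Cl v n (x / y) := by
  refine Cl.of_lt ?_
  have h2 : x / y - 1 = (x - y) / y := by field_simp
  rw [h2, map_div₀]
  exact (div_lt_one₀ (by
    rw [zero_lt_iff]; exact (v.ne_zero_iff).2 hy)).2 h

end

end Pool.Agent.H83.TN
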