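import Pool.Agent.H83.TN.Unram

/-!
Closed points `c β ^ n = ∏ (α - r_i)` over a complete field: good reduction.
-/

set_option linter.unusedSectionVars false
set_option linter.style.haveILetI false

namespace Pool.Agent.H83.TN

open Polynomial WithZero
open Pool.Agent.H83.T5 (norm_lt_iff norm_le_iff norm_eq_iff norm_eq_one_iff' norm_le_one_iff' sn_mul
  sn_add sn_alg sn_neg sn_sub sn_add_eq_of_lt sn_ne_zero sn_pos sn_inv sn_div sn_pow norm_ne_zero'
  val_norm_of_sn_one norm_one_add_sub_one monic_induction)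

section

variable {M : Type*} [NontriviallyNormedField M] [IsUltrametricDist M] [CompleteSpace M]
  {M' : Type*} [Field M'] [Algebra M M'] [FiniteDimensional M M'] {w : Valuation M ℤᵐ⁰} {n : ℕ}

/-- unit differences: the common argument -/
theorem ev_of_units (hw : ∀ x : M, ‖x‖ < 1 ↔ w x < 1) {ι : Type*} [Fintype ι] (s : ι → M)
    (hss : ∀ i j, i ≠ j → w (s i - s j) = 1) (hs : ∀ i, w (s i) ≤ 1) (a : M')
    (ha : spectralNorm M M' a ≤ 1) (hne : ∀ i, a - algebraMap M M' (s i) ≠ 0)
    (hprod : Ev w n (∏ i, Algebra.norm M (a - algebraMap M M' (s i)))) (i : ι) :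
    Ev w n (Algebra.norm M (a - algebraMap M M' (s i))) := by
  classical
  have hs' : ∀ i, spectralNorm M M' (algebraMap M M' (s i)) ≤ 1 := by
    intro i; rw [sn_alg]; exact (norm_le_one_iff' hw _).2 (hs i)
  have hle : spectralNorm M M' (a - algebraMap M M' (s i)) ≤ 1 :=
    (sn_sub _ _).trans (max_le ha (hs' i))
  rcases lt_or_eq_of_le hle with hlt | heq
  · have hother : ∀ j, j ≠ i → w (Algebra.norm M (a - algebraMap M M' (s j))) = 1 := by
      intro j hj
      apply val_norm_of_sn_one hw
      have h1 : a - algebraMap M M' (s j) = (a - algebraMap M M' (s i)) +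
          algebraMap M M' (s i - s j) := by rw [map_sub]; ring
      have h2 : spectralNorm M M' (algebraMap M M' (s i - s j)) = 1 := by
        rw [sn_alg]; exact (norm_eq_one_iff' hw _).2 (hss i j (Ne.symm hj))
      rw [h1, sn_add_eq_of_lt (by rw [h2]; exact hlt), h2]
    have h3 : w (∏ i, Algebra.norm M (a - algebraMap M M' (s i))) =
        w (Algebra.norm M (a - algebraMap M M' (s i))) := by
      rw [map_prod]
      exact Finset.prod_eq_single i (fun j _ hj => hother j hj)
        (fun h => absurd (Finset.mem_univ i) h)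
    exact ⟨norm_ne_zero' (hne i), by rw [← h3]; exact hprod.2⟩
  · exact Ev.of_val (val_norm_of_sn_one hw heq)

theorem closed_good (hw : ∀ x : M, ‖x‖ < 1 ↔ w x < 1) {ι : Type*} [Fintype ι]
    (hcard : Nat.Coprime (Fintype.card ι) n) {c : M} (hc : w c = 1) (r : ι → M)
    (hr : ∀ i, w (r i) ≤ 1) (hrr : ∀ i j, i ≠ j → w (r i - r j) = 1) {α β : M'} (hβ : β ≠ 0)
    (h : algebraMap M M' c * β ^ n = ∏ i, (α - algebraMap M M' (r i))) (i : ι) :
    Ev w n (Algebra.norm M (α - algebraMap M M' (r i))) := by
  classical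
  have hc0 : c ≠ 0 := by rintro rfl; simp at hc
  have hne : ∀ i, α - algebraMap M M' (r i) ≠ 0 := by
    intro j hj
    have h1 : ∏ i, (α - algebraMap M M' (r i)) = 0 := Finset.prod_eq_zero (Finset.mem_univ j) hj
    rw [← h] at h1
    exact (mul_ne_zero (by rw [Ne, map_eq_zero]; exact hc0) (pow_ne_zero n hβ)) h1
  have hNprod : ∏ i, Algebra.norm M (α - algebraMap M M' (r i)) =
      c ^ Module.finrank M M' * Algebra.norm M β ^ n := by
    rw [← map_prod, ← h, map_mul, map_pow, Algebra.norm_algebraMap]
  have hprod : Ev w n (∏ i, Algebra.norm M (α - algebraMap M M' (r i))) := by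
    rw [hNprod]
    exact (Ev.of_val (by rw [map_pow, hc, one_pow])).mul (Ev.npow (norm_ne_zero' hβ))
  rcases le_or_gt (spectralNorm M M' α) 1 with hα | hα
  · exact ev_of_units hw r hrr hr α hα hne hprod i
  · have hα0 : α ≠ 0 := by
      rintro rfl
      rw [spectralNorm_zero] at hα
      exact absurd hα (by norm_num)
    have ha0 : Algebra.norm M α ≠ 0 := norm_ne_zero' hα0
    have hev : ∀ j, Ev w n (Algebra.norm M (α - algebraMap M M' (r j)) / Algebra.norm M α) := by
      intro j
      refine (cl_norm_sub (n := n) hw ?_).ev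
      rw [sn_alg]
      exact lt_of_le_of_lt ((norm_le_one_iff' hw _).2 (hr j)) hα
    have h1 : Ev w n (Algebra.norm M α ^ Fintype.card ι) := by
      have h2 := (Ev.prod Finset.univ _ fun j _ => hev j)
      rw [Finset.prod_div_distrib, Finset.prod_const, Finset.card_univ] at h2
      have h3 : (∏ j, Algebra.norm M (α - algebraMap M M' (r j))) /
          Algebra.norm M α ^ Fintype.card ι * (Algebra.norm M α ^ Fintype.card ι) =
          ∏ j, Algebra.norm M (α - algebraMap M M' (r j)) := by
        rw [div_mul_cancel₀ _ (pow_ne_zero _ ha0)]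
      rw [← h3] at hprod
      exact h2.of_mul hprod
    have h4 := Ev.of_pow ha0 hcard h1
    have h5 := (hev i).mul h4
    rwa [div_mul_cancel₀ _ ha0] at h5

end

end Pool.Agent.H83.TN
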