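import Pool.Agent.H83.T5.Model

/-!
The polynomials `W = B^m P(A/B)`, `h(u) = (B u)^m P((A u - 1) / (B u))` and
`f(U) = W^(m-1) h(U/W)`.
-/

set_option linter.unusedSectionVars false
set_option linter.style.haveILetI false

namespace Pool.Agent.H83.TN

open Polynomial
open Pool.Agent.H83.T5 (prod_scaleRoots leadingCoeff_lin lin_scaleRoots)

section

variable {R : Type*} [CommRing R]

/-- `W = B^m P(A/B)`, `m = deg P` -/
noncomputable def wPoly (P A B : R[X]) : R[X] :=
  ∑ i ∈ Finset.range (P.natDegree + 1), C (P.coeff i) * A ^ i * B ^ (P.natDegree - i)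

/-- `h(u) = ∑ p_i (A u - 1)^i (B u)^(m-i)` -/
noncomputable def hPoly (P A B : R[X]) : R[X][X] :=
  ∑ i ∈ Finset.range (P.natDegree + 1), C (C (P.coeff i)) * (C A * X - 1) ^ i *
    (C B * X) ^ (P.natDegree - i)

/-- the monic polynomial `f(U) = W^(m-1) h(U / W)` -/
noncomputable def fPoly (P A B : R[X]) : R[X][X] := (hPoly P A B).integralNormalization

theorem wPoly_eq_eval (P A B : R[X]) : wPoly P A B =
    ((P.map (C : R →+* R[X])).scaleRoots B).eval A := by
  by_cases hR : Nontrivial R
  swap
  · haveI := not_nontrivial_iff_subsingleton.1 hR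
    exact Subsingleton.elim _ _
  have hinj : Function.Injective (C : R →+* R[X]) := C_injective
  rw [eval_eq_sum_range, natDegree_scaleRoots, natDegree_map_eq_of_injective hinj, wPoly]
  refine Finset.sum_congr rfl fun i _ => ?_
  rw [coeff_scaleRoots, coeff_map, natDegree_map_eq_of_injective hinj]
  ring

theorem hPoly_eq_eval (P A B : R[X]) : hPoly P A B =
    ((P.map ((C : R[X] →+* R[X][X]).comp C)).scaleRoots (C B * X)).eval (C A * X - 1) := by
  by_cases hR : Nontrivial R
  swap
  · haveI := not_nontrivial_iff_subsingleton.1 hR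
    exact Subsingleton.elim _ _
  have hinj : Function.Injective ((C : R[X] →+* R[X][X]).comp C) :=
    (C_injective).comp C_injective
  rw [eval_eq_sum_range, natDegree_scaleRoots, natDegree_map_eq_of_injective hinj, hPoly]
  refine Finset.sum_congr rfl fun i _ => ?_
  rw [coeff_scaleRoots, coeff_map, natDegree_map_eq_of_injective hinj]
  simp only [RingHom.comp_apply]
  ring

theorem wPoly_map {S : Type*} [CommRing S] (g : R →+* S) (hg : Function.Injective g)
    (P A B : R[X]) : (wPoly P A B).map g = wPoly (P.map g) (A.map g) (B.map g) := by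
  rw [wPoly, wPoly, natDegree_map_eq_of_injective hg, Polynomial.map_sum]
  refine Finset.sum_congr rfl fun i _ => ?_
  simp only [Polynomial.map_mul, Polynomial.map_pow, Polynomial.map_C, coeff_map]

theorem hPoly_map {S : Type*} [CommRing S] (g : R →+* S) (hg : Function.Injective g)
    (P A B : R[X]) :
    (hPoly P A B).map (mapRingHom g) = hPoly (P.map g) (A.map g) (B.map g) := by
  rw [hPoly, hPoly, natDegree_map_eq_of_injective hg, Polynomial.map_sum]
  refine Finset.sum_congr rfl fun i _ => ?_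
  simp only [Polynomial.map_mul, Polynomial.map_pow, Polynomial.map_sub, Polynomial.map_C,
    Polynomial.map_X, Polynomial.map_one, coe_mapRingHom, coeff_map]

theorem wPoly_one (P A : R[X]) : wPoly P A 1 = P.comp A := by
  rw [wPoly, comp, eval₂_eq_sum_range]
  refine Finset.sum_congr rfl fun i _ => ?_
  rw [one_pow, mul_one]

end

section

variable {R : Type*} [CommRing R] [IsDomain R]

theorem wPoly_prod {ι : Type*} [Fintype ι] (τ : ι → R) (A B : R[X]) :
    wPoly (∏ i, (X - C (τ i))) A B = ∏ i, (A - C (τ i) * B) := by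
  rw [wPoly_eq_eval, Polynomial.map_prod, prod_scaleRoots, eval_prod]
  refine Finset.prod_congr rfl fun i _ => ?_
  rw [Polynomial.map_sub, Polynomial.map_X, Polynomial.map_C, X_sub_C_scaleRoots, eval_sub,
    eval_X, eval_C]

theorem hPoly_prod {ι : Type*} [Fintype ι] (τ : ι → R) (A B : R[X]) :
    hPoly (∏ i, (X - C (τ i))) A B = ∏ i, (C (A - C (τ i) * B) * X - 1) := by
  rw [hPoly_eq_eval, Polynomial.map_prod, prod_scaleRoots, eval_prod]
  refine Finset.prod_congr rfl fun i _ => ?_
  rw [Polynomial.map_sub, Polynomial.map_X, Polynomial.map_C, X_sub_C_scaleRoots, eval_sub,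
    eval_X, eval_C, RingHom.comp_apply, C_sub, C_mul]
  ring

theorem fPoly_prod {ι : Type*} [Fintype ι] [DecidableEq ι] (τ : ι → R) (A B : R[X])
    (h : ∀ i, A - C (τ i) * B ≠ 0) :
    fPoly (∏ i, (X - C (τ i))) A B =
      ∏ i, (X - C (∏ j ∈ Finset.univ.erase i, (A - C (τ j) * B))) := by
  set q : ι → R[X] := fun i => A - C (τ i) * B with hq
  have hW : (∏ i, q i) ≠ 0 := Finset.prod_ne_zero_iff.2 fun i _ => h i
  have hlead : (hPoly (∏ i, (X - C (τ i))) A B).leadingCoeff = ∏ i, q i := by
    rw [hPoly_prod, leadingCoeff_prod]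
    exact Finset.prod_congr rfl fun i _ => (leadingCoeff_lin (h i)).1
  have h1 := integralNormalization_mul_C_leadingCoeff (hPoly (∏ i, (X - C (τ i))) A B)
  rw [hlead] at h1
  have hCW : (C (∏ i, q i) : R[X][X]) ≠ 0 := by rwa [Ne, C_eq_zero]
  apply mul_right_cancel₀ hCW
  have hCp : (C (∏ i, q i) : R[X][X]) = ∏ i, C (q i) := map_prod C _ _
  rw [fPoly, h1, hPoly_prod, prod_scaleRoots, hCp, ← Finset.prod_mul_distrib]
  refine Finset.prod_congr rfl fun i _ => ?_
  have h2 : (C (A - C (τ i) * B) * X - 1 : R[X][X]).scaleRoots (∏ i, q i) =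
      C (q i) * X - C (∏ i, q i) := lin_scaleRoots (h i) _
  rw [h2, ← Finset.mul_prod_erase Finset.univ q (Finset.mem_univ i), C_mul]
  ring

theorem hPoly_ne {ι : Type*} [Fintype ι] (τ : ι → R) (A B : R[X])
    (h : ∀ i, A - C (τ i) * B ≠ 0) : hPoly (∏ i, (X - C (τ i))) A B ≠ 0 := by
  rw [hPoly_prod]
  refine Finset.prod_ne_zero_iff.2 fun i _ h0 => ?_
  have h1 := (leadingCoeff_lin (h i)).2
  rw [h0] at h1
  simp at h1

/-- over a splitting field -/
theorem fPoly_map {F k : Type*} [Field F] [Field k] (g : F →+* k) {ι : Type*} [Fintype ι]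
    [DecidableEq ι] (P A B : F[X]) (τ : ι → k) (hP : P.map g = ∏ i, (X - C (τ i)))
    (h : ∀ i, A.map g - C (τ i) * B.map g ≠ 0) :
    (fPoly P A B).map (mapRingHom g) =
      ∏ i, (X - C (∏ j ∈ Finset.univ.erase i, (A.map g - C (τ j) * B.map g))) := by
  have h1 : (mapRingHom g) (hPoly P A B).leadingCoeff ≠ 0 := by
    intro h0
    have h2 : (hPoly P A B).leadingCoeff = 0 := by
      have h3 : Function.Injective (mapRingHom g) := map_injective g g.injective
      rwa [map_eq_zero_iff _ h3] at h0
    rw [leadingCoeff_eq_zero] at h2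
    have h4 := hPoly_map g g.injective P A B
    rw [h2, Polynomial.map_zero, hP] at h4
    exact hPoly_ne τ (A.map g) (B.map g) h h4.symm
  rw [fPoly, ← integralNormalization_map _ _ h1, hPoly_map g g.injective, hP]
  exact fPoly_prod τ (A.map g) (B.map g) h

end

end Pool.Agent.H83.TN
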