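import Pool.Agent.H83.T5.Conj
import Pool.Agent.H83.TN.Model

/-!
The conjugates `q_σ = A - σ(τ) B` and `θ_σ = ∏_{ρ ≠ σ} q_ρ` and their valuations.
-/

set_option linter.unusedSectionVars false
set_option linter.style.haveILetI false

namespace Pool.Agent.H83.TN

open Polynomial WithZero IsDedekindDomain HeightOneSpectrum
open Pool.Agent.H83.T5 (sB sB_apply sB_C sB_X sB_base sB_mul sB_one sL sL_alg val_eq_one C_notMem
  prod_notMem)

section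

variable {F k : Type*} [Field F] [Field k] [Algebra F k] [Fintype (k ≃ₐ[F] k)]
  [DecidableEq (k ≃ₐ[F] k)] (A B : F[X]) (τ : k)

/-- `A - σ(τ) B` -/
noncomputable def qq (σ : k ≃ₐ[F] k) : k[X] :=
  A.map (algebraMap F k) - C (σ τ) * B.map (algebraMap F k)

/-- the product of the other conjugates -/
noncomputable def th (σ : k ≃ₐ[F] k) : k[X] := ∏ ρ ∈ Finset.univ.erase σ, qq A B τ ρ

theorem sB_qq (σ ρ : k ≃ₐ[F] k) : sB σ (qq A B τ ρ) = qq A B τ (σ * ρ) := by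
  rw [qq, qq, map_sub, map_mul, sB_base, sB_base, sB_C]
  rfl

theorem sB_th (σ ρ : k ≃ₐ[F] k) : sB σ (th A B τ ρ) = th A B τ (σ * ρ) := by
  rw [th, th, map_prod]
  refine Finset.prod_bij (fun κ _ => σ * κ) ?_ ?_ ?_ ?_
  · intro κ hκ
    rw [Finset.mem_erase] at hκ ⊢
    exact ⟨fun h => hκ.1 (mul_left_cancel h), Finset.mem_univ _⟩
  · intro κ _ κ' _ h
    exact mul_left_cancel h
  · intro κ hκ
    rw [Finset.mem_erase] at hκ
    refine ⟨σ⁻¹ * κ, ?_, by rw [mul_inv_cancel_left]⟩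
    rw [Finset.mem_erase]
    refine ⟨fun h => hκ.1 ?_, Finset.mem_univ _⟩
    rw [← h, mul_inv_cancel_left]
  · intro κ _
    exact sB_qq A B τ σ κ

theorem qq_sub (σ ρ : k ≃ₐ[F] k) :
    qq A B τ σ - qq A B τ ρ = C (ρ τ - σ τ) * B.map (algebraMap F k) := by
  rw [qq, qq, C_sub]; ring

theorem qq_mul_th (σ : k ≃ₐ[F] k) : qq A B τ σ * th A B τ σ = ∏ ρ, qq A B τ ρ :=
  Finset.mul_prod_erase Finset.univ _ (Finset.mem_univ σ)

theorem th_eq {σ ρ : k ≃ₐ[F] k} (h : σ ≠ ρ) :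
    th A B τ σ = qq A B τ ρ * ∏ κ ∈ (Finset.univ.erase σ).erase ρ, qq A B τ κ :=
  (Finset.mul_prod_erase (Finset.univ.erase σ) _ (by simp [Ne.symm h])).symm

theorem th_sub {σ ρ : k ≃ₐ[F] k} (h : σ ≠ ρ) : th A B τ σ - th A B τ ρ =
    B.map (algebraMap F k) *
      (C (σ τ - ρ τ) * ∏ κ ∈ (Finset.univ.erase σ).erase ρ, qq A B τ κ) := by
  rw [th_eq A B τ h, th_eq A B τ (Ne.symm h), Finset.erase_right_comm, ← sub_mul, qq_sub]
  ring

theorem prod_qq (P : F[X]) (hP : P.map (algebraMap F k) = ∏ σ : k ≃ₐ[F] k, (X - C (σ τ))) :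
    (wPoly P A B).map (algebraMap F k) = ∏ σ, qq A B τ σ := by
  rw [wPoly_map _ (algebraMap F k).injective, hP, wPoly_prod]
  rfl

/-- the `q_σ` are pairwise coprime -/
theorem qq_isCoprime (hAB : IsCoprime A B) (hτ : ∀ σ ρ : k ≃ₐ[F] k, σ τ = ρ τ → σ = ρ)
    {σ ρ : k ≃ₐ[F] k} (h : σ ≠ ρ) : IsCoprime (qq A B τ σ) (qq A B τ ρ) := by
  set A' := A.map (algebraMap F k) with hA'
  set B' := B.map (algebraMap F k) with hB'
  have h1 : IsCoprime A' B' := hAB.map (mapRingHom (algebraMap F k))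
  have h2 : IsCoprime (qq A B τ σ) B' := by
    obtain ⟨x, y, hxy⟩ := h1
    refine ⟨x, y + x * C (σ τ), ?_⟩
    rw [qq, ← hxy]; ring
  have h3 : qq A B τ ρ = qq A B τ σ + C (σ τ - ρ τ) * B' := by
    rw [← qq_sub]; ring
  rw [h3]
  have h4 : IsUnit (C (σ τ - ρ τ) : k[X]) := by
    rw [isUnit_C, isUnit_iff_ne_zero, sub_ne_zero]
    exact fun h0 => h (hτ _ _ h0)
  have h5 : IsCoprime (qq A B τ σ) (C (σ τ - ρ τ) * B') := by
    rw [mul_comm]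
    exact (isCoprime_mul_unit_right_right h4 _ _).2 h2
  have h6 := h5.mul_add_left_right 1
  rwa [mul_one] at h6

theorem qq_isCoprime_B (hAB : IsCoprime A B) (σ : k ≃ₐ[F] k) :
    IsCoprime (qq A B τ σ) (B.map (algebraMap F k)) := by
  have h1 : IsCoprime (A.map (algebraMap F k)) (B.map (algebraMap F k)) :=
    hAB.map (mapRingHom (algebraMap F k))
  obtain ⟨x, y, hxy⟩ := h1
  refine ⟨x, y + x * C (σ τ), ?_⟩
  rw [qq, ← hxy]; ring

theorem notMem_of_isCoprime {w : HeightOneSpectrum k[X]} {p q : k[X]} (h : IsCoprime p q)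
    (hp : p ∈ w.asIdeal) : q ∉ w.asIdeal := by
  intro hq
  obtain ⟨x, y, hxy⟩ := h
  refine w.isPrime.ne_top ((Ideal.eq_top_iff_one _).2 ?_)
  rw [← hxy]
  exact add_mem (Ideal.mul_mem_left _ _ hp) (Ideal.mul_mem_left _ _ hq)

/-- good primes -/
theorem good_qq {w : HeightOneSpectrum k[X]} (hw : (∏ σ, qq A B τ σ) ∉ w.asIdeal)
    (σ : k ≃ₐ[F] k) : qq A B τ σ ∉ w.asIdeal := by
  intro h
  apply hw
  rw [← qq_mul_th A B τ σ]
  exact Ideal.mul_mem_right _ _ h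

theorem good_th {w : HeightOneSpectrum k[X]} (hw : (∏ σ, qq A B τ σ) ∉ w.asIdeal)
    (σ : k ≃ₐ[F] k) : th A B τ σ ∉ w.asIdeal :=
  prod_notMem _ _ fun ρ _ => good_qq A B τ hw ρ

/-- `θ_σ = θ_1 + B r'_σ` -/
noncomputable def rr (σ : k ≃ₐ[F] k) : k[X] :=
  C (σ τ - τ) * ∏ κ ∈ (Finset.univ.erase σ).erase 1, qq A B τ κ

theorem th_eq_rr (σ : k ≃ₐ[F] k) :
    th A B τ σ = th A B τ 1 + B.map (algebraMap F k) * rr A B τ σ := by
  by_cases h : σ = 1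
  · subst h
    rw [rr, AlgEquiv.one_apply, sub_self, C_0, zero_mul, mul_zero, add_zero]
  · have h1 := th_sub A B τ h
    rw [AlgEquiv.one_apply] at h1
    rw [rr, ← h1]; ring

theorem rr_sub (hB : B ≠ 0) {σ ρ : k ≃ₐ[F] k} (h : σ ≠ ρ) :
    rr A B τ σ - rr A B τ ρ =
      C (σ τ - ρ τ) * ∏ κ ∈ (Finset.univ.erase σ).erase ρ, qq A B τ κ := by
  have hB' : B.map (algebraMap F k) ≠ 0 := by rwa [Ne, Polynomial.map_eq_zero]
  apply mul_left_cancel₀ hB'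
  rw [← th_sub A B τ h, th_eq_rr A B τ σ, th_eq_rr A B τ ρ]; ring

theorem good_rr {w : HeightOneSpectrum k[X]} (hw : (∏ σ, qq A B τ σ) ∉ w.asIdeal) (hB : B ≠ 0)
    (hτ : ∀ σ ρ : k ≃ₐ[F] k, σ τ = ρ τ → σ = ρ) {σ ρ : k ≃ₐ[F] k} (h : σ ≠ ρ) :
    rr A B τ σ - rr A B τ ρ ∉ w.asIdeal := by
  rw [rr_sub A B τ hB h]
  intro h0
  rcases w.isPrime.mem_or_mem h0 with h1 | h1
  · exact C_notMem (sub_ne_zero.2 fun h2 => h (hτ _ _ h2)) h1
  · exact prod_notMem _ _ (fun κ _ => good_qq A B τ hw κ) h1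

/-- primes dividing `q_σ` -/
theorem bad_qq {w : HeightOneSpectrum k[X]} {σ : k ≃ₐ[F] k} (hw : qq A B τ σ ∈ w.asIdeal)
    (hAB : IsCoprime A B) (hτ : ∀ σ ρ : k ≃ₐ[F] k, σ τ = ρ τ → σ = ρ) {ρ : k ≃ₐ[F] k}
    (h : ρ ≠ σ) : qq A B τ ρ ∉ w.asIdeal :=
  notMem_of_isCoprime (qq_isCoprime A B τ hAB hτ (Ne.symm h)) hw

theorem bad_th_self {w : HeightOneSpectrum k[X]} {σ : k ≃ₐ[F] k} (hw : qq A B τ σ ∈ w.asIdeal)
    (hAB : IsCoprime A B) (hτ : ∀ σ ρ : k ≃ₐ[F] k, σ τ = ρ τ → σ = ρ) :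
    th A B τ σ ∉ w.asIdeal :=
  prod_notMem _ _ fun ρ hρ => bad_qq A B τ hw hAB hτ (Finset.mem_erase.1 hρ).1

theorem mem_of_val {w : HeightOneSpectrum k[X]} {p : k[X]}
    (h : w.valuation (RatFunc k) (algebraMap k[X] (RatFunc k) p) = exp (-1 : ℤ)) :
    p ∈ w.asIdeal := by
  by_contra h0
  rw [val_eq_one h0, ← exp_zero, exp_inj] at h
  exact absurd h (by norm_num)

theorem bad_th {w : HeightOneSpectrum k[X]} {σ : k ≃ₐ[F] k}
    (hw : w.valuation (RatFunc k) (algebraMap k[X] (RatFunc k) (qq A B τ σ)) = exp (-1 : ℤ))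
    (hAB : IsCoprime A B) (hτ : ∀ σ ρ : k ≃ₐ[F] k, σ τ = ρ τ → σ = ρ)
    {ρ : k ≃ₐ[F] k} (h : ρ ≠ σ) :
    w.valuation (RatFunc k) (algebraMap k[X] (RatFunc k) (th A B τ ρ)) = exp (-1 : ℤ) := by
  rw [th_eq A B τ h, map_mul, map_mul, hw, val_eq_one, mul_one]
  refine prod_notMem _ _ fun κ hκ => ?_
  exact bad_qq A B τ (mem_of_val hw) hAB hτ (Finset.mem_erase.1 hκ).1

theorem bad_sub {w : HeightOneSpectrum k[X]} {σ : k ≃ₐ[F] k}
    (hw : w.valuation (RatFunc k) (algebraMap k[X] (RatFunc k) (qq A B τ σ)) = exp (-1 : ℤ))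
    (hAB : IsCoprime A B) (hτ : ∀ σ ρ : k ≃ₐ[F] k, σ τ = ρ τ → σ = ρ)
    {ρ κ : k ≃ₐ[F] k} (h : ρ ≠ σ) (h' : κ ≠ σ) (h'' : ρ ≠ κ) :
    w.valuation (RatFunc k) (algebraMap k[X] (RatFunc k) (th A B τ ρ) -
      algebraMap k[X] (RatFunc k) (th A B τ κ)) = exp (-1 : ℤ) := by
  have hmem := mem_of_val hw
  have h1 : ∏ x ∈ (Finset.univ.erase ρ).erase κ, qq A B τ x =
      qq A B τ σ * ∏ x ∈ ((Finset.univ.erase ρ).erase κ).erase σ, qq A B τ x :=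
    (Finset.mul_prod_erase _ _ (by simp [Ne.symm h, Ne.symm h'])).symm
  rw [← map_sub, th_sub A B τ h'', h1, map_mul, map_mul, map_mul, map_mul, map_mul, map_mul, hw,
    val_eq_one (notMem_of_isCoprime (qq_isCoprime_B A B τ hAB σ) hmem),
    val_eq_one (C_notMem (sub_ne_zero.2 fun h3 => h'' (hτ _ _ h3))), one_mul, one_mul,
    val_eq_one, mul_one]
  refine prod_notMem _ _ fun x hx => ?_
  exact bad_qq A B τ hmem hAB hτ (Finset.mem_erase.1 hx).1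

end

end Pool.Agent.H83.TN
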