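import Pool.Agent.H83.TN.Cl
import Pool.Agent.H94.LT.Fin

/-!
Elements of `k(x)` all of whose valuations are divisible by `n`.
-/

set_option linter.unusedSectionVars false
set_option linter.style.haveILetI false

namespace Pool.Agent.H83.TN

open Polynomial WithZero IsDedekindDomain HeightOneSpectrum
open Pool.Agent.H94.LT (place)

section

variable {k : Type*} [Field k]

theorem poly_npow {n : ℕ} (hn : n ≠ 0) (d : ℕ) : ∀ x : k[X], x.natDegree = d → x ≠ 0 →
    (∀ v : HeightOneSpectrum k[X], Ev (v.valuation (RatFunc k)) n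
      (algebraMap k[X] (RatFunc k) x)) →
    ∃ (e : k) (g : k[X]), e ≠ 0 ∧ g ≠ 0 ∧ x = C e * g ^ n := by
  induction d using Nat.strong_induction_on with
  | _ d ih =>
    intro x hxd hx h
    by_cases hu : IsUnit x
    · obtain ⟨e, he, rfl⟩ := Polynomial.isUnit_iff.1 hu
      exact ⟨e, 1, he.ne_zero, one_ne_zero, by rw [one_pow, mul_one]⟩
    · obtain ⟨p, hp, hpx⟩ := WfDvdMonoid.exists_irreducible_factor hu hx
      set v := place p hp with hv
      have hmem : x ∈ v.asIdeal := by
        show x ∈ Ideal.span {p}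
        rw [Ideal.mem_span_singleton]; exact hpx
      have h1 := (h v).2
      rw [v.valuation_of_algebraMap] at h1
      have hlt := (v.intValuation_lt_one_iff_mem x).2 hmem
      have h0 : v.intValuation x ≠ 0 := v.intValuation_ne_zero x hx
      have hlog : log (v.intValuation x) < 0 := by
        rw [← exp_log h0, ← exp_zero, exp_lt_exp] at hlt
        exact hlt
      have hle : log (v.intValuation x) ≤ -(n : ℤ) := by
        obtain ⟨j, hj⟩ := h1
        have hj1 : j < 0 := by
          by_contra hj0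
          rw [not_lt] at hj0
          rw [hj] at hlog
          have : (0 : ℤ) ≤ n * j := mul_nonneg (by positivity) hj0
          omega
        rw [hj]
        have : (n : ℤ) * j ≤ n * (-1) := mul_le_mul_of_nonneg_left (by omega) (by positivity)
        linarith
      have h2 : v.intValuation x ≤ exp (-(n : ℤ)) := by
        rw [← exp_log h0, exp_le_exp]; exact hle
      rw [v.intValuation_le_pow_iff_mem] at h2
      have h3 : p ^ n ∣ x := by
        rw [← Ideal.mem_span_singleton, ← Ideal.span_singleton_pow]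
        exact h2
      obtain ⟨y, rfl⟩ := h3
      have hp0 : p ^ n ≠ 0 := pow_ne_zero n hp.ne_zero
      have hy : y ≠ 0 := right_ne_zero_of_mul hx
      have hdeg : y.natDegree < d := by
        rw [← hxd, natDegree_mul hp0 hy, natDegree_pow]
        have := Nat.mul_pos (Nat.pos_of_ne_zero hn) hp.natDegree_pos
        omega
      obtain ⟨e, g, he, hg, hyg⟩ := ih y.natDegree hdeg y rfl hy fun u => by
        have h4 := h u
        rw [map_mul, map_pow, mul_comm] at h4
        refine Ev.of_mul_npow ?_ h4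
        rw [Ne, FaithfulSMul.algebraMap_eq_zero_iff]
        exact hp.ne_zero
      exact ⟨e, p * g, he, mul_ne_zero hp.ne_zero hg, by rw [hyg, mul_pow]; ring⟩

theorem exists_const {n : ℕ} (hn : n ≠ 0) (x : RatFunc k) (hx0 : x ≠ 0)
    (h : ∀ w : HeightOneSpectrum k[X], Ev (w.valuation (RatFunc k)) n x) :
    ∃ (e : k) (g : RatFunc k), e ≠ 0 ∧ g ≠ 0 ∧ x = algebraMap k[X] (RatFunc k) (C e) * g ^ n := by
  obtain ⟨a, b, hb, rfl⟩ := IsFractionRing.div_surjective (A := k[X]) x
  have hb0 : b ≠ 0 := nonZeroDivisors.ne_zero hb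
  have ha0 : a ≠ 0 := by
    rintro rfl
    rw [map_zero, zero_div] at hx0
    exact hx0 rfl
  have hbL : algebraMap k[X] (RatFunc k) b ≠ 0 := by
    rw [Ne, FaithfulSMul.algebraMap_eq_zero_iff]; exact hb0
  obtain ⟨j, hj⟩ : ∃ j, n = j + 1 := ⟨n - 1, by omega⟩
  have hab0 : a * b ^ j ≠ 0 := mul_ne_zero ha0 (pow_ne_zero _ hb0)
  have hab : algebraMap k[X] (RatFunc k) (a * b ^ j) =
      algebraMap k[X] (RatFunc k) a / algebraMap k[X] (RatFunc k) b *
        algebraMap k[X] (RatFunc k) b ^ n := by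
    rw [map_mul, map_pow, hj, pow_succ]; field_simp
  obtain ⟨e, g, he, hg, heg⟩ := poly_npow hn _ (a * b ^ j) rfl hab0 fun w => by
    rw [hab]
    exact (h w).mul (Ev.npow hbL)
  have hgL : algebraMap k[X] (RatFunc k) g ≠ 0 := by
    rw [Ne, FaithfulSMul.algebraMap_eq_zero_iff]; exact hg
  refine ⟨e, algebraMap k[X] (RatFunc k) g / algebraMap k[X] (RatFunc k) b, he,
    div_ne_zero hgL hbL, ?_⟩
  rw [heg, map_mul, map_pow] at hab
  rw [div_pow, ← mul_div_assoc, hab, mul_div_assoc, div_self (pow_ne_zero n hbL), mul_one]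

theorem root_const {n : ℕ} (hn : n ≠ 0) {a : k} {s : RatFunc k}
    (h : algebraMap k[X] (RatFunc k) (C a) = s ^ n) : ∃ b : k, a = b ^ n := by
  have hint : IsIntegral k[X] (s ^ n) := by rw [← h]; exact isIntegral_algebraMap
  obtain ⟨p, rfl⟩ := IsIntegrallyClosed.exists_algebraMap_eq_of_isIntegral_pow
    (R := k[X]) (Nat.pos_of_ne_zero hn) hint
  rw [← map_pow] at h
  have h1 : C a = p ^ n := IsFractionRing.injective k[X] (RatFunc k) h
  have h2 := congrArg natDegree h1
  rw [natDegree_C, natDegree_pow] at h2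
  have h3 : p.natDegree = 0 := by
    rcases Nat.mul_eq_zero.1 h2.symm with h4 | h4
    · exact absurd h4 hn
    · exact h4
  obtain ⟨b, rfl⟩ := natDegree_eq_zero.1 h3
  rw [← C_pow] at h1
  exact ⟨b, C_injective h1⟩

end

section

variable {A K : Type*} [CommRing A] [IsDedekindDomain A] [Field K] [Algebra A K]
  [IsFractionRing A K] (v : HeightOneSpectrum A)

/-- from a power class in the completion to a congruence -/
theorem exists_of_Cl {n : ℕ} (hn : n ≠ 0) (ϖ : A) (hϖ : ϖ ≠ 0) (hv : v.asIdeal = Ideal.span {ϖ})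
    (g : A) (hg : g ∉ v.asIdeal)
    (h : Cl (Valued.v : Valuation (v.adicCompletion K) ℤᵐ⁰) n
      (algebraMap K (v.adicCompletion K) (algebraMap A K g))) :
    ∃ y : A, g * y ^ n - 1 ∈ v.asIdeal := by
  obtain ⟨s, hs, h1⟩ := h
  have hg1 := (H94.LT.val_A_eq_one_iff (K := K) v g).2 hg
  have hs1 : (Valued.v s : ℤᵐ⁰) = 1 := by
    have h2 := H94.LT.val_eq_one_of_sub h1
    rw [map_mul, hg1, one_mul, map_pow] at h2
    have hs0 : (Valued.v s : ℤᵐ⁰) ≠ 0 := (Valuation.ne_zero_iff _).2 hs
    rw [← exp_log hs0, ← exp_nsmul, ← exp_zero, exp_inj, nsmul_eq_mul] at h2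
    rw [← exp_log hs0, ← exp_zero, exp_inj]
    rcases mul_eq_zero.1 h2 with h3 | h3
    · exact absurd (by exact_mod_cast h3) hn
    · exact h3
  obtain ⟨y, hy⟩ := H94.TC.exists_approx (K := K) v ϖ hϖ hv 1 ⟨s, hs1.le⟩
  rw [H94.TC.pow_dvd_iff (K := K) v ϖ hϖ hv] at hy
  have hy1 : (Valued.v (s - algebraMap K (v.adicCompletion K) (algebraMap A K y)) : ℤᵐ⁰) < 1 := by
    rw [H94.LT.lt_one_iff_le]
    have h3 : (((⟨s, hs1.le⟩ : v.adicCompletionIntegers K) -
      algebraMap A (v.adicCompletionIntegers K) y : v.adicCompletionIntegers K) :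
      v.adicCompletion K) = s - algebraMap K (v.adicCompletion K) (algebraMap A K y) := by
      rw [algebraMap_adicCompletion]
      push_cast
      rw [algebraMap_adicCompletionIntegers_apply]
      rfl
    rw [h3] at hy
    exact_mod_cast hy
  refine ⟨y, ?_⟩
  rw [← H94.LT.val_A_lt_one_iff (K := K)]
  set G := algebraMap K (v.adicCompletion K) (algebraMap A K g) with hG
  set Y := algebraMap K (v.adicCompletion K) (algebraMap A K y) with hY
  have h4 : algebraMap K (v.adicCompletion K) (algebraMap A K (g * y ^ n - 1)) = G * Y ^ n - 1 := by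
    simp only [map_sub, map_mul, map_pow, map_one, hG, hY]
  rw [h4]
  have hYle : (Valued.v Y : ℤᵐ⁰) ≤ 1 := by
    rw [hY, H94.LT.val_A]; exact v.intValuation_le_one y
  have hdiff : ∀ m : ℕ, (Valued.v (s ^ m - Y ^ m) : ℤᵐ⁰) < 1 := by
    intro m
    induction m with
    | zero => rw [pow_zero, pow_zero, sub_self, map_zero]; exact zero_lt_one
    | succ m ih =>
      have h5 : s ^ (m + 1) - Y ^ (m + 1) = (s ^ m - Y ^ m) * s + Y ^ m * (s - Y) := by ring
      rw [h5]
      refine lt_of_le_of_lt (Valuation.map_add _ _ _) (max_lt ?_ ?_)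
      · rw [map_mul, hs1, mul_one]; exact ih
      · rw [map_mul, map_pow]
        exact lt_of_le_of_lt (mul_le_of_le_one_left' (pow_le_one' hYle m)) hy1
  have h5 : G * Y ^ n - 1 = (G * s ^ n - 1) - G * (s ^ n - Y ^ n) := by ring
  rw [h5]
  refine lt_of_le_of_lt (Valuation.map_sub _ _ _) (max_lt h1 ?_)
  rw [map_mul, hg1, one_mul]
  exact hdiff n

end

end Pool.Agent.H83.TN
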