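import Pool.Agent.H83.TN.Alt
import Pool.Agent.H83.TN.Unit
import Pool.Agent.H83.TN.Char

/-!
The structure of a Selmer element.
-/

set_option linter.unusedSectionVars false
set_option linter.style.haveILetI false

namespace Pool.Agent.H83.TN

open Polynomial WithZero IsDedekindDomain HeightOneSpectrum
open Pool.Agent.H94.LT (place)
open Pool.Agent.H83.T5 (sB sB_apply sB_C sB_X sB_base sB_mul sB_one sL sL_alg sL_aeval
  sL_ne_zero val_transport val_eq_one C_notMem prod_notMem polyAlg ratAlg isScalarTower_rat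
  ratAlg_algebraMap exists_below mem_below asIdeal_eq_span irreducible_map_of_coprime
  natDegree_dvd_of_factor val_gen)

section

variable {F k : Type*} [Field F] [Field k] [Algebra F k] [FiniteDimensional F k]

attribute [local instance] polyAlg ratAlg isScalarTower_rat

variable [Fintype (k ≃ₐ[F] k)] [DecidableEq (k ≃ₐ[F] k)]

/-- the norm of `t = ∏_{ρ ≠ 1} ρ π` is a power -/
theorem norm_tt {n g : ℕ} (hm : Fintype.card (k ≃ₐ[F] k) = n * g + 1) {π : k[X]} (hπ : π ≠ 0) :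
    ∏ σ : k ≃ₐ[F] k, sB σ (tt F π) = ((∏ σ : k ≃ₐ[F] k, sB σ π) ^ g) ^ n := by
  have hne : ∀ σ : k ≃ₐ[F] k, sB σ π ≠ 0 := by
    intro σ
    rw [Ne, map_eq_zero_iff _ (sB σ).injective]; exact hπ
  have hprod : (∏ σ : k ≃ₐ[F] k, sB σ π) ≠ 0 := Finset.prod_ne_zero_iff.2 fun σ _ => hne σ
  have h1 : ∀ σ : k ≃ₐ[F] k, sB σ π * sB σ (tt F π) = ∏ ρ : k ≃ₐ[F] k, sB ρ π := by
    intro σ
    rw [sB_tt]
    exact Finset.mul_prod_erase Finset.univ _ (Finset.mem_univ σ)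
  have h2 : (∏ σ : k ≃ₐ[F] k, sB σ π) * ∏ σ : k ≃ₐ[F] k, sB σ (tt F π) =
      (∏ σ : k ≃ₐ[F] k, sB σ π) * ((∏ σ : k ≃ₐ[F] k, sB σ π) ^ g) ^ n := by
    rw [← Finset.prod_mul_distrib, Finset.prod_congr rfl fun σ _ => h1 σ, Finset.prod_const,
      Finset.card_univ, hm, ← pow_mul, mul_comm g n, pow_succ, mul_comm]
  exact mul_left_cancel₀ hprod h2

theorem core [Finite F] [Finite k] {n a g e0 : ℕ} (hn : n.Prime) (hF : n ∣ Nat.card F - 1)
    (ha : a + 1 = n * e0) (hnk : (n : k) ≠ 0)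
    {P A B : F[X]} {τ : k} {ι : Type} [Fintype ι] [DecidableEq ι] {w : ι → F[X]} {π : ι → k[X]}
    (h : FacData P A B τ ι w π) (hm : Fintype.card (k ≃ₐ[F] k) = n * g + 1) (D : F[X])
    (hD : ∀ Q : F[X], Irreducible Q → Q ∣ D → Nat.Coprime Q.natDegree (Module.finrank F k))
    (Δ : (RatFunc F)[X])
    (hloc : ∀ v : HeightOneSpectrum F[X], LocN n a (fPoly P A B) (D * B) v Δ)
    (hne : dd A B τ Δ (1 : k ≃ₐ[F] k) ≠ 0) {y : RatFunc k}
    (hnorm : ∏ σ : k ≃ₐ[F] k, dd A B τ Δ σ = y ^ n) :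
    ∃ s : ι → ℕ, (∃ z : RatFunc k, z ≠ 0 ∧ dd A B τ Δ (1 : k ≃ₐ[F] k) *
        algebraMap k[X] (RatFunc k) (∏ i, tt F (π i) ^ s i) = z ^ n) ∧
      ∀ i, ∃ x : k[X], (∏ j, tt F (π j) ^ s j) ^ (n - 1) *
        (-((D * B).map (algebraMap F k) ^ a * th A B τ (1 : k ≃ₐ[F] k))) ^ s i * x ^ n - 1 ∈
          (place (π i) (h.hπ i)).asIdeal := by
  obtain ⟨s, hs, hs'⟩ := alt hn ha hnk h hm D hD Δ hloc hne hnorm
  set T := ∏ i, tt F (π i) ^ s i with hT
  have hTne : T ≠ 0 := Finset.prod_ne_zero_iff.2 fun i _ => pow_ne_zero _ (h.tt_ne i)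
  have hTL : algebraMap k[X] (RatFunc k) T ≠ 0 := by
    rw [Ne, FaithfulSMul.algebraMap_eq_zero_iff]; exact hTne
  obtain ⟨e, γ, he, hγ, hx⟩ := exists_const hn.ne_zero _ (mul_ne_zero hne hTL) hs
  -- the constant
  have hσ : ∀ σ : k ≃ₐ[F] k, dd A B τ Δ σ * algebraMap k[X] (RatFunc k) (sB σ T) =
      algebraMap k[X] (RatFunc k) (C (σ e)) * (sL σ γ) ^ n := by
    intro σ
    have h3 := congrArg (sL σ) hx
    rw [map_mul, sL_dd, mul_one, sL_alg, map_mul, map_pow, sL_alg, sB_C] at h3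
    exact h3
  have hTn : ∃ t : k[X], t ≠ 0 ∧ ∏ σ : k ≃ₐ[F] k, sB σ T = t ^ n := by
    refine ⟨∏ i, ((∏ σ : k ≃ₐ[F] k, sB σ (π i)) ^ g) ^ s i, ?_, ?_⟩
    · refine Finset.prod_ne_zero_iff.2 fun i _ => pow_ne_zero _ (pow_ne_zero _ ?_)
      exact Finset.prod_ne_zero_iff.2 fun σ _ => (sB_irreducible (h.hπ i)).ne_zero
    · have h4 : ∀ σ : k ≃ₐ[F] k, sB σ T = ∏ i, (sB σ (tt F (π i))) ^ s i := by
        intro σ
        rw [hT, map_prod]
        exact Finset.prod_congr rfl fun i _ => map_pow _ _ _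
      rw [Finset.prod_congr rfl fun σ _ => h4 σ, Finset.prod_comm, ← Finset.prod_pow]
      refine Finset.prod_congr rfl fun i _ => ?_
      rw [Finset.prod_pow, norm_tt hm (h.hπ i).ne_zero]
      ring
  obtain ⟨t, ht0, ht⟩ := hTn
  have hprodγ : ∏ σ : k ≃ₐ[F] k, sL σ γ ≠ 0 :=
    Finset.prod_ne_zero_iff.2 fun σ _ => sL_ne_zero σ hγ
  have h5 : algebraMap k[X] (RatFunc k) (C (∏ σ : k ≃ₐ[F] k, σ e)) =
      (y * algebraMap k[X] (RatFunc k) t / ∏ σ : k ≃ₐ[F] k, sL σ γ) ^ n := by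
    have h6 : ∏ σ : k ≃ₐ[F] k, (dd A B τ Δ σ * algebraMap k[X] (RatFunc k) (sB σ T)) =
        ∏ σ : k ≃ₐ[F] k, (algebraMap k[X] (RatFunc k) (C (σ e)) * (sL σ γ) ^ n) :=
      Finset.prod_congr rfl fun σ _ => hσ σ
    rw [Finset.prod_mul_distrib, Finset.prod_mul_distrib, hnorm, ← map_prod, ht, Finset.prod_pow,
      ← map_prod, ← map_prod] at h6
    rw [div_pow, eq_div_iff (pow_ne_zero n hprodγ), ← h6, mul_pow, map_pow]
  obtain ⟨b, hb⟩ := root_const hn.ne_zero h5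
  obtain ⟨c, hc0, hc⟩ := root_of_prod hn.ne_zero hF hm he hb
  set z := algebraMap k[X] (RatFunc k) (C c) * γ with hz
  have hz0 : z ≠ 0 := by
    refine mul_ne_zero ?_ hγ
    rw [Ne, FaithfulSMul.algebraMap_eq_zero_iff, C_eq_zero]; exact hc0
  have hzn : dd A B τ Δ (1 : k ≃ₐ[F] k) * algebraMap k[X] (RatFunc k) T = z ^ n := by
    rw [hx, hc, hz, mul_pow, C_pow, map_pow]
  refine ⟨s, ⟨z, hz0, hzn⟩, fun i => ?_⟩
  set w0 := place (π i) (h.hπ i) with hw0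
  set ψ := algebraMap (RatFunc k) (w0.adicCompletion (RatFunc k)) with hψ
  set δ := dd A B τ Δ (1 : k ≃ₐ[F] k) with hδ
  set u := -((D * B).map (algebraMap F k) ^ a * th A B τ (1 : k ≃ₐ[F] k)) with hu
  have huL : -(algebraMap F[X] (RatFunc k) (D * B) ^ a *
      algebraMap k[X] (RatFunc k) (th A B τ (1 : k ≃ₐ[F] k))) =
      algebraMap k[X] (RatFunc k) u := by
    rw [hu, map_neg, map_mul (algebraMap k[X] (RatFunc k)), map_pow,
      IsScalarTower.algebraMap_apply F[X] k[X] (RatFunc k)]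
    rfl
  have h7 := hs' i
  rw [huL] at h7
  have hunot : u ∉ w0.asIdeal := by
    rw [hu, neg_mem_iff]
    intro h0
    rcases w0.isPrime.mem_or_mem h0 with h1 | h1
    · exact h.DB_notMem hD _ (h.prod_mem i) (w0.isPrime.mem_of_pow_mem _ h1)
    · exact bad_th_self A B τ (mem_of_val (h.val_qq i)) h.hAB h.hτ h1
  have hTnot : T ∉ w0.asIdeal := by
    refine prod_notMem _ _ fun j _ h7 => ?_
    exact h.tt_notMem i j (w0.isPrime.mem_of_pow_mem _ h7)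
  have h8 : Cl (Valued.v : Valuation (w0.adicCompletion (RatFunc k)) ℤᵐ⁰) n
      (ψ (algebraMap k[X] (RatFunc k) (T ^ (n - 1) * u ^ s i))) := by
    have h9 : Cl (Valued.v : Valuation (w0.adicCompletion (RatFunc k)) ℤᵐ⁰) n (ψ (z ^ n)) := by
      rw [map_pow]
      exact Cl.npow (by rw [Ne, map_eq_zero]; exact hz0)
    have h10 : ψ (algebraMap k[X] (RatFunc k) (T ^ (n - 1) * u ^ s i)) * ψ (z ^ n) =
        ψ (δ * algebraMap k[X] (RatFunc k) u ^ s i) *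
          ψ (algebraMap k[X] (RatFunc k) T) ^ n := by
      rw [← hzn, ← map_pow ψ, ← map_mul ψ, ← map_mul ψ]
      congr 1
      rw [map_mul (algebraMap k[X] (RatFunc k)), map_pow, map_pow]
      obtain ⟨j, hj⟩ : ∃ j, n = j + 1 := ⟨n - 1, by have := hn.pos; omega⟩
      rw [hj, Nat.add_sub_cancel]
      ring
    have h11 : Cl (Valued.v : Valuation (w0.adicCompletion (RatFunc k)) ℤᵐ⁰) n
        (ψ (z ^ n) * ψ (algebraMap k[X] (RatFunc k) (T ^ (n - 1) * u ^ s i))) := by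
      rw [mul_comm, h10]
      exact h7.mul (Cl.npow (by rw [Ne, map_eq_zero]; exact hTL))
    exact h9.of_mul h11
  obtain ⟨x, hx⟩ := exists_of_Cl (K := RatFunc k) w0 hn.ne_zero (π i) (h.hπ i).ne_zero rfl
    (T ^ (n - 1) * u ^ s i) (by
      intro h0
      rcases w0.isPrime.mem_or_mem h0 with h1 | h1
      · exact hTnot (w0.isPrime.mem_of_pow_mem _ h1)
      · exact hunot (w0.isPrime.mem_of_pow_mem _ h1)) h8
  exact ⟨x, hx⟩

end

end Pool.Agent.H83.TN
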