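import Mathlib

/-!
The number of diagonal matrices `d` with `det (M + d) ≠ 0`; fibres of homomorphisms.
-/

set_option linter.style.haveILetI false

namespace Pool.Agent.H83.TN

open Matrix

section

variable {K : Type*} [Field K]

theorem det_cons {r : ℕ} (M : Matrix (Fin (r + 1)) (Fin (r + 1)) K) (x : K) (d : Fin r → K) :
    (M + diagonal (Fin.cons x d : Fin (r + 1) → K)).det =
      x * (M.submatrix Fin.succ Fin.succ + diagonal d).det +
        (M + diagonal (Fin.cons 0 d : Fin (r + 1) → K)).det := by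
  rw [det_succ_row_zero, det_succ_row_zero (A := M + diagonal (Fin.cons 0 d : Fin (r + 1) → K)),
    Fin.sum_univ_succ, Fin.sum_univ_succ]
  have h1 : ∀ (y : K) (j : Fin (r + 1)),
      (M + diagonal (Fin.cons y d : Fin (r + 1) → K)).submatrix Fin.succ j.succAbove =
      (M + diagonal (Fin.cons 0 d : Fin (r + 1) → K)).submatrix Fin.succ j.succAbove := by
    intro y j
    ext i l
    simp only [submatrix_apply, Matrix.add_apply, diagonal_apply, Fin.cons_succ]
  have h2 : ∀ (y : K), (M + diagonal (Fin.cons y d : Fin (r + 1) → K)).submatrix Fin.succ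
      (Fin.succAbove 0) = M.submatrix Fin.succ Fin.succ + diagonal d := by
    intro y
    ext i l
    simp only [submatrix_apply, Matrix.add_apply, diagonal_apply, Fin.cons_succ, Fin.succAbove_zero,
      Fin.succ_inj]
  rw [h2 x, h2 0]
  have h3 : ∑ i : Fin r, (-1) ^ ((i.succ : Fin (r + 1)) : ℕ) *
      (M + diagonal (Fin.cons x d : Fin (r + 1) → K)) 0 i.succ *
      ((M + diagonal (Fin.cons x d : Fin (r + 1) → K)).submatrix Fin.succ
        i.succ.succAbove).det =
      ∑ i : Fin r, (-1) ^ ((i.succ : Fin (r + 1)) : ℕ) *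
      (M + diagonal (Fin.cons 0 d : Fin (r + 1) → K)) 0 i.succ *
      ((M + diagonal (Fin.cons 0 d : Fin (r + 1) → K)).submatrix Fin.succ
        i.succ.succAbove).det := by
    refine Finset.sum_congr rfl fun i _ => ?_
    rw [h1 x]
    congr 2
  rw [h3]
  simp only [Matrix.add_apply, diagonal_apply, if_true, Fin.cons_zero, Fin.val_zero, pow_zero,
    one_mul]
  ring

theorem card_det [Finite K] (r : ℕ) : ∀ M : Matrix (Fin r) (Fin r) K,
    (Nat.card K - 1) ^ r ≤ Nat.card {d : Fin r → K // (M + diagonal d).det ≠ 0} := by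
  induction r with
  | zero =>
    intro M
    rw [pow_zero]
    have : Nonempty {d : Fin 0 → K // (M + diagonal d).det ≠ 0} :=
      ⟨⟨fun i => 0, by rw [det_fin_zero]; exact one_ne_zero⟩⟩
    exact Finite.card_pos
  | succ r ih =>
    intro M
    set M' := M.submatrix Fin.succ Fin.succ with hM'
    have h1 := ih M'
    have h2 : Nat.card {x : K // x ≠ 0} = Nat.card K - 1 := by
      classical
      have : Fintype K := Fintype.ofFinite K
      rw [Nat.card_eq_fintype_card, Nat.card_eq_fintype_card, Fintype.card_subtype_compl,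
        Fintype.card_subtype_eq]
    let φ : {d : Fin r → K // (M' + diagonal d).det ≠ 0} × {x : K // x ≠ 0} →
        {d : Fin (r + 1) → K // (M + diagonal d).det ≠ 0} := fun p =>
      ⟨Fin.cons ((p.2.1 - (M + diagonal (Fin.cons 0 p.1.1 : Fin (r + 1) → K)).det) /
        (M' + diagonal p.1.1).det) p.1.1, by
        rw [det_cons, div_mul_cancel₀ _ p.1.2, sub_add_cancel]
        exact p.2.2⟩
    have hφ : Function.Injective φ := by
      rintro ⟨⟨d, hd⟩, ⟨x, hx⟩⟩ ⟨⟨d', hd'⟩, ⟨x', hx'⟩⟩ h
      have h3 := congrArg Subtype.val h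
      simp only [φ] at h3
      rw [Fin.cons_inj] at h3
      obtain ⟨h4, h5⟩ := h3
      subst h5
      rw [div_left_inj' hd, sub_left_inj] at h4
      subst h4
      rfl
    have h3 := Nat.card_le_card_of_injective φ hφ
    rw [Nat.card_prod, h2] at h3
    rw [pow_succ]
    exact (Nat.mul_le_mul_right _ h1).trans h3

/-- preimages under a surjective homomorphism -/
theorem card_preimage {G H : Type*} [Group G] [Finite G] [Group H] (f : G →* H)
    (hf : Function.Surjective f) (S : Set H) :
    Nat.card H * Nat.card {x : G // f x ∈ S} = Nat.card S * Nat.card G := by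
  classical
  haveI : Finite H := Finite.of_surjective f hf
  haveI : Fintype G := Fintype.ofFinite G
  haveI : Fintype H := Fintype.ofFinite H
  have h1 : ∀ y : H, Nat.card {x : G // f x = y} = Nat.card f.ker := by
    intro y
    obtain ⟨x0, hx0⟩ := hf y
    refine Nat.card_congr ⟨fun x => ⟨x0⁻¹ * x.1, ?_⟩, fun z => ⟨x0 * z.1, ?_⟩, fun x => ?_,
      fun z => ?_⟩
    · rw [MonoidHom.mem_ker, map_mul, map_inv, x.2, hx0, inv_mul_cancel]
    · rw [map_mul, MonoidHom.mem_ker.1 z.2, mul_one, hx0]
    · apply Subtype.ext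
      simp
    · apply Subtype.ext
      simp
  have h2 : Nat.card G = Nat.card H * Nat.card f.ker := by
    rw [Nat.card_congr (Equiv.sigmaFiberEquiv f).symm, Nat.card_sigma,
      Finset.sum_congr rfl fun y _ => h1 y, Finset.sum_const, Finset.card_univ, smul_eq_mul,
      Nat.card_eq_fintype_card (α := H)]
  have h3 : Nat.card {x : G // f x ∈ S} = Nat.card S * Nat.card f.ker := by
    have e : {x : G // f x ∈ S} ≃ Σ y : S, {x : G // f x = y} :=
      ⟨fun x => ⟨⟨f x.1, x.2⟩, ⟨x.1, rfl⟩⟩, fun p => ⟨p.2.1, by rw [p.2.2]; exact p.1.2⟩,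
        fun x => rfl, fun p => by
          obtain ⟨⟨y, hy⟩, ⟨x, hx⟩⟩ := p
          have hx' : f x = y := hx
          subst hx'
          rfl⟩
    rw [Nat.card_congr e, Nat.card_sigma, Finset.sum_congr rfl fun y _ => h1 y.1,
      Finset.sum_const, Finset.card_univ, smul_eq_mul, Nat.card_eq_fintype_card (α := S)]
  rw [h2, h3]
  ring

end

end Pool.Agent.H83.TN
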