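import Pool.Agent.H83.TN.Par

/-!
Factorisation of `q_1 = A - τ B` over `k`.
-/

set_option linter.unusedSectionVars false
set_option linter.style.haveILetI false

namespace Pool.Agent.H83.TN

open Polynomial WithZero IsDedekindDomain HeightOneSpectrum
open Pool.Agent.H83.T5 (sB sB_apply sB_C sB_X sB_base sB_mul sB_one sL sL_alg sL_aeval
  sL_ne_zero val_transport val_eq_one C_notMem prod_notMem polyAlg ratAlg isScalarTower_rat
  ratAlg_algebraMap exists_below mem_below asIdeal_eq_span irreducible_map_of_coprime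
  natDegree_dvd_of_factor)

section

variable {F k : Type*} [Field F] [Field k] [Algebra F k] [FiniteDimensional F k]

attribute [local instance] polyAlg ratAlg isScalarTower_rat

variable [Fintype (k ≃ₐ[F] k)] [DecidableEq (k ≃ₐ[F] k)]

theorem sB_natDegree (σ : k ≃ₐ[F] k) (p : k[X]) : (sB σ p).natDegree = p.natDegree := by
  rw [sB_apply]
  exact natDegree_map_eq_of_injective (σ : k →+* k).injective p

theorem sB_irreducible {σ : k ≃ₐ[F] k} {p : k[X]} (hp : Irreducible p) :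
    Irreducible (sB σ p) := (MulEquiv.irreducible_iff (sB σ : k[X] ≃+* k[X])).2 hp

theorem sB_inv (σ : k ≃ₐ[F] k) (p : k[X]) : sB σ⁻¹ (sB σ p) = p := by
  rw [← sB_mul, inv_mul_cancel, sB_one]

/-- factor of `w_i` dividing `q_1` -/
theorem exists_factor {P A B : F[X]} {τ : k}
    (hP : P.map (algebraMap F k) = ∏ σ : k ≃ₐ[F] k, (X - C (σ τ))) {w : F[X]}
    (hw : Irreducible w) (hdvd : w ∣ wPoly P A B) :
    ∃ π : k[X], Irreducible π ∧ π ∣ w.map (algebraMap F k) ∧ π ∣ qq A B τ 1 := by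
  have hw0 : w.map (algebraMap F k) ≠ 0 := by
    rw [Ne, Polynomial.map_eq_zero]; exact hw.ne_zero
  have hnu : ¬ IsUnit (w.map (algebraMap F k)) := by
    intro hu
    have h1 := natDegree_eq_zero_of_isUnit hu
    rw [natDegree_map] at h1
    exact absurd hw.natDegree_pos (by omega)
  obtain ⟨p, hp, hpw⟩ := WfDvdMonoid.exists_irreducible_factor hnu hw0
  have h1 : p ∣ ∏ σ, qq A B τ σ := by
    rw [← prod_qq A B τ P hP]
    exact hpw.trans (Polynomial.map_dvd _ hdvd)
  obtain ⟨σ, -, hσ⟩ := hp.prime.exists_mem_finset_dvd h1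
  refine ⟨sB σ⁻¹ p, sB_irreducible hp, ?_, ?_⟩
  · have h2 := map_dvd (sB σ⁻¹) hpw
    rwa [sB_base] at h2
  · have h2 := map_dvd (sB σ⁻¹) hσ
    rwa [sB_qq, inv_mul_cancel] at h2

theorem factor_coprime {A B : F[X]} {τ : k} (hAB : IsCoprime A B)
    (hτ : ∀ σ ρ : k ≃ₐ[F] k, σ τ = ρ τ → σ = ρ) {π π' : k[X]} (hπ : π ∣ qq A B τ 1)
    (hπ' : π' ∣ qq A B τ 1) {σ ρ : k ≃ₐ[F] k} (h : σ ≠ ρ) : IsCoprime (sB σ π) (sB ρ π') := by
  have h1 := map_dvd (sB σ) hπ
  have h2 := map_dvd (sB ρ) hπ'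
  rw [sB_qq, mul_one] at h1 h2
  exact (qq_isCoprime A B τ hAB hτ h).of_isCoprime_of_dvd_left h1 |>.of_isCoprime_of_dvd_right h2

theorem factor_degree {A B : F[X]} {τ : k} (hAB : IsCoprime A B)
    (hτ : ∀ σ ρ : k ≃ₐ[F] k, σ τ = ρ τ → σ = ρ)
    (hcard : Fintype.card (k ≃ₐ[F] k) = Module.finrank F k) {w : F[X]}
    (hw : Irreducible w) {π : k[X]} (hπ : Irreducible π) (hπw : π ∣ w.map (algebraMap F k))
    (hπq : π ∣ qq A B τ 1) : w.natDegree = Module.finrank F k * π.natDegree := by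
  have h1 := natDegree_dvd_of_factor hw hπ hπw
  have hpos : 0 < Module.finrank F k * π.natDegree :=
    Nat.mul_pos Module.finrank_pos hπ.natDegree_pos
  refine le_antisymm (Nat.le_of_dvd hpos h1) ?_
  have h2 : (∏ σ : k ≃ₐ[F] k, sB σ π) ∣ w.map (algebraMap F k) := by
    refine Finset.prod_dvd_of_coprime (fun σ _ ρ _ hσρ => ?_) fun σ _ => ?_
    · exact factor_coprime hAB hτ hπq hπq hσρ
    · have h3 := map_dvd (sB σ) hπw
      rwa [sB_base] at h3
  have hw0 : w.map (algebraMap F k) ≠ 0 := by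
    rw [Ne, Polynomial.map_eq_zero]; exact hw.ne_zero
  have h3 := natDegree_le_of_dvd h2 hw0
  rw [natDegree_map, natDegree_prod _ _ fun σ _ => (sB_irreducible hπ).ne_zero,
    Finset.sum_congr rfl fun σ _ => sB_natDegree σ π, Finset.sum_const, Finset.card_univ,
    smul_eq_mul, hcard] at h3
  exact h3

/-- the factorisation of `q_1` -/
theorem qq_factor {P A B : F[X]} {τ : k}
    (hP : P.map (algebraMap F k) = ∏ σ : k ≃ₐ[F] k, (X - C (σ τ))) (hAB : IsCoprime A B)
    (hτ : ∀ σ ρ : k ≃ₐ[F] k, σ τ = ρ τ → σ = ρ)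
    (hcard : Fintype.card (k ≃ₐ[F] k) = Module.finrank F k) {ι : Type*} [Fintype ι]
    {w : ι → F[X]} (hw : ∀ i, Irreducible (w i)) (hW : wPoly P A B = ∏ i, w i)
    (hcop : ∀ i j, i ≠ j → IsCoprime (w i) (w j)) {π : ι → k[X]} (hπ : ∀ i, Irreducible (π i))
    (hπw : ∀ i, π i ∣ (w i).map (algebraMap F k)) (hπq : ∀ i, π i ∣ qq A B τ 1) :
    ∃ c : k, c ≠ 0 ∧ qq A B τ 1 = C c * ∏ i, π i := by
  have hcopπ : ∀ i j, i ≠ j → IsCoprime (π i) (π j) := by
    intro i j hij
    have h1 : IsCoprime ((w i).map (algebraMap F k)) ((w j).map (algebraMap F k)) :=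
      (hcop i j hij).map (mapRingHom (algebraMap F k))
    exact (h1.of_isCoprime_of_dvd_left (hπw i)).of_isCoprime_of_dvd_right (hπw j)
  have hW0 : (wPoly P A B) ≠ 0 := by
    rw [hW]; exact Finset.prod_ne_zero_iff.2 fun i _ => (hw i).ne_zero
  have hWmap := prod_qq A B τ P hP
  have hq0 : ∀ σ, qq A B τ σ ≠ 0 := by
    intro σ h0
    have h1 : (wPoly P A B).map (algebraMap F k) = 0 := by
      rw [hWmap, ← qq_mul_th A B τ σ, h0, zero_mul]
    rw [Polynomial.map_eq_zero] at h1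
    exact hW0 h1
  have h1 : (∏ i, π i) ∣ qq A B τ 1 :=
    Finset.prod_dvd_of_coprime (fun i _ j _ hij => hcopπ i j hij) fun i _ => hπq i
  have h2 : (qq A B τ 1).natDegree = (∏ i, π i).natDegree := by
    have hm : 0 < Module.finrank F k := Module.finrank_pos
    have h3 : (wPoly P A B).natDegree = Module.finrank F k * (qq A B τ 1).natDegree := by
      have h4 := congrArg natDegree hWmap
      rw [natDegree_map, natDegree_prod _ _ fun σ _ => hq0 σ] at h4
      have h5 : ∀ σ : k ≃ₐ[F] k, (qq A B τ σ).natDegree = (qq A B τ 1).natDegree := by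
        intro σ
        have h6 := sB_natDegree σ (qq A B τ 1)
        rwa [sB_qq, mul_one] at h6
      rw [h4, Finset.sum_congr rfl fun σ _ => h5 σ, Finset.sum_const, Finset.card_univ,
        smul_eq_mul, hcard]
    have h4 : (wPoly P A B).natDegree = Module.finrank F k * (∏ i, π i).natDegree := by
      rw [hW, natDegree_prod _ _ fun i _ => (hw i).ne_zero,
        natDegree_prod _ _ fun i _ => (hπ i).ne_zero, Finset.mul_sum]
      exact Finset.sum_congr rfl fun i _ =>
        factor_degree hAB hτ hcard (hw i) (hπ i) (hπw i) (hπq i)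
    rw [h3] at h4
    exact Nat.eq_of_mul_eq_mul_left hm h4
  obtain ⟨e, he⟩ := h1
  have he0 : e ≠ 0 := by
    rintro rfl
    rw [mul_zero] at he
    exact hq0 1 he
  have hπ0 : ∏ i, π i ≠ 0 := Finset.prod_ne_zero_iff.2 fun i _ => (hπ i).ne_zero
  have h3 : e.natDegree = 0 := by
    have h4 := congrArg natDegree he
    rw [natDegree_mul hπ0 he0, h2] at h4
    omega
  obtain ⟨c, rfl⟩ := natDegree_eq_zero.1 h3
  exact ⟨c, by rwa [Ne, C_eq_zero] at he0, by rw [he, mul_comm]⟩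

end

end Pool.Agent.H83.TN
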