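import Pool.Agent.H83.TN.Setup

/-!
The case of an irreducible polynomial `W`; `θ` is not a power.
-/

set_option linter.unusedSectionVars false
set_option linter.style.haveILetI false

namespace Pool.Agent.H83.TN

open Polynomial WithZero IsDedekindDomain HeightOneSpectrum
open Pool.Agent.H94.LT (place)
open Pool.Agent.H83.T5 (sB sB_apply sB_C sB_X sB_base sB_mul sB_one sL sL_alg sL_aeval
  sL_ne_zero val_transport val_eq_one C_notMem prod_notMem polyAlg ratAlg isScalarTower_rat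
  ratAlg_algebraMap exists_below mem_below asIdeal_eq_span irreducible_map_of_coprime
  natDegree_dvd_of_factor val_gen exists_data irreducible_of_degree)

/-- if `x ^ s` is an `n`-th power and `n` is prime and does not divide `s` then `x` is one -/
theorem root_of_pow_prime {E : Type*} [Field E] {n s : ℕ} (hn : n.Prime) (hs : ¬ n ∣ s) {x y : E}
    (hx : x ≠ 0) (h : x ^ s = y ^ n) : ∃ z, x = z ^ n := by
  have hcop : Nat.Coprime s n := (Nat.Prime.coprime_iff_not_dvd hn).2 hs |>.symm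
  obtain ⟨j, hj⟩ := Nat.exists_mul_mod_eq_one_of_coprime hcop hn.one_lt
  have h1 : s * j = n * (s * j / n) + 1 := by
    rw [← hj.2]; exact (Nat.div_add_mod _ _).symm
  have h2 : x ^ (s * j) = (y ^ j) ^ n := by rw [pow_mul, h, ← pow_mul, ← pow_mul, mul_comm n j]
  rw [h1, pow_succ, pow_mul'] at h2
  have h3 : (x ^ (s * j / n)) ^ n ≠ 0 := pow_ne_zero _ (pow_ne_zero _ hx)
  refine ⟨y ^ j / x ^ (s * j / n), ?_⟩
  rw [div_pow, eq_div_iff h3, mul_comm]
  exact h2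

section

variable {F k : Type*} [Field F] [Field k] [Algebra F k] [FiniteDimensional F k]

attribute [local instance] polyAlg ratAlg isScalarTower_rat

variable [Fintype (k ≃ₐ[F] k)] [DecidableEq (k ≃ₐ[F] k)]

theorem qq_natDegree {P A B : F[X]} {τ : k}
    (hP : P.map (algebraMap F k) = ∏ σ : k ≃ₐ[F] k, (X - C (σ τ)))
    (hcard : Fintype.card (k ≃ₐ[F] k) = Module.finrank F k) (hW : wPoly P A B ≠ 0) :
    (wPoly P A B).natDegree = Module.finrank F k * (qq A B τ (1 : k ≃ₐ[F] k)).natDegree := by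
  have hWmap := prod_qq A B τ P hP
  have hq0 : ∀ σ : k ≃ₐ[F] k, qq A B τ σ ≠ 0 := by
    intro σ h0
    have h1 : (wPoly P A B).map (algebraMap F k) = 0 := by
      rw [hWmap, ← qq_mul_th A B τ σ, h0, zero_mul]
    rw [Polynomial.map_eq_zero] at h1
    exact hW h1
  have h4 := congrArg natDegree hWmap
  rw [natDegree_map, natDegree_prod _ _ fun σ _ => hq0 σ] at h4
  have h5 : ∀ σ : k ≃ₐ[F] k, (qq A B τ σ).natDegree = (qq A B τ 1).natDegree := by
    intro σ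
    have h6 := sB_natDegree σ (qq A B τ 1)
    rwa [sB_qq, mul_one] at h6
  rw [h4, Finset.sum_congr rfl fun σ _ => h5 σ, Finset.sum_const, Finset.card_univ,
    smul_eq_mul, hcard]

theorem qq_irreducible {P A B : F[X]} {τ : k}
    (hP : P.map (algebraMap F k) = ∏ σ : k ≃ₐ[F] k, (X - C (σ τ)))
    (hcard : Fintype.card (k ≃ₐ[F] k) = Module.finrank F k) (hW : Irreducible (wPoly P A B)) :
    Irreducible (qq A B τ (1 : k ≃ₐ[F] k)) := by
  refine irreducible_of_degree hW ?_ (qq_natDegree hP hcard hW.ne_zero)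
  rw [prod_qq A B τ P hP, ← qq_mul_th A B τ 1]
  exact Dvd.intro _ rfl

theorem tt_qq (A B : F[X]) (τ : k) : tt F (qq A B τ (1 : k ≃ₐ[F] k)) =
    th A B τ (1 : k ≃ₐ[F] k) := by
  rw [tt, th]
  refine Finset.prod_congr rfl fun ρ _ => ?_
  rw [sB_qq, mul_one]

/-- an element of `F[x]` which is an `n`-th power modulo `q_1` is one modulo `W` -/
theorem root_mod {W : F[X]} (hW : Irreducible W) {π : k[X]} (hπ : Irreducible π)
    (hπW : π ∣ W.map (algebraMap F k)) (hdeg : W.natDegree = Module.finrank F k * π.natDegree)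
    {n : ℕ} (z : F[X]) {y : AdjoinRoot π}
    (h : AdjoinRoot.mk π (z.map (algebraMap F k)) = y ^ n) :
    ∃ x : AdjoinRoot W, AdjoinRoot.mk W z = x ^ n := by
  haveI : Fact (Irreducible W) := ⟨hW⟩
  haveI : Fact (Irreducible π) := ⟨hπ⟩
  obtain ⟨q, rfl⟩ := AdjoinRoot.mk_surjective y
  obtain ⟨x, hx⟩ := exists_resid hW hπ hπW hdeg q
  have h1 : AdjoinRoot.mk π q = AdjoinRoot.mk π (x.map (algebraMap F k)) :=
    AdjoinRoot.mk_eq_mk.2 hx
  refine ⟨AdjoinRoot.mk W x, ?_⟩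
  apply (red hπW).injective
  rw [map_pow, red_mk, red_mk, h, h1]

theorem irr [Finite F] [Finite k] {n a g e0 : ℕ} (hn : n.Prime) (hF : n ∣ Nat.card F - 1)
    (ha : a + 1 = n * e0) (hnk : (n : k) ≠ 0)
    {P A B : F[X]} {τ : k} (hgen : ∀ c : k, ∃ p : F[X], aeval τ p = c)
    (hP : P.map (algebraMap F k) = ∏ σ : k ≃ₐ[F] k, (X - C (σ τ)))
    (hτ : ∀ σ ρ : k ≃ₐ[F] k, σ τ = ρ τ → σ = ρ)
    (hcard : Fintype.card (k ≃ₐ[F] k) = Module.finrank F k) (hm1 : 1 < Module.finrank F k)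
    (hAB : IsCoprime A B) (hB : B ≠ 0) (hW : Irreducible (wPoly P A B))
    (hm : Fintype.card (k ≃ₐ[F] k) = n * g + 1) (D : F[X])
    (hD : Inert (Module.finrank F k) D) (Δ : (RatFunc F)[X]) (hS : Sel n a P A B D Δ) :
    ∃ (s : ℕ) (γ : AdjoinRoot ((fPoly P A B).map (algebraMap F[X] (RatFunc F)))),
      AdjoinRoot.mk ((fPoly P A B).map (algebraMap F[X] (RatFunc F))) (Δ * X ^ s) = γ ^ n ∧
      (n ∣ s ∨ ∃ y, AdjoinRoot.mk (wPoly P A B) (-(D * B)) = y ^ n) := by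
  have hq := qq_irreducible hP hcard hW
  set q := qq A B τ (1 : k ≃ₐ[F] k) with hqdef
  have hqW : q ∣ (wPoly P A B).map (algebraMap F k) := by
    rw [prod_qq A B τ P hP, ← qq_mul_th A B τ 1]
    exact Dvd.intro _ rfl
  have h : FacData P A B τ Unit (fun _ => wPoly P A B) (fun _ => q) :=
    ⟨hP, hτ, hcard, hm1, hAB, hB, fun _ => hW, by simp, fun i j hij => absurd rfl hij,
      fun _ => hq, fun _ => hqW, fun _ => dvd_rfl⟩
  obtain ⟨s, ⟨z, hz0, hz⟩, hR⟩ := struct hn hF ha hnk h hm D hD Δ hS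
  have htt : tt F q = th A B τ (1 : k ≃ₐ[F] k) := tt_qq A B τ
  rw [Fintype.prod_unique, htt] at hz
  have h1 : dd A B τ (Δ * X ^ s ()) (1 : k ≃ₐ[F] k) =
      dd A B τ 1 (1 : k ≃ₐ[F] k) * z ^ n := by
    rw [← hz, dd, dd, dd, map_one, one_mul, map_mul, map_pow, aeval_X, map_pow]
  obtain ⟨γ, hγ⟩ := transfer h.hB h.hP h.hτ h.qne hgen h1
  refine ⟨s (), γ, by rw [hγ, map_one, one_mul], ?_⟩
  by_cases hns : n ∣ s ()
  · exact Or.inl hns
  right
  obtain ⟨x, hx⟩ := hR ()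
  rw [Fintype.prod_unique, htt] at hx
  haveI : Fact (Irreducible q) := ⟨hq⟩
  have hx' : AdjoinRoot.mk q ((th A B τ (1 : k ≃ₐ[F] k) ^ s ()) ^ (n - 1) *
      (-((D * B).map (algebraMap F k) ^ a * th A B τ (1 : k ≃ₐ[F] k))) ^ s () * x ^ n) = 1 := by
    have h2 : (th A B τ (1 : k ≃ₐ[F] k) ^ s ()) ^ (n - 1) *
      (-((D * B).map (algebraMap F k) ^ a * th A B τ (1 : k ≃ₐ[F] k))) ^ s () * x ^ n - 1 ∈
        Ideal.span {q} := hx
    rw [Ideal.mem_span_singleton, ← AdjoinRoot.mk_eq_zero, map_sub, map_one, sub_eq_zero] at h2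
    exact h2
  set θ' := AdjoinRoot.mk q (th A B τ (1 : k ≃ₐ[F] k)) with hθ'
  set d := AdjoinRoot.mk q ((D * B).map (algebraMap F k)) with hd
  set x' := AdjoinRoot.mk q x with hx'def
  have hd0 : d ≠ 0 := by
    intro h0
    have h3 := h.DB_notMem hD _ (h.prod_mem ())
    apply h3
    show (D * B).map (algebraMap F k) ∈ Ideal.span {q}
    rw [Ideal.mem_span_singleton, ← AdjoinRoot.mk_eq_zero]
    exact h0
  have h2 : (-d ^ a) ^ s () * ((θ' ^ s ()) * x') ^ n = 1 := by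
    rw [← hx']
    simp only [map_mul, map_pow, map_neg]
    rw [← hθ', ← hd, ← hx'def]
    obtain ⟨j, hj⟩ : ∃ j, n = j + 1 := ⟨n - 1, by have := hn.pos; omega⟩
    have h3 : (-(d ^ a * θ')) ^ s () = (-d ^ a) ^ s () * θ' ^ s () := by
      rw [← mul_pow]; ring
    rw [h3, hj, Nat.add_sub_cancel, mul_pow (θ' ^ s ()) x' (j + 1), pow_succ (θ' ^ s ()) j]
    ring
  have hy0 : (θ' ^ s ()) * x' ≠ 0 := by
    intro h0
    rw [h0, zero_pow hn.ne_zero, mul_zero] at h2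
    exact zero_ne_one h2
  have h3 : (-d ^ a) ^ s () = (((θ' ^ s ()) * x')⁻¹) ^ n := by
    rw [inv_pow]
    exact eq_inv_of_mul_eq_one_left h2
  have hda : -d ^ a ≠ 0 := neg_ne_zero.2 (pow_ne_zero a hd0)
  obtain ⟨u, hu⟩ := root_of_pow_prime hn hns hda h3
  have hu0 : u ≠ 0 := by
    rintro rfl
    rw [zero_pow hn.ne_zero] at hu
    exact hda hu
  refine root_mod hW hq hqW (h.degree ()) (-(D * B)) (y := d ^ e0 / u) ?_
  rw [Polynomial.map_neg, map_neg, ← hd, div_pow, ← hu, ← pow_mul, mul_comm e0 n, ← ha, pow_succ,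
    eq_div_iff hda]
  ring

/-- `θ ^ s` is an `n`-th power only if `n` divides `s` -/
theorem th_pow {P A B : F[X]} {τ : k} {ι : Type} [Fintype ι] [DecidableEq ι] {w : ι → F[X]}
    {π : ι → k[X]} (h : FacData P A B τ ι w π) (i : ι) {n s : ℕ} (hn : n ≠ 0) {z : RatFunc k}
    (hz : algebraMap k[X] (RatFunc k) (th A B τ (1 : k ≃ₐ[F] k)) ^ s = z ^ n) : n ∣ s := by
  have h1 : 1 < Fintype.card (k ≃ₐ[F] k) := by rw [h.hcard]; exact h.hm1
  haveI : Nontrivial (k ≃ₐ[F] k) := Fintype.one_lt_card_iff_nontrivial.1 h1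
  obtain ⟨σ, hσ⟩ := exists_ne (1 : k ≃ₐ[F] k)
  set v := place (sB σ (π i)) (sB_irreducible (h.hπ i)) with hv
  have hmem : sB σ (π i) ∈ v.asIdeal := Ideal.mem_span_singleton_self _
  have h2 : v.valuation (RatFunc k) (algebraMap k[X] (RatFunc k) (th A B τ (1 : k ≃ₐ[F] k))) =
      exp (-1 : ℤ) := by
    rw [h.transport hmem, sL_alg, sB_th, mul_one]
    exact bad_th A B τ (h.val_qq i) h.hAB h.hτ (inv_ne_one.2 hσ)
  have hth0 : algebraMap k[X] (RatFunc k) (th A B τ (1 : k ≃ₐ[F] k)) ≠ 0 := by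
    intro h0
    rw [h0, map_zero] at h2
    exact exp_ne_zero h2.symm
  have hz0 : z ≠ 0 := by
    rintro rfl
    rw [zero_pow hn] at hz
    exact pow_ne_zero _ hth0 hz
  have h3 := (Ev.npow (v := v.valuation (RatFunc k)) (n := n) hz0).2
  rw [← hz, map_pow, h2, log_pow, log_exp, nsmul_eq_mul] at h3
  have h4 : (n : ℤ) ∣ s := by
    have h5 := (dvd_neg (a := (n : ℤ))).2 h3
    have h6 : -((s : ℤ) * -1) = s := by ring
    rwa [h6] at h5
  exact_mod_cast h4

end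

section

attribute [local instance] polyAlg ratAlg isScalarTower_rat

variable {F : Type} [Field F] [Finite F]

theorem finite_irr {n a g e0 : ℕ} (hn : n.Prime) (hF : n ∣ Nat.card F - 1)
    (ha : a + 1 = n * e0) {P A B : F[X]} (hP : P.Monic) (hirr : Irreducible P)
    (hdeg : P.natDegree = n * g + 1) (hg : 1 ≤ g) (hAB : IsCoprime A B) (hB : B ≠ 0)
    (hW : Irreducible (wPoly P A B)) (D : F[X]) (hD : Inert P.natDegree D)
    (Δ : (RatFunc F)[X]) (hS : Sel n a P A B D Δ) :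
    ∃ (s : ℕ) (γ : AdjoinRoot ((fPoly P A B).map (algebraMap F[X] (RatFunc F)))),
      AdjoinRoot.mk ((fPoly P A B).map (algebraMap F[X] (RatFunc F))) (Δ * X ^ s) = γ ^ n ∧
      (n ∣ s ∨ ∃ y, AdjoinRoot.mk (wPoly P A B) (-(D * B)) = y ^ n) := by
  obtain ⟨k, _, _, _, _, _, _, τ, hPs, hτ, hgen, hcard, hrank⟩ := exists_data hP hirr
  have hng : 1 ≤ n * g := Nat.mul_pos hn.pos hg
  exact irr hn hF ha (cast_ne hn hF) hgen hPs hτ hcard (by omega) hAB hB hW
    (by rw [hcard, hrank, hdeg]) D (by rw [hrank]; exact hD) Δ hS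

theorem finite_root {n g : ℕ} (hn : n.Prime) {P A B : F[X]} (hP : P.Monic) (hirr : Irreducible P)
    (hdeg : P.natDegree = n * g + 1) (hg : 1 ≤ g) (hAB : IsCoprime A B) (hB : B ≠ 0)
    {ι : Type} [Fintype ι] [DecidableEq ι] [Nonempty ι] {w : ι → F[X]}
    (hw : ∀ i, Irreducible (w i))
    (hW : wPoly P A B = ∏ i, w i) (hcop : ∀ i j, i ≠ j → IsCoprime (w i) (w j)) {s : ℕ}
    {γ : AdjoinRoot ((fPoly P A B).map (algebraMap F[X] (RatFunc F)))}
    (h : AdjoinRoot.root ((fPoly P A B).map (algebraMap F[X] (RatFunc F))) ^ s = γ ^ n) :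
    n ∣ s := by
  have hng : 1 ≤ n * g := Nat.mul_pos hn.pos hg
  obtain ⟨k, _, _, _, _, _, _, τ, π, hd, hgen, hm, hrank⟩ :=
    exists_facData hP hirr hdeg hng hAB hB hw hW hcop
  rw [← AdjoinRoot.mk_X, ← map_pow] at h
  obtain ⟨z, hz⟩ := transfer_inv hd.hP hd.qne h
  obtain ⟨i⟩ := ‹Nonempty ι›
  refine th_pow hd i hn.ne_zero (s := s) (z := z) ?_
  rw [← hz, dd, map_pow, aeval_X]

end

end Pool.Agent.H83.TN
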