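import Pool.Agent.H83.TN.Closed

/-!
Closed points `c β ^ n = (α - r₀) ∏ (α - r_i)` near a node.
-/

set_option linter.unusedSectionVars false
set_option linter.style.haveILetI false

namespace Pool.Agent.H83.TN

open Polynomial WithZero
open Pool.Agent.H83.T5 (norm_lt_iff norm_le_iff norm_eq_iff norm_eq_one_iff' norm_le_one_iff' sn_mul
  sn_add sn_alg sn_neg sn_sub sn_add_eq_of_lt sn_ne_zero sn_pos sn_inv sn_div sn_pow norm_ne_zero'
  val_norm_of_sn_one norm_one_add_sub_one monic_induction)
open Pool.Agent.H94.LT (log_mul')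

section

variable {M : Type*} [NontriviallyNormedField M] [IsUltrametricDist M] [CompleteSpace M]
  {M' : Type*} [Field M'] [Algebra M M'] [FiniteDimensional M M'] {w : Valuation M ℤᵐ⁰} {n : ℕ}

/-- the middle of the annulus: if `-c ^ a r₀` is not an `n`-th power then all norms have valuation
divisible by `n` -/
theorem annulus (hw : ∀ x : M, ‖x‖ < 1 ↔ w x < 1) (hn : n.Prime) (hn1 : w (n : M) = 1)
    {a e0 : ℕ} (ha : a + 1 = n * e0) {ι : Type*} [Fintype ι] {g : ℕ}
    (hg : Fintype.card ι = n * g) {c r0 : M} (hc : w c = 1) (hr0 : w r0 = 1) (r : ι → M)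
    {α β : M'} (hα : spectralNorm M M' α < 1) (hα0 : α ≠ 0)
    (hr : ∀ i, ‖r i‖ < spectralNorm M M' α)
    (h : algebraMap M M' c * β ^ n = (α - algebraMap M M' r0) * ∏ i, (α - algebraMap M M' (r i)))
    (hcl : ¬ Cl w n (-(c ^ a * r0))) :
    n ∣ Module.finrank M M' ∧ ∀ x : M', x ≠ 0 → Ev w n (Algebra.norm M x) := by
  classical
  have hc0 : c ≠ 0 := by rintro rfl; simp at hc
  have hr00 : r0 ≠ 0 := by rintro rfl; simp at hr0
  have hu : w (-(c ^ a * r0)) = 1 := by
    rw [Valuation.map_neg, map_mul, map_pow, hc, hr0, one_pow, one_mul]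
  set R0 := algebraMap M M' r0 with hR0
  have hR00 : R0 ≠ 0 := by rw [hR0, Ne, map_eq_zero]; exact hr00
  have hsR0 : spectralNorm M M' R0 = 1 := by
    rw [hR0, sn_alg]; exact (norm_eq_one_iff' hw _).2 hr0
  -- principal units
  have hprin : ∀ {x y : M'}, spectralNorm M M' (x - 1) < 1 → spectralNorm M M' (y - 1) < 1 →
      spectralNorm M M' (x * y - 1) < 1 := by
    intro x y hx hy
    have h1 : x * y - 1 = (x - 1) * (y - 1) + ((x - 1) + (y - 1)) := by ring
    rw [h1]
    refine lt_of_le_of_lt (sn_add _ _) (max_lt ?_ (lt_of_le_of_lt (sn_add _ _) (max_lt hx hy)))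
    rw [sn_mul]
    calc _ ≤ spectralNorm M M' (x - 1) * 1 :=
          mul_le_mul_of_nonneg_left hy.le (spectralNorm_nonneg _)
      _ < 1 := by rw [mul_one]; exact hx
  have hprinprod : ∀ (s : Finset ι) (f : ι → M'), (∀ i ∈ s, spectralNorm M M' (f i - 1) < 1) →
      spectralNorm M M' (∏ i ∈ s, f i - 1) < 1 := by
    intro s f
    induction s using Finset.induction_on with
    | empty => intro _; simp [spectralNorm_zero]
    | insert a s ha ih =>
      intro hf
      rw [Finset.prod_insert ha]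
      exact hprin (hf a (Finset.mem_insert_self _ _))
        (ih fun i hi => hf i (Finset.mem_insert_of_mem hi))
  -- the principal unit
  set P := ∏ i : ι, (1 - algebraMap M M' (r i) / α) with hP
  have hP1 : spectralNorm M M' (P - 1) < 1 := by
    rw [hP]
    refine hprinprod _ _ fun i _ => ?_
    have h3 : 1 - algebraMap M M' (r i) / α - 1 = -(algebraMap M M' (r i) / α) := by ring
    rw [h3, sn_neg, sn_div, sn_alg]
    have hpos : 0 < spectralNorm M M' α := lt_of_le_of_lt (norm_nonneg _) (hr i)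
    rw [div_lt_one hpos]
    exact hr i
  set Q := (1 - α / R0) * P with hQ
  have hQ1 : spectralNorm M M' (Q - 1) < 1 := by
    rw [hQ]
    refine hprin ?_ hP1
    have h3 : 1 - α / R0 - 1 = -(α / R0) := by ring
    rw [h3, sn_neg, sn_div, hsR0, div_one]
    exact hα
  obtain ⟨σ, hσ⟩ := exists_root_ext (M := M) n ((norm_eq_one_iff' hw _).2 hn1) (Q - 1) hQ1
  have hσ' : σ ^ n = Q := by rw [hσ]; ring
  have hQ0 : Q ≠ 0 := by
    intro h0
    rw [h0, zero_sub, sn_neg, spectralNorm_one] at hQ1
    exact lt_irrefl _ hQ1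
  -- the product
  have hprodα : ∏ i : ι, (α - algebraMap M M' (r i)) = (α ^ g) ^ n * P := by
    rw [hP]
    have h3 : (α ^ g) ^ n = ∏ _i : ι, α := by
      rw [Finset.prod_const, Finset.card_univ, hg, ← pow_mul, mul_comm g n]
    rw [h3, ← Finset.prod_mul_distrib]
    refine Finset.prod_congr rfl fun i _ => ?_
    field_simp
  have hαg : α ^ g ≠ 0 := pow_ne_zero g hα0
  have hmain : algebraMap M M' c * β ^ n = -R0 * (α ^ g) ^ n * Q := by
    rw [h, hprodα, hQ]
    field_simp
    ring
  refine unram (M' := M') hw hn hu hcl (ρ := algebraMap M M' c ^ e0 * β / (α ^ g * σ)) ?_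
  rw [div_pow, mul_pow, mul_pow, hσ']
  rw [div_eq_iff (mul_ne_zero (pow_ne_zero n hαg) hQ0)]
  rw [map_neg, map_mul, map_pow, ← pow_mul, mul_comm e0 n, ← ha, pow_succ]
  linear_combination (algebraMap M M' c ^ a) * hmain

theorem closed_node (hw : ∀ x : M, ‖x‖ < 1 ↔ w x < 1) (hn : n.Prime) (hn1 : w (n : M) = 1)
    {a e0 : ℕ} (ha : a + 1 = n * e0) {ι : Type*} [Fintype ι] {g : ℕ}
    (hg : Fintype.card ι = n * g) {ϖ c r0 : M} (hϖ : w ϖ = exp (-1 : ℤ)) (hc : w c = 1)
    (hr0 : w r0 = 1) (r : ι → M) (hr : ∀ i, w (r i) = exp (-1 : ℤ))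
    (hrr : ∀ i j, i ≠ j → w (r i - r j) = exp (-1 : ℤ)) {α β : M'} (hβ : β ≠ 0)
    (h : algebraMap M M' c * β ^ n =
      (α - algebraMap M M' r0) * ∏ i, (α - algebraMap M M' (r i))) :
    ∃ s : ℕ, Cl w n ((c ^ a) ^ Module.finrank M M' * Algebra.norm M (α - algebraMap M M' r0) *
        (-(c ^ a * r0)) ^ s) ∧
      ∀ i, Ev w n (ϖ ^ s * Algebra.norm M (α - algebraMap M M' (r i))) := by
  classical
  have hc0 : c ≠ 0 := by rintro rfl; simp at hc
  have hr00 : r0 ≠ 0 := by rintro rfl; simp at hr0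
  have hϖ0 : ϖ ≠ 0 := by rintro rfl; rw [map_zero] at hϖ; exact exp_ne_zero hϖ.symm
  set d := Module.finrank M M' with hd
  set n0 := Algebra.norm M (α - algebraMap M M' r0) with hn0
  set a0 := Algebra.norm M α with ha0'
  have hprod0 : (α - algebraMap M M' r0) * ∏ i, (α - algebraMap M M' (r i)) ≠ 0 := by
    rw [← h]
    exact mul_ne_zero (by rw [Ne, map_eq_zero]; exact hc0) (pow_ne_zero n hβ)
  have hne0 : α - algebraMap M M' r0 ≠ 0 := left_ne_zero_of_mul hprod0
  have hne : ∀ i, α - algebraMap M M' (r i) ≠ 0 := by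
    intro i
    exact Finset.prod_ne_zero_iff.1 (right_ne_zero_of_mul hprod0) i (Finset.mem_univ i)
  have hn00 : n0 ≠ 0 := norm_ne_zero' hne0
  have hN : n0 * ∏ i, Algebra.norm M (α - algebraMap M M' (r i)) =
      c ^ d * Algebra.norm M β ^ n := by
    rw [hn0, ← map_prod, ← map_mul, ← h, map_mul, map_pow, Algebra.norm_algebraMap]
  have hcd : w (c ^ d) = 1 := by rw [map_pow, hc, one_pow]
  have hcd0 : c ^ d ≠ 0 := pow_ne_zero d hc0
  have hcad : w ((c ^ a) ^ d) = 1 := by rw [map_pow, map_pow, hc, one_pow, one_pow]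
  have hcad0 : (c ^ a) ^ d ≠ 0 := pow_ne_zero d (pow_ne_zero a hc0)
  have hlt1 : exp (-1 : ℤ) < (1 : ℤᵐ⁰) := by
    rw [← exp_zero, exp_lt_exp]; norm_num
  have hrlt : ∀ i, ‖r i‖ < 1 := fun i => (hw _).2 (by rw [hr i]; exact hlt1)
  have hϖlt : ‖ϖ‖ < 1 := (hw _).2 (by rw [hϖ]; exact hlt1)
  have hrϖ : ∀ i, ‖r i‖ = ‖ϖ‖ := fun i => (norm_eq_iff hw _ _).2 (by rw [hr i, hϖ])
  have hu0 : (-(c ^ a * r0)) ≠ 0 := neg_ne_zero.2 (mul_ne_zero (pow_ne_zero a hc0) hr00)
  rcases le_or_gt 1 (spectralNorm M M' α) with hα | hα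
  · -- `|α| ≥ 1`
    have hα0 : α ≠ 0 := by
      rintro rfl
      rw [spectralNorm_zero] at hα
      exact absurd hα (by norm_num)
    have ha0 : a0 ≠ 0 := norm_ne_zero' hα0
    have hcl : ∀ j, Cl w n (Algebra.norm M (α - algebraMap M M' (r j)) / a0) := by
      intro j
      apply cl_norm_sub hw
      rw [sn_alg]
      exact lt_of_lt_of_le (hrlt j) hα
    have h3 : Cl w n (∏ i, Algebra.norm M (α - algebraMap M M' (r i))) := by
      have h4 := Cl.prod Finset.univ (fun j => Algebra.norm M (α - algebraMap M M' (r j)) / a0)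
        (fun j _ => hcl j)
      rw [Finset.prod_div_distrib, Finset.prod_const, Finset.card_univ, hg] at h4
      have h5 := h4.mul (Cl.pow_dvd (n := n) ha0 (Dvd.intro g rfl))
      rwa [div_mul_cancel₀ _ (pow_ne_zero _ ha0)] at h5
    have h6 : Cl w n ((c ^ a) ^ d * n0) := by
      have h7 : Cl w n ((∏ i, Algebra.norm M (α - algebraMap M M' (r i))) *
          ((c ^ a) ^ d * n0)) := by
        have h8 : (∏ i, Algebra.norm M (α - algebraMap M M' (r i))) * ((c ^ a) ^ d * n0) =
            ((c ^ e0) ^ d * Algebra.norm M β) ^ n := by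
          have h9 : (c ^ a) ^ d * c ^ d = ((c ^ e0) ^ d) ^ n := by
            rw [← mul_pow, ← pow_succ, ha, ← pow_mul, ← pow_mul, ← pow_mul]
            congr 1; ring
          rw [mul_pow, ← h9]
          linear_combination ((c ^ a) ^ d) * hN
        rw [h8]
        exact Cl.npow (mul_ne_zero (pow_ne_zero _ (pow_ne_zero _ hc0)) (norm_ne_zero' hβ))
      exact h3.of_mul h7
    refine ⟨0, by rw [pow_zero, mul_one]; exact h6, ?_⟩
    have hEva : Ev w n a0 := by
      rcases lt_or_eq_of_le hα with hlt | heq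
      · have h9 : Cl w n (n0 / a0) := by
          apply cl_norm_sub hw
          rw [sn_alg, (norm_eq_one_iff' hw _).2 hr0]
          exact hlt
        have h10 : Ev w n n0 := (Ev.of_val hcad).of_mul h6.ev
        have h11 := h9.ev.inv.mul h10
        rwa [inv_div, div_mul_cancel₀ _ hn00] at h11
      · exact Ev.of_val (val_norm_of_sn_one hw heq.symm)
    intro i
    rw [pow_zero, one_mul]
    have h11 := (hcl i).ev.mul hEva
    rwa [div_mul_cancel₀ _ ha0] at h11
  · -- `|α| < 1`
    have hneg : Cl w n (n0 / (-r0) ^ d) := by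
      have h3 := cl_norm_add (M := M) (n := n) hw (x := -algebraMap M M' r0) (y := α)
        (by rw [sn_neg, sn_alg, (norm_eq_one_iff' hw _).2 hr0]; exact hα)
      have h4 : -algebraMap M M' r0 + α = α - algebraMap M M' r0 := by ring
      rw [h4, ← map_neg, Algebra.norm_algebraMap] at h3
      exact h3
    have hr0d : (-r0) ^ d ≠ 0 := pow_ne_zero d (neg_ne_zero.2 hr00)
    have hkey : Cl w n ((c ^ a) ^ d * n0 / (-(c ^ a * r0)) ^ d) := by
      have h3 : (c ^ a) ^ d * n0 / (-(c ^ a * r0)) ^ d = n0 / (-r0) ^ d := by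
        have : (-(c ^ a * r0)) ^ d = (c ^ a) ^ d * (-r0) ^ d := by rw [← mul_pow]; ring
        rw [this, mul_div_mul_left _ _ hcad0]
      rw [h3]
      exact hneg
    have hud0 : (-(c ^ a * r0)) ^ d ≠ 0 := pow_ne_zero d hu0
    rcases lt_or_ge ‖ϖ‖ (spectralNorm M M' α) with hα2 | hα2
    · -- the annulus
      have hα0 : α ≠ 0 := by
        rintro rfl
        rw [spectralNorm_zero] at hα2
        exact absurd hα2 (not_lt.2 (norm_nonneg _))
      have ha0 : a0 ≠ 0 := norm_ne_zero' hα0
      have hcl : ∀ j, Cl w n (Algebra.norm M (α - algebraMap M M' (r j)) / a0) := by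
        intro j
        apply cl_norm_sub hw
        rw [sn_alg, hrϖ j]
        exact hα2
      by_cases hcu : Cl w n (-(c ^ a * r0))
      · -- any exponent is allowed
        have hall : Cl w n ((c ^ a) ^ d * n0) := by
          have h3 := hkey.mul (Cl.pow hcu d)
          rwa [div_mul_cancel₀ _ hud0] at h3
        -- the exponent
        obtain ⟨s, hs⟩ : ∃ s : ℕ, (n : ℤ) ∣ log (w a0) - s := by
          have hn0' : (n : ℤ) ≠ 0 := by exact_mod_cast hn.ne_zero
          refine ⟨(log (w a0) % n).toNat, ?_⟩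
          rw [Int.toNat_of_nonneg (Int.emod_nonneg _ hn0')]
          exact Int.dvd_self_sub_emod
        refine ⟨s, hall.mul (hcu.pow s), fun i => ?_⟩
        have h4 : Ev w n (ϖ ^ s * a0) := by
          refine ⟨mul_ne_zero (pow_ne_zero s hϖ0) ha0, ?_⟩
          rw [log_mul' (pow_ne_zero s hϖ0) ha0, map_pow, hϖ, log_pow, log_exp, nsmul_eq_mul]
          have h5 : (s : ℤ) * -1 + log (w a0) = log (w a0) - s := by ring
          rw [h5]
          exact hs
        have h5 := (hcl i).ev.mul h4
        have h6 : Algebra.norm M (α - algebraMap M M' (r i)) / a0 * (ϖ ^ s * a0) =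
            ϖ ^ s * Algebra.norm M (α - algebraMap M M' (r i)) := by
          field_simp
        rwa [h6] at h5
      · obtain ⟨hdvd, hall⟩ := annulus hw hn hn1 ha hg hc hr0 r hα hα0
          (fun i => by rw [hrϖ i]; exact hα2) h hcu
        refine ⟨0, ?_, fun i => ?_⟩
        · rw [pow_zero, mul_one]
          have h3 := hkey.mul (Cl.pow_dvd hu0 hdvd)
          rwa [div_mul_cancel₀ _ hud0] at h3
        · rw [pow_zero, one_mul]
          exact hall _ (hne i)
    · -- `|α| ≤ |ϖ|`
      have hϖ' : algebraMap M M' ϖ ≠ 0 := by rw [Ne, map_eq_zero]; exact hϖ0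
      set b := α / algebraMap M M' ϖ with hb
      have hbα : α = algebraMap M M' ϖ * b := by rw [hb]; field_simp
      have hsb : spectralNorm M M' b ≤ 1 := by
        rw [hb, sn_div, sn_alg]
        exact div_le_one_of_le₀ hα2 (norm_nonneg _)
      set s : ι → M := fun i => r i / ϖ with hs
      have hrs : ∀ i, r i = ϖ * s i := by intro i; simp only [hs]; field_simp
      have hs1 : ∀ i, w (s i) ≤ 1 := by
        intro i
        simp only [hs]
        rw [map_div₀, hr i, hϖ, div_self exp_ne_zero]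
      have hss : ∀ i j, i ≠ j → w (s i - s j) = 1 := by
        intro i j hij
        simp only [hs]
        rw [← sub_div, map_div₀, hrr i j hij, hϖ, div_self exp_ne_zero]
      have hfac : ∀ i, α - algebraMap M M' (r i) =
          algebraMap M M' ϖ * (b - algebraMap M M' (s i)) := by
        intro i
        rw [hrs i, map_mul, mul_sub, ← hbα]
      have hnfac : ∀ i, Algebra.norm M (α - algebraMap M M' (r i)) =
          ϖ ^ d * Algebra.norm M (b - algebraMap M M' (s i)) := by
        intro i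
        rw [hfac i, map_mul, Algebra.norm_algebraMap]
      have hbne : ∀ i, b - algebraMap M M' (s i) ≠ 0 := by
        intro i h0
        apply hne i
        rw [hfac i, h0, mul_zero]
      have hn0w : w n0 = 1 := by
        apply val_norm_of_sn_one hw
        have h3 : α - algebraMap M M' r0 = α + -(algebraMap M M' r0) := by ring
        rw [h3, sn_add_eq_of_lt, sn_neg, sn_alg, (norm_eq_one_iff' hw _).2 hr0]
        rw [sn_neg, sn_alg, (norm_eq_one_iff' hw _).2 hr0]
        exact hα
      have hEvprod : Ev w n (∏ i, Algebra.norm M (b - algebraMap M M' (s i))) := by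
        have h3 : n0 * ((∏ i, Algebra.norm M (b - algebraMap M M' (s i))) *
            ((ϖ ^ d) ^ g) ^ n) = c ^ d * Algebra.norm M β ^ n := by
          rw [← hN]
          congr 1
          rw [Finset.prod_congr rfl fun i _ => hnfac i, Finset.prod_mul_distrib,
            Finset.prod_const, Finset.card_univ, hg, ← pow_mul, ← pow_mul, ← pow_mul]
          rw [mul_comm]
          congr 2
          ring
        have h5 : Ev w n (n0 * ((∏ i, Algebra.norm M (b - algebraMap M M' (s i))) *
            ((ϖ ^ d) ^ g) ^ n)) := by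
          rw [h3]
          exact (Ev.of_val hcd).mul (Ev.npow (norm_ne_zero' hβ))
        exact Ev.of_mul_npow (pow_ne_zero g (pow_ne_zero d hϖ0)) ((Ev.of_val hn0w).of_mul h5)
      have hEvi : ∀ i, Ev w n (Algebra.norm M (b - algebraMap M M' (s i))) := fun i =>
        ev_of_units hw s hss hs1 b hsb hbne hEvprod i
      refine ⟨(n - 1) * d, ?_, fun i => ?_⟩
      · have h3 : (c ^ a) ^ d * n0 * (-(c ^ a * r0)) ^ ((n - 1) * d) =
            (c ^ a) ^ d * n0 / (-(c ^ a * r0)) ^ d * (-(c ^ a * r0)) ^ (n * d) := by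
          have h4 : n * d = (n - 1) * d + d := by
            obtain ⟨k, hk⟩ : ∃ k, n = k + 1 := ⟨n - 1, by have := hn.pos; omega⟩
            rw [hk, Nat.add_sub_cancel]; ring
          rw [h4, pow_add]
          field_simp
        rw [h3]
        exact hkey.mul (Cl.pow_dvd hu0 (Dvd.intro d rfl))
      · rw [hnfac i]
        have h3 : ϖ ^ ((n - 1) * d) * (ϖ ^ d * Algebra.norm M (b - algebraMap M M' (s i))) =
            ϖ ^ (n * d) * Algebra.norm M (b - algebraMap M M' (s i)) := by
          have h4 : n * d = (n - 1) * d + d := by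
            obtain ⟨k, hk⟩ : ∃ k, n = k + 1 := ⟨n - 1, by have := hn.pos; omega⟩
            rw [hk, Nat.add_sub_cancel]; ring
          rw [h4, pow_add]; ring
        rw [h3]
        exact (Ev.pow_dvd hϖ0 (Dvd.intro d rfl)).mul (hEvi i)

end

end Pool.Agent.H83.TN
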