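import Pool.Agent.H83.TN.Node
import Pool.Agent.H94.TC.NormRes

/-!
From closed points to Mumford pairs for `c z ^ n = f(x)`.
-/

set_option linter.unusedSectionVars false
set_option linter.style.haveILetI false

namespace Pool.Agent.H83.TN

open Polynomial WithZero
open Pool.Agent.H83.T5 (monic_induction norm_root_sub)

section

variable {M : Type*} [NontriviallyNormedField M] [IsUltrametricDist M] [CompleteSpace M]
  {w : Valuation M ℤᵐ⁰} {n : ℕ}

/-- the closed point of a monic irreducible divisor of `c Q ^ n - f`, `f` a product of linear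
factors -/
theorem exists_point {κ : Type*} [Fintype κ] {c : M} (hn : n ≠ 0) (r : κ → M) {p Q : M[X]}
    (hirr : Irreducible p) (hcop : IsCoprime p (∏ i, (X - C (r i))))
    (hdvd : p ∣ C c * Q ^ n - ∏ i, (X - C (r i))) :
    haveI : Fact (Irreducible p) := ⟨hirr⟩
    AdjoinRoot.mk p Q ≠ 0 ∧ algebraMap M (AdjoinRoot p) c * (AdjoinRoot.mk p Q) ^ n =
      ∏ i, (AdjoinRoot.root p - algebraMap M (AdjoinRoot p) (r i)) := by
  haveI : Fact (Irreducible p) := ⟨hirr⟩
  have h1 : ∏ i, (AdjoinRoot.root p - algebraMap M (AdjoinRoot p) (r i)) =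
      AdjoinRoot.mk p (∏ i, (X - C (r i))) := by
    rw [map_prod]
    refine Finset.prod_congr rfl fun i _ => ?_
    rw [map_sub, AdjoinRoot.mk_X, AdjoinRoot.mk_C]; rfl
  have h2 : algebraMap M (AdjoinRoot p) c * (AdjoinRoot.mk p Q) ^ n =
      ∏ i, (AdjoinRoot.root p - algebraMap M (AdjoinRoot p) (r i)) := by
    have h3 := AdjoinRoot.mk_eq_mk.2 hdvd
    rw [h1, ← h3, map_mul, map_pow, AdjoinRoot.mk_C]; rfl
  refine ⟨?_, h2⟩
  intro h0
  rw [h0, h1, zero_pow hn, mul_zero] at h2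
  have h4 : AdjoinRoot.mk p (∏ i, (X - C (r i))) = 0 := h2.symm
  rw [AdjoinRoot.mk_eq_zero] at h4
  exact hirr.not_isUnit (hcop.isUnit_of_dvd' dvd_rfl h4)

/-- divisibility at a place of good reduction -/
theorem pair_good (hw : ∀ x : M, ‖x‖ < 1 ↔ w x < 1) (hn : n ≠ 0) {ι : Type*} [Fintype ι]
    (hcard : Nat.Coprime (Fintype.card ι) n) {c : M} (hc : w c = 1) (r : ι → M)
    (hr : ∀ i, w (r i) ≤ 1) (hrr : ∀ i j, i ≠ j → w (r i - r j) = 1) (A Q : M[X])
    (hA : A.Monic) (hcop : IsCoprime A (∏ i, (X - C (r i))))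
    (hdvd : A ∣ C c * Q ^ n - ∏ i, (X - C (r i))) (i : ι) : Ev w n (A.eval (r i)) := by
  revert hcop hdvd
  refine monic_induction (motive := fun A => IsCoprime A (∏ i, (X - C (r i))) →
    A ∣ C c * Q ^ n - ∏ i, (X - C (r i)) → Ev w n (A.eval (r i))) ?_ ?_ A hA
  · intro _ _
    rw [eval_one]
    exact Ev.of_val (map_one w)
  · intro p q hp hirr hq ih hcop hdvd
    rw [eval_mul]
    have hcop2 := IsCoprime.mul_left_iff.1 hcop
    have hp1 : p ∣ C c * Q ^ n - ∏ i, (X - C (r i)) := dvd_trans (Dvd.intro _ rfl) hdvd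
    have hq1 : q ∣ C c * Q ^ n - ∏ i, (X - C (r i)) := dvd_trans (Dvd.intro_left _ rfl) hdvd
    refine Ev.mul ?_ (ih hcop2.2 hq1)
    haveI : Fact (Irreducible p) := ⟨hirr⟩
    haveI : FiniteDimensional M (AdjoinRoot p) := hp.finite_adjoinRoot
    obtain ⟨h1, h2⟩ := exists_point hn r hirr hcop2.1 hp1
    have h3 := closed_good (M' := AdjoinRoot p) hw hcard hc r hr hrr h1 h2 i
    rw [norm_root_sub hp] at h3
    have h4 : Ev w n ((-1 : M) ^ p.natDegree) := Ev.of_val (by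
      rw [map_pow, Valuation.map_neg, map_one, one_pow])
    exact h4.of_mul h3

/-- the node -/
theorem pair_node (hw : ∀ x : M, ‖x‖ < 1 ↔ w x < 1) (hn : n.Prime) (hn1 : w (n : M) = 1)
    {a e0 : ℕ} (ha : a + 1 = n * e0) {ι : Type*} [Fintype ι] {g : ℕ}
    (hg : Fintype.card ι = n * g) {ϖ c r0 : M} (hϖ : w ϖ = exp (-1 : ℤ)) (hc : w c = 1)
    (hr0 : w r0 = 1) (r : ι → M) (hr : ∀ i, w (r i) = exp (-1 : ℤ))
    (hrr : ∀ i j, i ≠ j → w (r i - r j) = exp (-1 : ℤ)) (A Q : M[X]) (hA : A.Monic)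
    (hcop : IsCoprime A ((X - C r0) * ∏ i, (X - C (r i))))
    (hdvd : A ∣ C c * Q ^ n - (X - C r0) * ∏ i, (X - C (r i))) :
    ∃ s : ℕ, Cl w n ((-c ^ a) ^ A.natDegree * A.eval r0 * (-(c ^ a * r0)) ^ s) ∧
      ∀ i, Ev w n (ϖ ^ s * A.eval (r i)) := by
  -- one family of roots
  set r' : Option ι → M := fun o => o.elim r0 r with hr'
  have hprod : (X - C r0) * ∏ i, (X - C (r i)) = ∏ o : Option ι, (X - C (r' o)) := by
    rw [Fintype.prod_option]; rfl
  rw [hprod] at hcop hdvd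
  refine monic_induction (motive := fun A => IsCoprime A (∏ o : Option ι, (X - C (r' o))) →
    A ∣ C c * Q ^ n - ∏ o : Option ι, (X - C (r' o)) →
    ∃ s : ℕ, Cl w n ((-c ^ a) ^ A.natDegree * A.eval r0 * (-(c ^ a * r0)) ^ s) ∧
      ∀ i, Ev w n (ϖ ^ s * A.eval (r i))) ?_ ?_ A hA hcop hdvd
  · intro _ _
    refine ⟨0, ?_, fun i => ?_⟩
    · rw [eval_one, natDegree_one, pow_zero, pow_zero, one_mul, one_mul]
      exact Cl.one
    · rw [eval_one, pow_zero, one_mul]
      exact Ev.of_val (map_one w)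
  · intro p q hp hirr hq ih hcop hdvd
    have hcop2 := IsCoprime.mul_left_iff.1 hcop
    have hp1 : p ∣ C c * Q ^ n - ∏ o : Option ι, (X - C (r' o)) :=
      dvd_trans (Dvd.intro _ rfl) hdvd
    have hq1 : q ∣ C c * Q ^ n - ∏ o : Option ι, (X - C (r' o)) :=
      dvd_trans (Dvd.intro_left _ rfl) hdvd
    haveI : Fact (Irreducible p) := ⟨hirr⟩
    haveI : FiniteDimensional M (AdjoinRoot p) := hp.finite_adjoinRoot
    obtain ⟨h3, h4⟩ := exists_point hn.ne_zero r' hirr hcop2.1 hp1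
    rw [Fintype.prod_option] at h4
    obtain ⟨s, ha1, hb1⟩ :=
      closed_node (M' := AdjoinRoot p) hw hn hn1 ha hg hϖ hc hr0 r hr hrr h3 h4
    obtain ⟨t, ha2, hb2⟩ := ih hcop2.2 hq1
    have hd : Module.finrank M (AdjoinRoot p) = p.natDegree :=
      finrank_quotient_span_eq_natDegree' hp
    rw [hd] at ha1
    have hneg : Ev w n ((-1 : M) ^ p.natDegree) := Ev.of_val (by
      rw [map_pow, Valuation.map_neg, map_one, one_pow])
    have hc1 : (c ^ a) ^ p.natDegree * ((-1) ^ p.natDegree * p.eval r0) =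
        (-c ^ a) ^ p.natDegree * p.eval r0 := by
      rw [← mul_assoc, ← mul_pow]; congr 2; ring
    rw [norm_root_sub hp, hc1] at ha1
    have hdeg : (p * q).natDegree = p.natDegree + q.natDegree := hp.natDegree_mul hq
    refine ⟨s + t, ?_, fun i => ?_⟩
    · have h5 := ha1.mul ha2
      have h6 : (-c ^ a) ^ (p * q).natDegree * (p * q).eval r0 * (-(c ^ a * r0)) ^ (s + t) =
          (-c ^ a) ^ p.natDegree * p.eval r0 * (-(c ^ a * r0)) ^ s *
          ((-c ^ a) ^ q.natDegree * q.eval r0 * (-(c ^ a * r0)) ^ t) := by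
        rw [hdeg, pow_add, pow_add, eval_mul]; ring
      rw [h6]
      exact h5
    · have h5 := hb1 i
      rw [norm_root_sub hp] at h5
      have h6 : ϖ ^ s * ((-1) ^ p.natDegree * p.eval (r i)) =
          (-1) ^ p.natDegree * (ϖ ^ s * p.eval (r i)) := by ring
      rw [h6] at h5
      have h7 := (hneg.of_mul h5).mul (hb2 i)
      have h8 : ϖ ^ (s + t) * (p * q).eval (r i) =
          ϖ ^ s * p.eval (r i) * (ϖ ^ t * q.eval (r i)) := by
        rw [pow_add, eval_mul]; ring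
      rw [h8]
      exact h7

end

end Pool.Agent.H83.TN
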