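import Pool.Agent.H83.TN.Adic
import Pool.Agent.H83.T5.PlacePar

/-!
From the Selmer condition at `v` for `D y ^ n = f(U)` to the conjugates `Δ(r_i)` at `w ∣ v`.
-/

set_option linter.unusedSectionVars false
set_option linter.style.haveILetI false

namespace Pool.Agent.H83.TN

open Polynomial WithZero IsDedekindDomain HeightOneSpectrum
open Pool.Agent.H94.TC (compMap compMap_coe)
open Pool.Agent.H83.T5 (valued_alg)

section

variable {A K : Type*} [CommRing A] [IsDomain A] [IsPrincipalIdealRing A] [Field K] [Algebra A K]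
  [IsFractionRing A K]

/-- `Δ(θ)` is, at the prime `v`, up to an `n`-th power, a product of elements
`(-D^a)^r P(θ)` for Mumford pairs `(P, Q)` over `K_v` of `D y ^ n = f(x)`. -/
def LocN (n a : ℕ) (f : A[X]) (D : A) (v : HeightOneSpectrum A) (Δ : K[X]) : Prop :=
  ∃ (r : ℕ) (P Q : Fin r → (v.adicCompletion K)[X]) (G : (v.adicCompletion K)[X]),
    (∀ j, (P j).Monic ∧
      IsCoprime (P j) ((f.map (algebraMap A K)).map (algebraMap K (v.adicCompletion K))) ∧
      P j ∣ C (algebraMap K (v.adicCompletion K) (algebraMap A K D)) * Q j ^ n -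
        (f.map (algebraMap A K)).map (algebraMap K (v.adicCompletion K))) ∧
    (f.map (algebraMap A K)).map (algebraMap K (v.adicCompletion K)) ∣
      Δ.map (algebraMap K (v.adicCompletion K)) * G ^ n -
        ∏ j, (C (-algebraMap K (v.adicCompletion K) (algebraMap A K D) ^ a)) ^ (P j).natDegree * P j

end

section

variable {B L : Type*} [CommRing B] [IsDedekindDomain B] [Field L] [Algebra B L]
  [IsFractionRing B L] (w : HeightOneSpectrum B) {n : ℕ}

theorem ev_alg_iff (x : L) : Ev (Valued.v : Valuation (w.adicCompletion L) ℤᵐ⁰) n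
    (algebraMap L (w.adicCompletion L) x) ↔ Ev (w.valuation L) n x := by
  rw [Ev, Ev, valued_alg, Ne, map_eq_zero]

end

section

variable {A K B L : Type*} [CommRing A] [IsDomain A] [IsPrincipalIdealRing A] [CommRing B]
  [IsDedekindDomain B] [Algebra A B] [Module.IsTorsionFree A B] [Field K] [Field L] [Algebra K L]
  [Algebra A K] [IsFractionRing A K] [Algebra A L] [IsScalarTower A K L]
  [Algebra B L] [IsFractionRing B L] [IsScalarTower A B L]
  (v : HeightOneSpectrum A) (w : HeightOneSpectrum B) [w.asIdeal.LiesOver v.asIdeal] {n a : ℕ}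

theorem place_data {ι : Type*} [Fintype ι] (f : A[X]) (D : A) (Δ : K[X]) (r : ι → L)
    (hf : (f.map (algebraMap A K)).map (algebraMap K L) = ∏ i, (X - C (r i)))
    (h : LocN n a f D v Δ) :
    ∃ (N : ℕ) (P' Q' : Fin N → (w.adicCompletion L)[X]), (∀ j, (P' j).Monic ∧
      IsCoprime (P' j) (∏ i, (X - C (algebraMap L (w.adicCompletion L) (r i)))) ∧
      P' j ∣ C (algebraMap L (w.adicCompletion L) (algebraMap A L D)) * Q' j ^ n -
        ∏ i, (X - C (algebraMap L (w.adicCompletion L) (r i)))) ∧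
      ∀ i, ∃ g : w.adicCompletion L,
        algebraMap L (w.adicCompletion L) (aeval (r i) Δ) * g ^ n =
          ∏ j, (-algebraMap L (w.adicCompletion L) (algebraMap A L D) ^ a) ^ (P' j).natDegree *
            (P' j).eval (algebraMap L (w.adicCompletion L) (r i)) := by
  obtain ⟨N, P, Q, G, hPQ, hG⟩ := h
  set ψ := compMap K L v w with hψ
  have hcomp : ψ.comp (algebraMap K (v.adicCompletion K)) =
      (algebraMap L (w.adicCompletion L)).comp (algebraMap K L) :=
    RingHom.ext fun x => compMap_coe L v w x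
  have hψD : ψ (algebraMap K (v.adicCompletion K) (algebraMap A K D)) =
      algebraMap L (w.adicCompletion L) (algebraMap A L D) := by
    rw [hψ, compMap_coe, ← IsScalarTower.algebraMap_apply A K L]
  have hψf : ((f.map (algebraMap A K)).map (algebraMap K (v.adicCompletion K))).map ψ =
      ∏ i, (X - C (algebraMap L (w.adicCompletion L) (r i))) := by
    rw [Polynomial.map_map, hcomp, ← Polynomial.map_map, hf, Polynomial.map_prod]
    refine Finset.prod_congr rfl fun i _ => ?_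
    rw [Polynomial.map_sub, Polynomial.map_X, Polynomial.map_C]
  have hψΔ : (Δ.map (algebraMap K (v.adicCompletion K))).map ψ =
      (Δ.map (algebraMap K L)).map (algebraMap L (w.adicCompletion L)) := by
    rw [Polynomial.map_map, hcomp, ← Polynomial.map_map]
  refine ⟨N, fun j => (P j).map ψ, fun j => (Q j).map ψ, fun j => ⟨(hPQ j).1.map ψ, ?_, ?_⟩, ?_⟩
  · rw [← hψf]
    exact (hPQ j).2.1.map (mapRingHom ψ)
  · have h1 := Polynomial.map_dvd ψ (hPQ j).2.2
    rw [Polynomial.map_sub, Polynomial.map_mul, Polynomial.map_pow, Polynomial.map_C, hψD,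
      hψf] at h1
    exact h1
  · intro i
    set ri := algebraMap L (w.adicCompletion L) (r i) with hri
    refine ⟨(G.map ψ).eval ri, ?_⟩
    have h1 := Polynomial.map_dvd ψ hG
    rw [Polynomial.map_sub, Polynomial.map_mul, Polynomial.map_pow, hψf, hψΔ,
      Polynomial.map_prod] at h1
    have h2 : (∏ i, (X - C (algebraMap L (w.adicCompletion L) (r i)))).eval ri = 0 := by
      rw [eval_prod]
      exact Finset.prod_eq_zero (Finset.mem_univ i) (by rw [eval_sub, eval_X, eval_C, sub_self])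
    obtain ⟨R, hR⟩ := h1
    have h3 := congrArg (eval ri) hR
    rw [eval_mul, h2, zero_mul, eval_sub, sub_eq_zero, eval_mul, eval_pow, eval_prod] at h3
    have h4 : ((Δ.map (algebraMap K L)).map (algebraMap L (w.adicCompletion L))).eval ri =
        algebraMap L (w.adicCompletion L) (aeval (r i) Δ) := by
      rw [hri, eval_map_algebraMap, aeval_algebraMap_apply, aeval_map_algebraMap]
    rw [h4] at h3
    rw [h3]
    refine Finset.prod_congr rfl fun j _ => ?_
    rw [Polynomial.map_mul, Polynomial.map_pow, Polynomial.map_C, map_neg ψ, map_pow ψ, hψD,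
      eval_mul, eval_pow, eval_C, natDegree_map]

theorem place_good (hn : n ≠ 0) {ι : Type*} [Fintype ι]
    (hcard : Nat.Coprime (Fintype.card ι) n) (ha : n ∣ a * Fintype.card ι + 1) (f : A[X]) (D : A)
    (Δ : K[X]) (r r' : ι → L)
    (hf : (f.map (algebraMap A K)).map (algebraMap K L) = ∏ i, (X - C (r i)))
    (h : LocN n a f D v Δ) {c' b e l : L} (hb : b ≠ 0) (he : e ≠ 0)
    (hD : algebraMap A L D = c' * e ^ n * b ^ Fintype.card ι) (hc' : w.valuation L c' = 1)
    (hrr' : ∀ i, r i = l + b * r' i) (hr : ∀ i, w.valuation L (r' i) ≤ 1)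
    (hrr : ∀ i j, i ≠ j → w.valuation L (r' i - r' j) = 1) (i : ι) :
    Ev (w.valuation L) n (aeval (r i) Δ) := by
  obtain ⟨N, P, Q, hPQ, hg⟩ := place_data v w f D Δ r hf h
  set ψ := algebraMap L (w.adicCompletion L) with hψ
  set D' := ψ (algebraMap A L D) with hD'
  have hψb : ψ b ≠ 0 := by rw [Ne, map_eq_zero]; exact hb
  have hψe : ψ e ≠ 0 := by rw [Ne, map_eq_zero]; exact he
  have hψD : D' = ψ c' * ψ e ^ n * ψ b ^ Fintype.card ι := by
    rw [hD', hD, map_mul, map_mul, map_pow, map_pow]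
  have hc1 : (Valued.v (ψ c') : ℤᵐ⁰) = 1 := by rw [hψ, valued_alg, hc']
  have h1 : ∀ j, Ev (Valued.v : Valuation (w.adicCompletion L) ℤᵐ⁰) n
      ((P j).eval (ψ (r i)) / ψ b ^ (P j).natDegree) := fun j =>
    adic_shift w hn hcard hψb hψD hc1 (fun i => ψ (r i)) (fun i => ψ (r' i)) (l := ψ l)
      (fun i => by rw [hrr' i, map_add, map_mul])
      (fun i => by rw [hψ, valued_alg]; exact hr i)
      (fun i j hij => by rw [← map_sub, hψ, valued_alg]; exact hrr i j hij)
      (P j) (Q j) (hPQ j).1 (hPQ j).2.1 (hPQ j).2.2 i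
  have h2 : Ev (Valued.v : Valuation (w.adicCompletion L) ℤᵐ⁰) n (-(D' ^ a * ψ b)) := by
    have h3 : D' ^ a * ψ b = ψ c' ^ a * (ψ e ^ a) ^ n * ψ b ^ (a * Fintype.card ι + 1) := by
      rw [hψD, pow_succ, pow_mul' (ψ b), mul_pow, mul_pow, ← pow_mul, ← pow_mul, mul_comm n a]
      ring
    have h4 : Ev (Valued.v : Valuation (w.adicCompletion L) ℤᵐ⁰) n (D' ^ a * ψ b) := by
      rw [h3]
      exact ((Ev.of_val (by rw [map_pow, hc1, one_pow])).mul (Ev.npow (pow_ne_zero a hψe))).mul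
        (Ev.pow_dvd hψb ha)
    refine ⟨neg_ne_zero.2 h4.1, ?_⟩
    rw [Valuation.map_neg]
    exact h4.2
  obtain ⟨g, hg⟩ := hg i
  have h3 : Ev (Valued.v : Valuation (w.adicCompletion L) ℤᵐ⁰) n
      (∏ j, (-D' ^ a) ^ (P j).natDegree * (P j).eval (ψ (r i))) := by
    refine Ev.prod _ _ fun j _ => ?_
    have h4 : (-D' ^ a) ^ (P j).natDegree * (P j).eval (ψ (r i)) =
        (-(D' ^ a * ψ b)) ^ (P j).natDegree *
          ((P j).eval (ψ (r i)) / ψ b ^ (P j).natDegree) := by
      have h5 : (-(D' ^ a * ψ b)) = (-D' ^ a) * ψ b := by ring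
      rw [h5, mul_pow]
      have h6 : ψ b ^ (P j).natDegree ≠ 0 := pow_ne_zero _ hψb
      field_simp
    rw [h4]
    exact (h2.pow _).mul (h1 j)
  rw [← hg] at h3
  have hg0 : g ≠ 0 := by
    rintro rfl
    apply h3.ne_zero
    rw [zero_pow hn, mul_zero]
  rw [← ev_alg_iff]
  exact Ev.of_mul_npow hg0 h3

theorem place_node (hn : n.Prime) {ι : Type*} [Fintype ι] [DecidableEq ι] {e0 : ℕ}
    (ha : a + 1 = n * e0) {g : ℕ} (hg : Fintype.card ι = n * g + 1) (i0 : ι)
    (f : A[X]) (D : A) (Δ : K[X]) (r : ι → L)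
    (hf : (f.map (algebraMap A K)).map (algebraMap K L) = ∏ i, (X - C (r i)))
    (h : LocN n a f D v Δ) (hn1 : w.valuation L (n : L) = 1) (ϖ : L)
    (hϖ : w.valuation L ϖ = exp (-1 : ℤ)) (hD : w.valuation L (algebraMap A L D) = 1)
    (hr0 : w.valuation L (r i0) = 1) (hr : ∀ i, i ≠ i0 → w.valuation L (r i) = exp (-1 : ℤ))
    (hrr : ∀ i j, i ≠ i0 → j ≠ i0 → i ≠ j → w.valuation L (r i - r j) = exp (-1 : ℤ)) :
    ∃ s : ℕ, Cl (Valued.v : Valuation (w.adicCompletion L) ℤᵐ⁰) n
      (algebraMap L (w.adicCompletion L) (aeval (r i0) Δ *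
        (-(algebraMap A L D ^ a * r i0)) ^ s)) ∧
      ∀ i, i ≠ i0 → Ev (w.valuation L) n (ϖ ^ s * aeval (r i) Δ) := by
  obtain ⟨N, P, Q, hPQ, hgg⟩ := place_data v w f D Δ r hf h
  set ψ := algebraMap L (w.adicCompletion L) with hψ
  set D' := ψ (algebraMap A L D) with hD'
  have hD1 : (Valued.v D' : ℤᵐ⁰) = 1 := by rw [hD', hψ, valued_alg, hD]
  have hn1' : (Valued.v (n : w.adicCompletion L) : ℤᵐ⁰) = 1 := by
    have h3 := valued_alg w (n : L)
    rw [map_natCast, hn1] at h3
    exact h3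
  have hcard : Fintype.card {i : ι // i ≠ i0} = n * g := by
    rw [Fintype.card_subtype_compl, Fintype.card_subtype_eq]
    omega
  set r' : ι → w.adicCompletion L := fun i => ψ (r i) with hr'
  have hprod : ∏ i, (X - C (ψ (r i))) =
      (X - C (r' i0)) * ∏ i : {i : ι // i ≠ i0}, (X - C (r' i)) := by
    rw [← Finset.mul_prod_erase Finset.univ _ (Finset.mem_univ i0)]
    congr 1
    exact Finset.prod_subtype (p := fun i => i ≠ i0) (Finset.univ.erase i0) (by simp) _
  rw [hprod] at hPQ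
  have h1 : ∀ j, ∃ s : ℕ, Cl (Valued.v : Valuation (w.adicCompletion L) ℤᵐ⁰) n
      ((-D' ^ a) ^ (P j).natDegree * (P j).eval (r' i0) * (-(D' ^ a * r' i0)) ^ s) ∧
      ∀ i : {i : ι // i ≠ i0}, Ev (Valued.v : Valuation (w.adicCompletion L) ℤᵐ⁰) n
        (ψ ϖ ^ s * (P j).eval (r' i)) := by
    intro j
    exact adic_node w hn hn1' ha hcard
      (by rw [hψ, valued_alg]; exact hϖ) hD1 (r0 := r' i0) (by rw [hr', hψ, valued_alg]; exact hr0)
      (fun i : {i : ι // i ≠ i0} => r' i)
      (fun i => by rw [hr', hψ, valued_alg]; exact hr i i.2)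
      (fun i j hij => by
        rw [hr']
        simp only
        rw [← map_sub, hψ, valued_alg]
        exact hrr i j i.2 j.2 (fun h => hij (Subtype.ext h))) (P j) (Q j) (hPQ j).1 (hPQ j).2.1
      (hPQ j).2.2
  choose s hs hs' using h1
  have hDn : Ev (Valued.v : Valuation (w.adicCompletion L) ℤᵐ⁰) n (-D' ^ a) :=
    Ev.of_val (by rw [Valuation.map_neg, map_pow, hD1, one_pow])
  have hg0 : ∀ i g, ψ (aeval (r i) Δ) * g ^ n =
      ∏ j, (-D' ^ a) ^ (P j).natDegree * (P j).eval (r' i) →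
      (∏ j, (-D' ^ a) ^ (P j).natDegree * (P j).eval (r' i)) ≠ 0 → g ≠ 0 := by
    rintro i g hg hne rfl
    apply hne
    rw [← hg, zero_pow hn.ne_zero, mul_zero]
  refine ⟨∑ j, s j, ?_, fun i hi => ?_⟩
  · obtain ⟨g0, hg00⟩ := hgg i0
    have h2 := Cl.prod Finset.univ _ fun j _ => hs j
    rw [Finset.prod_mul_distrib, Finset.prod_pow_eq_pow_sum] at h2
    have hne := left_ne_zero_of_mul h2.ne_zero
    rw [← hg00] at h2
    refine Cl.of_mul_npow (hg0 i0 g0 hg00 hne) ?_
    rw [map_mul, map_pow, map_neg, map_mul, map_pow]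
    have h3 : ψ (aeval (r i0) Δ) * (-(D' ^ a * r' i0)) ^ (∑ j, s j) * g0 ^ n =
        ψ (aeval (r i0) Δ) * g0 ^ n * (-(D' ^ a * r' i0)) ^ (∑ j, s j) := by ring
    rw [h3]
    exact h2
  · obtain ⟨g, hgi⟩ := hgg i
    have h2 := Ev.prod Finset.univ _ fun j (_ : j ∈ Finset.univ) => (hDn.pow (P j).natDegree).mul
      (hs' j ⟨i, hi⟩)
    have h4 : ∏ j, (-D' ^ a) ^ (P j).natDegree * (ψ ϖ ^ s j * (P j).eval (r' i)) =
        (∏ j, ψ ϖ ^ s j) * ∏ j, (-D' ^ a) ^ (P j).natDegree * (P j).eval (r' i) := by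
      rw [← Finset.prod_mul_distrib]
      refine Finset.prod_congr rfl fun j _ => ?_
      ring
    rw [h4] at h2
    have hne := right_ne_zero_of_mul h2.ne_zero
    rw [← hgi, Finset.prod_pow_eq_pow_sum] at h2
    rw [← ev_alg_iff, map_mul, map_pow]
    refine Ev.of_mul_npow (hg0 i g hgi hne) ?_
    rw [mul_assoc]
    exact h2

end

end Pool.Agent.H83.TN
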