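import Pool.Agent.H83.T5.Par
import Pool.Agent.H83.TN.Conj
import Pool.Agent.H83.TN.Place

/-!
Valuations modulo `n` of a Selmer element at all primes of `k[x]`.
-/

set_option linter.unusedSectionVars false
set_option linter.style.haveILetI false

namespace Pool.Agent.H83.TN

open Polynomial WithZero IsDedekindDomain HeightOneSpectrum
open Pool.Agent.H94.TC (exists_gen)
open Pool.Agent.H83.T5 (sB sB_apply sB_C sB_X sB_base sB_mul sB_one sL sL_alg sL_aeval
  sL_ne_zero val_transport val_eq_one C_notMem prod_notMem polyAlg ratAlg isScalarTower_rat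
  ratAlg_algebraMap exists_below mem_below asIdeal_eq_span irreducible_map_of_coprime)

section

variable {F k : Type*} [Field F] [Field k] [Algebra F k] [FiniteDimensional F k]

attribute [local instance] polyAlg ratAlg isScalarTower_rat

variable [Fintype (k ≃ₐ[F] k)] [DecidableEq (k ≃ₐ[F] k)]

/-- the value of `Δ` at the conjugate `θ_σ` -/
noncomputable def dd (A B : F[X]) (τ : k) (Δ : (RatFunc F)[X]) (σ : k ≃ₐ[F] k) : RatFunc k :=
  aeval (algebraMap k[X] (RatFunc k) (th A B τ σ)) Δ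

theorem sL_dd (A B : F[X]) (τ : k) (Δ : (RatFunc F)[X]) (σ ρ : k ≃ₐ[F] k) :
    sL σ (dd A B τ Δ ρ) = dd A B τ Δ (σ * ρ) := by
  rw [dd, dd, sL_aeval, sL_alg, sB_th]

theorem fPoly_split (P A B : F[X]) (τ : k)
    (hP : P.map (algebraMap F k) = ∏ σ : k ≃ₐ[F] k, (X - C (σ τ)))
    (hne : ∀ σ : k ≃ₐ[F] k, qq A B τ σ ≠ 0) :
    ((fPoly P A B).map (algebraMap F[X] (RatFunc F))).map (algebraMap (RatFunc F) (RatFunc k)) =
      ∏ σ, (X - C (algebraMap k[X] (RatFunc k) (th A B τ σ))) := by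
  have h1 := fPoly_map (algebraMap F k) P A B (fun σ : k ≃ₐ[F] k => σ τ) hP hne
  have h2 : (algebraMap (RatFunc F) (RatFunc k)).comp (algebraMap F[X] (RatFunc F)) =
      (algebraMap k[X] (RatFunc k)).comp (mapRingHom (algebraMap F k)) :=
    RingHom.ext fun p => ratAlg_algebraMap F k p
  rw [Polynomial.map_map, h2, ← Polynomial.map_map, h1, Polynomial.map_prod]
  refine Finset.prod_congr rfl fun σ _ => ?_
  rw [Polynomial.map_sub, Polynomial.map_X, Polynomial.map_C]
  rfl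

/-- primes outside `D W` -/
theorem par_good {n a g : ℕ} (hn : n ≠ 0) (P A B D : F[X]) (hB : B ≠ 0) (τ : k)
    (hP : P.map (algebraMap F k) = ∏ σ : k ≃ₐ[F] k, (X - C (σ τ)))
    (hne : ∀ σ : k ≃ₐ[F] k, qq A B τ σ ≠ 0)
    (hτ : ∀ σ ρ : k ≃ₐ[F] k, σ τ = ρ τ → σ = ρ)
    (hm : Fintype.card (k ≃ₐ[F] k) = n * g + 1) (ha : n ∣ a + 1)
    (Δ : (RatFunc F)[X]) (hloc : ∀ v : HeightOneSpectrum F[X], LocN n a (fPoly P A B) (D * B) v Δ)
    (w : HeightOneSpectrum k[X]) (hD : D.map (algebraMap F k) ∉ w.asIdeal)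
    (hW : (∏ σ, qq A B τ σ) ∉ w.asIdeal) :
    Ev (w.valuation (RatFunc k)) n (dd A B τ Δ 1) := by
  obtain ⟨v, hv⟩ := exists_below (F := F) w
  haveI := hv
  have hB' : algebraMap F[X] (RatFunc k) B ≠ 0 := by
    rw [IsScalarTower.algebraMap_apply F[X] (RatFunc F) (RatFunc k), Ne, map_eq_zero,
      FaithfulSMul.algebraMap_eq_zero_iff]
    exact hB
  have hbase : ∀ p : F[X], algebraMap F[X] (RatFunc k) p =
      algebraMap k[X] (RatFunc k) (p.map (algebraMap F k)) := by
    intro p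
    rw [IsScalarTower.algebraMap_apply F[X] k[X] (RatFunc k)]
    rfl
  refine place_good v w hn (ι := k ≃ₐ[F] k) ?_ ?_ (fPoly P A B) (D * B) Δ
    (fun σ => algebraMap k[X] (RatFunc k) (th A B τ σ))
    (fun σ => algebraMap k[X] (RatFunc k) (rr A B τ σ)) (fPoly_split P A B τ hP hne) (hloc v)
    (c' := algebraMap F[X] (RatFunc k) D) (b := algebraMap F[X] (RatFunc k) B)
    (e := (algebraMap F[X] (RatFunc k) B ^ g)⁻¹)
    (l := algebraMap k[X] (RatFunc k) (th A B τ 1)) hB' (inv_ne_zero (pow_ne_zero _ hB'))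
    ?_ ?_ ?_ ?_ ?_ 1
  · rw [hm]
    exact (Nat.coprime_mul_right_add_left 1 n g).2 (Nat.coprime_one_left n) |> fun h => by
      simpa [Nat.coprime_comm, add_comm, mul_comm] using h
  · rw [hm]
    have h1 : a * (n * g + 1) + 1 = n * (a * g) + (a + 1) := by ring
    rw [h1]
    exact dvd_add (Dvd.intro _ rfl) ha
  · rw [map_mul, hm, pow_succ, inv_pow, ← pow_mul, mul_comm g n]
    field_simp
  · rw [hbase]
    exact val_eq_one hD
  · intro σ
    show algebraMap k[X] (RatFunc k) (th A B τ σ) = algebraMap k[X] (RatFunc k) (th A B τ 1) +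
      algebraMap F[X] (RatFunc k) B * algebraMap k[X] (RatFunc k) (rr A B τ σ)
    rw [th_eq_rr A B τ σ, map_add, map_mul, hbase]
  · intro σ
    show w.valuation (RatFunc k) (algebraMap k[X] (RatFunc k) (rr A B τ σ)) ≤ 1
    rw [w.valuation_of_algebraMap]
    exact w.intValuation_le_one _
  · intro σ ρ h
    show w.valuation (RatFunc k) (algebraMap k[X] (RatFunc k) (rr A B τ σ) -
      algebraMap k[X] (RatFunc k) (rr A B τ ρ)) = 1
    rw [← map_sub]
    exact val_eq_one (good_rr A B τ hW hB hτ h)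

/-- primes dividing `D` -/
theorem par_inert {n : ℕ} (hn : n ≠ 0) (A B D : F[X]) (τ : k)
    (hcard : Nat.Coprime (Fintype.card (k ≃ₐ[F] k)) n)
    (hD : ∀ Q : F[X], Irreducible Q → Q ∣ D → Nat.Coprime Q.natDegree (Module.finrank F k))
    (Δ : (RatFunc F)[X]) (hne : dd A B τ Δ 1 ≠ 0) {y : RatFunc k}
    (hnorm : ∏ σ, dd A B τ Δ σ = y ^ n)
    (w : HeightOneSpectrum k[X]) (hw : D.map (algebraMap F k) ∈ w.asIdeal) :
    Ev (w.valuation (RatFunc k)) n (dd A B τ Δ 1) := by
  obtain ⟨v, hv⟩ := exists_below (F := F) w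
  obtain ⟨Q, hQ0, hQ⟩ := exists_gen v
  have hQirr : Irreducible Q := by
    have : (Ideal.span {Q}).IsPrime := by rw [← hQ]; exact v.isPrime
    exact ((Ideal.span_singleton_prime hQ0).1 this).irreducible
  have hQD : Q ∣ D := by
    rw [← Ideal.mem_span_singleton, ← hQ, mem_below hv]
    exact hw
  have hQk := irreducible_map_of_coprime (k := k) hQirr (hD Q hQirr hQD)
  have hQw : Q.map (algebraMap F k) ∈ w.asIdeal := by
    rw [← mem_below hv, hQ]; exact Ideal.mem_span_singleton_self _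
  have hspan := asIdeal_eq_span hQk hQw
  have hstab : ∀ (σ : k ≃ₐ[F] k) (p : k[X]), sB σ p ∈ w.asIdeal ↔ p ∈ w.asIdeal := by
    intro σ p
    rw [hspan, Ideal.mem_span_singleton, Ideal.mem_span_singleton]
    conv_lhs => rw [← sB_base σ Q]
    exact map_dvd_iff (sB σ)
  have hval : ∀ σ, w.valuation (RatFunc k) (dd A B τ Δ σ) =
      w.valuation (RatFunc k) (dd A B τ Δ 1) := by
    intro σ
    have h1 := val_transport σ w w (hstab σ) (dd A B τ Δ 1)
    rwa [sL_dd, mul_one] at h1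
  have h1 := congrArg (w.valuation (RatFunc k)) hnorm
  rw [map_prod, Finset.prod_congr rfl fun σ _ => hval σ, Finset.prod_const, Finset.card_univ,
    ← map_pow] at h1
  have hy0 : y ≠ 0 := by
    rintro rfl
    rw [zero_pow hn, map_zero, Valuation.zero_iff] at h1
    exact pow_ne_zero _ hne h1
  have h2 : Ev (w.valuation (RatFunc k)) n (dd A B τ Δ 1 ^ Fintype.card (k ≃ₐ[F] k)) := by
    refine ⟨pow_ne_zero _ hne, ?_⟩
    rw [h1]
    exact (Ev.npow hy0).2
  exact Ev.of_pow hne hcard h2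

end

end Pool.Agent.H83.TN
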