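import Pool.Agent.H83.TN.Irr

/-!
For `D B = -s ^ n` and for `D = P(c) (A - c B) ^ (n-1) s ^ n` the class `θ` comes from a point.
-/

set_option linter.unusedSectionVars false
set_option linter.style.haveILetI false

namespace Pool.Agent.H83.TN

open Polynomial WithZero IsDedekindDomain HeightOneSpectrum
open Pool.Agent.H83.T5 (sB sB_apply sB_C sB_X sB_base sB_mul sB_one sL sL_alg sL_aeval
  sL_ne_zero val_transport val_eq_one C_notMem prod_notMem polyAlg ratAlg isScalarTower_rat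
  ratAlg_algebraMap exists_below mem_below asIdeal_eq_span irreducible_map_of_coprime
  natDegree_dvd_of_factor val_gen exists_data)

section

variable {F k : Type*} [Field F] [Field k] [Algebra F k] [FiniteDimensional F k]

attribute [local instance] polyAlg ratAlg isScalarTower_rat

variable [Fintype (k ≃ₐ[F] k)] [DecidableEq (k ≃ₐ[F] k)]

/-- the value of `U - W / (A - c B)` -/
theorem value_point [Finite F] [Finite k] {n a g e0 : ℕ} (hn : n.Prime)
    (hF : n ∣ Nat.card F - 1) (ha : a + 1 = n * e0) {P A B : F[X]} {τ : k} (hB : B ≠ 0)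
    (hP : P.map (algebraMap F k) = ∏ σ : k ≃ₐ[F] k, (X - C (σ τ)))
    (hτ : ∀ σ ρ : k ≃ₐ[F] k, σ τ = ρ τ → σ = ρ)
    (hne : ∀ σ : k ≃ₐ[F] k, qq A B τ σ ≠ 0)
    (hgen : ∀ c : k, ∃ p : F[X], aeval τ p = c)
    (hm : Fintype.card (k ≃ₐ[F] k) = n * g + 1) (c : F)
    (hPc : P.eval c ≠ 0) (hAc : A - C c * B ≠ 0) (s : F[X]) (hs : s ≠ 0) :
    ∃ γ, AdjoinRoot.mk ((fPoly P A B).map (algebraMap F[X] (RatFunc F)))
      (C (-algebraMap F[X] (RatFunc F) (C (P.eval c) * (A - C c * B) ^ (n - 1) * s ^ n * B) ^ a) *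
        (X - C (algebraMap F[X] (RatFunc F) (wPoly P A B) /
          algebraMap F[X] (RatFunc F) (A - C c * B)))) =
      AdjoinRoot.mk ((fPoly P A B).map (algebraMap F[X] (RatFunc F))) X * γ ^ n := by
  -- the constant
  have hprod : ∏ σ : k ≃ₐ[F] k, (algebraMap F k c - σ τ) = algebraMap F k (P.eval c) := by
    have h1 := congrArg (eval (algebraMap F k c)) hP
    rw [eval_map_algebraMap, aeval_algebraMap_apply, eval_prod] at h1
    rw [← coe_aeval_eq_eval, h1]
    refine Finset.prod_congr rfl fun σ _ => ?_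
    rw [eval_sub, eval_X, eval_C]
  have hPc' : algebraMap F k (P.eval c) ≠ 0 := by
    rw [Ne, FaithfulSMul.algebraMap_eq_zero_iff]; exact hPc
  set p0 := algebraMap F k (P.eval c) with hp0
  set e : k := (algebraMap F k c - τ) / p0 with he
  have hcτ : algebraMap F k c - τ ≠ 0 := by
    have h1 := hPc'
    rw [← hprod] at h1
    exact Finset.prod_ne_zero_iff.1 h1 1 (Finset.mem_univ _)
  have he0 : e ≠ 0 := div_ne_zero hcτ hPc'
  have hnorm : ∏ σ : k ≃ₐ[F] k, σ e = ((p0 ^ g)⁻¹) ^ n := by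
    have h2 : ∀ σ : k ≃ₐ[F] k, σ e = (algebraMap F k c - σ τ) / p0 := by
      intro σ
      rw [he, map_div₀, map_sub, AlgEquiv.commutes, hp0, AlgEquiv.commutes]
    rw [Finset.prod_congr rfl fun σ _ => h2 σ, Finset.prod_div_distrib, hprod,
      Finset.prod_const, Finset.card_univ, hm, pow_succ, inv_pow, ← pow_mul, mul_comm g n]
    field_simp
  obtain ⟨y, hy0, hy⟩ := root_of_prod hn.ne_zero hF hm he0 hnorm
  have hcy : algebraMap F k c - τ = p0 * y ^ n := by
    rw [← hy, he]; field_simp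
  -- the computation in `k(x)`
  set ι := algebraMap k[X] (RatFunc k) with hι
  set θ := ι (th A B τ (1 : k ≃ₐ[F] k)) with hθ
  have hbase : ∀ p : F[X], algebraMap (RatFunc F) (RatFunc k) (algebraMap F[X] (RatFunc F) p) =
      ι (p.map (algebraMap F k)) := ratAlg_algebraMap F k
  have hWθ : ι ((wPoly P A B).map (algebraMap F k)) =
      ι (qq A B τ (1 : k ≃ₐ[F] k)) * θ := by
    rw [hθ, ← map_mul, qq_mul_th, prod_qq A B τ P hP]
  have hA0 : ι ((A - C c * B).map (algebraMap F k)) ≠ 0 := by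
    rw [hι, Ne, FaithfulSMul.algebraMap_eq_zero_iff, Polynomial.map_eq_zero]; exact hAc
  have hs0 : ι (s.map (algebraMap F k)) ≠ 0 := by
    rw [hι, Ne, FaithfulSMul.algebraMap_eq_zero_iff, Polynomial.map_eq_zero]; exact hs
  have h5 : ι (qq A B τ (1 : k ≃ₐ[F] k)) = ι ((A - C c * B).map (algebraMap F k)) +
      ι (C (algebraMap F k c - τ)) * ι (B.map (algebraMap F k)) := by
    rw [← map_mul, ← map_add, qq, Polynomial.map_sub, Polynomial.map_mul, Polynomial.map_C, C_sub,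
      AlgEquiv.one_apply]
    congr 1
    ring
  obtain ⟨j, hj⟩ : ∃ j, n = j + 1 := ⟨n - 1, by have := hn.pos; omega⟩
  set c0 := ι ((C (P.eval c) * (A - C c * B) ^ (n - 1) * s ^ n * B).map (algebraMap F k))
    with hc0
  have h6 : c0 = ι (C p0) * ι ((A - C c * B).map (algebraMap F k)) ^ (n - 1) *
      ι (s.map (algebraMap F k)) ^ n * ι (B.map (algebraMap F k)) := by
    rw [hc0, Polynomial.map_mul, Polynomial.map_mul, Polynomial.map_mul, Polynomial.map_pow,
      Polynomial.map_pow, Polynomial.map_C, map_mul, map_mul, map_mul, map_pow, map_pow]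
  have h7 : ι (C (algebraMap F k c - τ)) = ι (C p0) * ι (C y) ^ n := by
    rw [hcy, C_mul, C_pow, map_mul, map_pow]
  refine transfer hB hP hτ hne hgen (z := c0 ^ e0 * ι (C y) /
    (ι ((A - C c * B).map (algebraMap F k)) * ι (s.map (algebraMap F k)))) ?_
  rw [dd, dd, aeval_X, map_mul, aeval_C, map_sub, aeval_X, aeval_C, map_neg, map_pow, map_div₀,
    hbase, hbase, hbase, ← hc0, hWθ]
  rw [show (algebraMap k[X] (RatFunc k)) (th A B τ (1 : k ≃ₐ[F] k)) = θ from rfl]
  set α := ι ((A - C c * B).map (algebraMap F k)) with hα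
  set b := ι (B.map (algebraMap F k)) with hb
  set s' := ι (s.map (algebraMap F k)) with hs'
  set p := ι (C p0) with hp
  set y' := ι (C y) with hy'
  have h8 : θ - ι (qq A B τ (1 : k ≃ₐ[F] k)) * θ / α = -(p * y' ^ n * b * θ / α) := by
    rw [h5, h7]
    field_simp
    ring
  have h9 : (c0 ^ e0 * y' / (α * s')) ^ n = c0 ^ (a + 1) * y' ^ n / (α * s') ^ n := by
    rw [div_pow, mul_pow, ← pow_mul, ha, mul_comm e0 n]
  have h10 : c0 ^ (a + 1) = c0 ^ a * c0 := pow_succ _ _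
  rw [h8, h9, h10]
  rw [show c0 ^ a * c0 = c0 ^ a * (p * α ^ (n - 1) * s' ^ n * b) by rw [← h6]]
  rw [hj, Nat.add_sub_cancel, mul_pow α s']
  field_simp
  ring

end

section

variable {F : Type*} [Field F]

theorem natDegree_lin (φ : F[X]) : (C φ * X - 1 : F[X][X]).natDegree ≤ 1 := by
  refine (natDegree_sub_le _ _).trans ?_
  rw [natDegree_one]
  refine max_le ?_ zero_le_one
  refine (natDegree_C_mul_le _ _).trans ?_
  rw [natDegree_X]

theorem natDegree_lin_pow (φ : F[X]) (i : ℕ) : ((C φ * X - 1 : F[X][X]) ^ i).natDegree ≤ i := by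
  have h1 := natDegree_pow_le_of_le (p := (C φ * X - 1 : F[X][X])) i (natDegree_lin φ)
  rwa [mul_one] at h1

theorem natDegree_CX_pow (B : F[X]) (i : ℕ) : ((C B * X : F[X][X]) ^ i).natDegree ≤ i := by
  have h2 : (C B * X : F[X][X]).natDegree ≤ 1 := by
    refine (natDegree_C_mul_le _ _).trans ?_
    rw [natDegree_X]
  have h1 := natDegree_pow_le_of_le (p := (C B * X : F[X][X])) i h2
  rwa [mul_one] at h1

theorem hPoly_natDegree_le (P A B : F[X]) : (hPoly P A B).natDegree ≤ P.natDegree := by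
  refine natDegree_sum_le_of_forall_le _ _ fun i hi => ?_
  have hi' : i ≤ P.natDegree := Nat.lt_succ_iff.1 (Finset.mem_range.1 hi)
  rw [mul_assoc]
  refine (natDegree_C_mul_le _ _).trans ((natDegree_mul_le).trans ?_)
  have h1 := natDegree_lin_pow A i
  have h2 := natDegree_CX_pow B (P.natDegree - i)
  omega

theorem hPoly_coeff (P A B : F[X]) : (hPoly P A B).coeff P.natDegree = wPoly P A B := by
  rw [hPoly, finsetSum_coeff, wPoly]
  refine Finset.sum_congr rfl fun i hi => ?_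
  have hi' : i ≤ P.natDegree := Nat.lt_succ_iff.1 (Finset.mem_range.1 hi)
  have h0 : C (C (P.coeff i)) * (C A * X - 1) ^ i * (C B * X) ^ (P.natDegree - i) =
      C (C (P.coeff i) * B ^ (P.natDegree - i)) * ((C A * X - 1) ^ i * X ^ (P.natDegree - i)) := by
    rw [mul_pow, C_mul, C_pow]; ring
  rw [h0, coeff_C_mul, coeff_mul_X_pow', if_pos (Nat.sub_le _ _), Nat.sub_sub_self hi']
  have h1 := coeff_pow_of_natDegree_le (p := (C A * X - 1 : F[X][X])) (m := i) (natDegree_lin A)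
  rw [mul_one] at h1
  rw [h1, coeff_sub, coeff_C_mul, coeff_X_one, mul_one, coeff_one, if_neg one_ne_zero, sub_zero]
  ring

theorem hPoly_eval₂ {M : Type*} [Field M] (ι : F[X] →+* M) (P A B : F[X]) (t : M)
    (h : ι A - ι B * t ≠ 0) :
    (hPoly P A B).eval₂ ι (ι A - ι B * t)⁻¹ =
      (ι B * (ι A - ι B * t)⁻¹) ^ P.natDegree * P.eval₂ (ι.comp C) t := by
  have h1 : ι A * (ι A - ι B * t)⁻¹ - 1 = t * (ι B * (ι A - ι B * t)⁻¹) := by
    field_simp
    ring
  rw [hPoly, eval₂_finsetSum, eval₂_eq_sum_range, Finset.mul_sum]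
  refine Finset.sum_congr rfl fun i hi => ?_
  have hi' : i ≤ P.natDegree := Nat.lt_succ_iff.1 (Finset.mem_range.1 hi)
  rw [eval₂_mul, eval₂_mul, eval₂_pow, eval₂_pow, eval₂_sub, eval₂_mul, eval₂_mul, eval₂_C,
    eval₂_C, eval₂_C, eval₂_X, eval₂_one, h1, mul_pow t, RingHom.comp_apply]
  have h2 : (ι B * (ι A - ι B * t)⁻¹) ^ P.natDegree =
      (ι B * (ι A - ι B * t)⁻¹) ^ i * (ι B * (ι A - ι B * t)⁻¹) ^ (P.natDegree - i) := by
    rw [← pow_add, Nat.add_sub_cancel' hi']
  rw [h2]; ring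

theorem hPoly_lead (P A B : F[X]) (hW : wPoly P A B ≠ 0) :
    (hPoly P A B).natDegree = P.natDegree ∧ (hPoly P A B).leadingCoeff = wPoly P A B := by
  have hnd : (hPoly P A B).natDegree = P.natDegree := by
    refine le_antisymm (hPoly_natDegree_le P A B) (le_natDegree_of_ne_zero ?_)
    rw [hPoly_coeff]; exact hW
  exact ⟨hnd, by rw [leadingCoeff, hnd, hPoly_coeff]⟩

theorem fPoly_monic (P A B : F[X]) (hW : wPoly P A B ≠ 0) : (fPoly P A B).Monic := by
  refine monic_integralNormalization ?_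
  intro h0
  have h1 := (hPoly_lead P A B hW).2
  rw [h0, leadingCoeff_zero] at h1
  exact hW h1.symm

theorem fPoly_natDegree (P A B : F[X]) (hW : wPoly P A B ≠ 0) :
    (fPoly P A B).natDegree = P.natDegree := by
  rw [fPoly, natDegree_integralNormalization]
  exact (hPoly_lead P A B hW).1

theorem fPoly_eval₂ {M : Type*} [Field M] (ι : F[X] →+* M) (P A B : F[X])
    (hdeg : 1 ≤ P.natDegree) (hW : wPoly P A B ≠ 0) (t : M) (h : ι A - ι B * t ≠ 0) :
    (fPoly P A B).eval₂ ι (ι (wPoly P A B) / (ι A - ι B * t)) *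
      (ι A - ι B * t) ^ P.natDegree =
      ι (wPoly P A B) ^ (P.natDegree - 1) * ι B ^ P.natDegree * P.eval₂ (ι.comp C) t := by
  obtain ⟨hnd, hlc⟩ := hPoly_lead P A B hW
  have h1 := integralNormalization_eval₂_leadingCoeff_mul (p := hPoly P A B)
    (by rw [hnd]; exact hdeg) ι (ι A - ι B * t)⁻¹
  rw [hnd, hlc, hPoly_eval₂ ι P A B t h, ← div_eq_mul_inv] at h1
  rw [fPoly, h1]
  have h2 : ((ι A - ι B * t)⁻¹) ^ P.natDegree * (ι A - ι B * t) ^ P.natDegree = 1 := by
    rw [← mul_pow, inv_mul_cancel₀ h, one_pow]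
  rw [mul_pow]
  linear_combination (ι (wPoly P A B) ^ (P.natDegree - 1) * ι B ^ P.natDegree *
    P.eval₂ (ι.comp C) t) * h2

theorem fPoly_eval_zero (P A B : F[X]) (hW : wPoly P A B ≠ 0) (hP : P.Monic)
    (hpos : 1 ≤ P.natDegree) :
    (fPoly P A B).eval 0 = (-1) ^ P.natDegree * (wPoly P A B) ^ (P.natDegree - 1) := by
  have h1 := hPoly_lead P A B hW
  have h2 : (hPoly P A B).coeff 0 = (-1) ^ P.natDegree := by
    rw [coeff_zero_eq_eval_zero, hPoly, eval_finsetSum, Finset.sum_range_succ,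
      Finset.sum_eq_zero]
    · rw [eval_mul, eval_mul, eval_pow, eval_sub, eval_mul, eval_C, eval_C, eval_X, eval_one,
        mul_zero, zero_sub, hP.coeff_natDegree, Nat.sub_self, pow_zero, eval_one,
        C_1]
      ring
    · intro i hi
      have h3 : eval 0 ((C B * X : F[X][X]) ^ (P.natDegree - i)) = 0 := by
        rw [eval_pow, eval_mul, eval_X, mul_zero,
          zero_pow (by have := Finset.mem_range.1 hi; omega)]
      rw [eval_mul, h3, mul_zero]
  rw [← coeff_zero_eq_eval_zero, fPoly,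
    integralNormalization_coeff_ne_natDegree (by rw [h1.1]; omega), h1.1, h1.2, h2]
  rw [Nat.sub_zero]

/-- the model `D z ^ n = P(t) (A - B t) ^ (n - 1)` -/
theorem model_iff {M : Type*} [Field M] (ι : F[X] →+* M) (P A B D : F[X]) {n g : ℕ} (hn : 1 ≤ n)
    (hdeg : P.natDegree = n * g + 1) (hW : wPoly P A B ≠ 0) (hW' : ι (wPoly P A B) ≠ 0)
    (hB' : ι B ≠ 0) (t z : M) (h : ι A - ι B * t ≠ 0) :
    ι D * z ^ n = P.eval₂ (ι.comp C) t * (ι A - ι B * t) ^ (n - 1) ↔
      ι (D * B) * ((ι (wPoly P A B) * ι B) ^ g * z / (ι A - ι B * t) ^ (g + 1)) ^ n =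
        (fPoly P A B).eval₂ ι (ι (wPoly P A B) / (ι A - ι B * t)) := by
  have h1 := fPoly_eval₂ ι P A B (by omega) hW t h
  rw [hdeg, Nat.add_sub_cancel] at h1
  set f0 := (fPoly P A B).eval₂ ι (ι (wPoly P A B) / (ι A - ι B * t)) with hf0
  set p := P.eval₂ (ι.comp C) t with hp
  set s := ι A - ι B * t with hs
  set W := ι (wPoly P A B) with hWd
  set b := ι B with hb
  rw [map_mul, ← hb]
  set d := ι D with hd
  have hsn : s ^ (n * g + 1) ≠ 0 := pow_ne_zero _ h
  have h3 : f0 = W ^ (n * g) * b ^ (n * g + 1) * p / s ^ (n * g + 1) := by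
    rw [eq_div_iff hsn]; exact h1
  have h4 : d * b * ((W * b) ^ g * z / s ^ (g + 1)) ^ n =
      W ^ (n * g) * b ^ (n * g + 1) * (d * z ^ n) / (s ^ (n * g + 1) * s ^ (n - 1)) := by
    have h5 : (s ^ (g + 1)) ^ n = s ^ (n * g + 1) * s ^ (n - 1) := by
      rw [← pow_mul, ← pow_add]
      congr 1
      obtain ⟨j, rfl⟩ : ∃ j, n = j + 1 := ⟨n - 1, by omega⟩
      rw [Nat.add_sub_cancel]
      ring
    have h6 : ((W * b) ^ g * z) ^ n = W ^ (n * g) * b ^ (n * g) * z ^ n := by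
      rw [mul_pow, ← pow_mul, mul_comm g n, mul_pow]
    rw [div_pow, h5, h6, pow_succ b (n * g)]
    ring
  have hsn' : s ^ (n - 1) ≠ 0 := pow_ne_zero _ h
  have hwb : W ^ (n * g) * b ^ (n * g + 1) ≠ 0 :=
    mul_ne_zero (pow_ne_zero _ hW') (pow_ne_zero _ hB')
  rw [h3, h4, div_eq_div_iff (mul_ne_zero hsn hsn') hsn]
  constructor
  · intro h5
    rw [h5]; ring
  · intro h5
    refine mul_left_cancel₀ (mul_ne_zero hwb hsn) ?_
    linear_combination h5

end

section

variable {F : Type} [Field F] [Finite F]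

theorem finite_value {n a g e0 : ℕ} (hn : n.Prime) (hF : n ∣ Nat.card F - 1)
    (ha : a + 1 = n * e0) {P A B : F[X]} (hP : P.Monic) (hirr : Irreducible P)
    (hdeg : P.natDegree = n * g + 1) (hB : B ≠ 0) (hW : wPoly P A B ≠ 0) (c : F)
    (hPc : P.eval c ≠ 0) (hAc : A - C c * B ≠ 0) (s : F[X]) (hs : s ≠ 0) :
    ∃ γ, AdjoinRoot.mk ((fPoly P A B).map (algebraMap F[X] (RatFunc F)))
      (C (-algebraMap F[X] (RatFunc F) (C (P.eval c) * (A - C c * B) ^ (n - 1) * s ^ n * B) ^ a) *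
        (X - C (algebraMap F[X] (RatFunc F) (wPoly P A B) /
          algebraMap F[X] (RatFunc F) (A - C c * B)))) =
      AdjoinRoot.mk ((fPoly P A B).map (algebraMap F[X] (RatFunc F))) X * γ ^ n := by
  obtain ⟨k, _, _, _, _, _, _, τ, hPs, hτ, hgen, hcard, hrank⟩ := exists_data hP hirr
  have hq0 : ∀ σ : k ≃ₐ[F] k, qq A B τ σ ≠ 0 := by
    intro σ h0
    have h1 : (wPoly P A B).map (algebraMap F k) = 0 := by
      rw [prod_qq A B τ P hPs, ← qq_mul_th A B τ σ, h0, zero_mul]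
    rw [Polynomial.map_eq_zero] at h1
    exact hW h1
  exact value_point hn hF ha hB hPs hτ hq0 hgen (by rw [hcard, hrank, hdeg]) c hPc hAc s hs

end

end Pool.Agent.H83.TN
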