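import Pool.Agent.H83.TN.Core
import Pool.Agent.H83.TN.Det

/-!
Residue classes modulo `W` and the count of the twists with trivial Selmer group.
-/

set_option linter.unusedSectionVars false
set_option linter.style.haveILetI false

namespace Pool.Agent.H83.TN

open Polynomial WithZero IsDedekindDomain HeightOneSpectrum
open Pool.Agent.H94.LT (place)
open Pool.Agent.H83.T5 (sB sB_apply sB_C sB_X sB_base sB_mul sB_one sL sL_alg sL_aeval
  sL_ne_zero val_transport val_eq_one C_notMem prod_notMem polyAlg ratAlg isScalarTower_rat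
  ratAlg_algebraMap exists_below mem_below asIdeal_eq_span irreducible_map_of_coprime
  natDegree_dvd_of_factor val_gen)

section

variable {F k : Type*} [Field F] [Field k] [Algebra F k] [FiniteDimensional F k]

attribute [local instance] polyAlg ratAlg isScalarTower_rat

variable [Fintype (k ≃ₐ[F] k)] [DecidableEq (k ≃ₐ[F] k)]

/-- the residue field of `k[x]` at `π` is the residue field of `F[x]` at `w` -/
theorem exists_resid {w : F[X]} (hw : Irreducible w) {π : k[X]} (hπ : Irreducible π)
    (hπw : π ∣ w.map (algebraMap F k)) (hdeg : w.natDegree = Module.finrank F k * π.natDegree)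
    (y : k[X]) : ∃ z : F[X], π ∣ y - z.map (algebraMap F k) := by
  haveI : Fact (Irreducible π) := ⟨hπ⟩
  haveI : Fact (Irreducible w) := ⟨hw⟩
  haveI : FiniteDimensional k (AdjoinRoot π) := (AdjoinRoot.powerBasis hπ.ne_zero).finite
  haveI : FiniteDimensional F (AdjoinRoot π) := FiniteDimensional.trans F k _
  haveI : FiniteDimensional F (AdjoinRoot w) := (AdjoinRoot.powerBasis hw.ne_zero).finite
  set E := AdjoinRoot π with hE
  have heval : ∀ z : F[X], aeval (AdjoinRoot.root π) z =
      AdjoinRoot.mk π (z.map (algebraMap F k)) := by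
    intro z
    rw [← aeval_map_algebraMap k, AdjoinRoot.aeval_eq]
  have hroot : aeval (AdjoinRoot.root π) w = 0 := by
    rw [heval, AdjoinRoot.mk_eq_zero]
    exact hπw
  set f : AdjoinRoot w →ₐ[F] E :=
    AdjoinRoot.liftAlgHom w (Algebra.ofId F E) (AdjoinRoot.root _) hroot with hf
  have hfin : Module.finrank F (AdjoinRoot w) = Module.finrank F E := by
    rw [← Module.finrank_mul_finrank F k E]
    have h1 : Module.finrank F (AdjoinRoot w) = w.natDegree := by
      rw [(AdjoinRoot.powerBasis hw.ne_zero).finrank, AdjoinRoot.powerBasis_dim]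
    have h2 : Module.finrank k E = π.natDegree := by
      rw [(AdjoinRoot.powerBasis hπ.ne_zero).finrank, AdjoinRoot.powerBasis_dim]
    rw [h1, h2, hdeg]
  have hinj : Function.Injective f.toLinearMap := f.toRingHom.injective
  have hsurj : Function.Surjective f.toLinearMap :=
    (LinearMap.injective_iff_surjective_of_finrank_eq_finrank hfin).1 hinj
  obtain ⟨z', hz'⟩ := hsurj (AdjoinRoot.mk _ y)
  obtain ⟨z, rfl⟩ := AdjoinRoot.mk_surjective z'
  refine ⟨z, ?_⟩
  have h3 : f (AdjoinRoot.mk w z) = AdjoinRoot.mk _ y := hz'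
  have h4 : f (AdjoinRoot.mk w z) = aeval (AdjoinRoot.root π) z := by
    rw [hf]
    exact AdjoinRoot.liftAlgHom_mk w (Algebra.ofId F E) _ _ z
  rw [h4, heval, AdjoinRoot.mk_eq_mk, dvd_sub_comm] at h3
  exact h3

/-- the reduction `F[x]/(W) → k[x]/(π)` -/
noncomputable def red {W : F[X]} {π : k[X]} (h : π ∣ W.map (algebraMap F k)) :
    AdjoinRoot W →+* AdjoinRoot π := AdjoinRoot.map (algebraMap F k) W π h

theorem red_mk {W : F[X]} {π : k[X]} (h : π ∣ W.map (algebraMap F k)) (z : F[X]) :
    red h (AdjoinRoot.mk W z) = AdjoinRoot.mk π (z.map (algebraMap F k)) := by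
  have h1 : (red h).comp (AdjoinRoot.mk W) =
      (AdjoinRoot.mk π).comp (mapRingHom (algebraMap F k)) := by
    refine Polynomial.ringHom_ext (fun a => ?_) ?_
    · rw [RingHom.comp_apply, RingHom.comp_apply, AdjoinRoot.mk_C, red, AdjoinRoot.map_of,
        coe_mapRingHom, Polynomial.map_C, AdjoinRoot.mk_C]
    · rw [RingHom.comp_apply, RingHom.comp_apply, AdjoinRoot.mk_X, red, AdjoinRoot.map_root,
        coe_mapRingHom, Polynomial.map_X, AdjoinRoot.mk_X]
  exact RingHom.congr_fun h1 z

namespace FacData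

variable {P A B : F[X]} {τ : k} {ι : Type} [Fintype ι] {w : ι → F[X]} {π : ι → k[X]}

theorem dvdW (h : FacData P A B τ ι w π) (i : ι) : π i ∣ (wPoly P A B).map (algebraMap F k) := by
  rw [prod_qq A B τ P h.hP, ← qq_mul_th A B τ 1]
  exact Dvd.dvd.mul_right (h.hπq i) _

/-- every system of units modulo the `π_i` comes from a unit modulo `W` -/
theorem exists_unit (h : FacData P A B τ ι w π) (y : ∀ i, (AdjoinRoot (π i))ˣ) :
    ∃ b : (AdjoinRoot (wPoly P A B))ˣ, ∀ i, red (h.dvdW i) (b : AdjoinRoot (wPoly P A B)) =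
      (y i : AdjoinRoot (π i)) := by
  have h1 : ∀ i, ∃ z : F[X], AdjoinRoot.mk (π i) (z.map (algebraMap F k)) = y i := by
    intro i
    obtain ⟨q, hq⟩ := AdjoinRoot.mk_surjective (y i : AdjoinRoot (π i))
    obtain ⟨z, hz⟩ := exists_resid (h.hw i) (h.hπ i) (h.hπw i) (h.degree i) q
    refine ⟨z, ?_⟩
    rw [← hq, eq_comm, AdjoinRoot.mk_eq_mk]
    exact hz
  choose z hz using h1
  obtain ⟨x, hx⟩ := Ideal.exists_forall_sub_mem_ideal (I := fun i => Ideal.span {w i})
    (fun i j hij => by
      show IsCoprime (Ideal.span {w i}) (Ideal.span {w j})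
      rw [Ideal.isCoprime_span_singleton_iff]
      exact h.hcop i j hij) z
  have hxy : ∀ i, AdjoinRoot.mk (π i) (x.map (algebraMap F k)) = y i := by
    intro i
    rw [← hz i, AdjoinRoot.mk_eq_mk, ← Polynomial.map_sub]
    exact (h.hπw i).trans (Polynomial.map_dvd _ (Ideal.mem_span_singleton.1 (hx i)))
  have hcop : IsCoprime x (wPoly P A B) := by
    rw [h.hW]
    refine IsCoprime.prod_right fun i _ => ?_
    refine ((h.hw i).coprime_iff_not_dvd.2 fun hd => ?_).symm
    haveI : Fact (Irreducible (π i)) := ⟨h.hπ i⟩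
    have h2 : AdjoinRoot.mk (π i) (x.map (algebraMap F k)) = 0 := by
      rw [AdjoinRoot.mk_eq_zero]
      exact (h.hπw i).trans (Polynomial.map_dvd _ hd)
    rw [hxy i] at h2
    exact (y i).ne_zero h2
  obtain ⟨s, t, hst⟩ := hcop
  have h3 := congrArg (AdjoinRoot.mk (wPoly P A B)) hst
  rw [map_add, map_mul, map_mul, AdjoinRoot.mk_self, mul_zero, add_zero, map_one] at h3
  refine ⟨⟨AdjoinRoot.mk _ x, AdjoinRoot.mk _ s, by rw [mul_comm]; exact h3, h3⟩, fun i => ?_⟩
  rw [← hxy i]
  exact red_mk (h.dvdW i) x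

end FacData

/-- the relations satisfied by the exponents of a Selmer element -/
def Rel {P A B : F[X]} {τ : k} {ι : Type} [Fintype ι] {w : ι → F[X]} {π : ι → k[X]}
    (h : FacData P A B τ ι w π) (n a : ℕ) (D : F[X]) (s : ι → ℕ) : Prop :=
  ∀ i, ∃ x : k[X], (∏ j, tt F (π j) ^ s j) ^ (n - 1) *
    (-((D * B).map (algebraMap F k) ^ a * th A B τ (1 : k ≃ₐ[F] k))) ^ s i * x ^ n - 1 ∈
      (place (π i) (h.hπ i)).asIdeal

theorem count [Finite F] [Finite k] {n a e0 : ℕ} (hn : n.Prime) (hF : n ∣ Nat.card F - 1)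
    (ha : a + 1 = n * e0) {P A B : F[X]} {τ : k} {r : ℕ} {w : Fin r → F[X]} {π : Fin r → k[X]}
    (h : FacData P A B τ (Fin r) w π) :
    (n - 1) ^ r * Nat.card (AdjoinRoot (wPoly P A B))ˣ ≤ n ^ r *
      Nat.card {b : (AdjoinRoot (wPoly P A B))ˣ // ∀ D : F[X],
        AdjoinRoot.mk (wPoly P A B) D = (b : AdjoinRoot (wPoly P A B)) →
        ∀ s : Fin r → ℕ, Rel h n a D s → ∀ i, n ∣ s i} := by
  classical
  haveI : Fact n.Prime := ⟨hn⟩
  haveI hfact : ∀ i, Fact (Irreducible (π i)) := fun i => ⟨h.hπ i⟩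
  haveI hfin : ∀ i, Finite (AdjoinRoot (π i)) := by
    intro i
    haveI : FiniteDimensional k (AdjoinRoot (π i)) :=
      (AdjoinRoot.powerBasis (h.hπ i).ne_zero).finite
    exact Module.finite_of_finite k
  haveI : FiniteDimensional F (AdjoinRoot (wPoly P A B)) :=
    (AdjoinRoot.powerBasis h.W_ne).finite
  haveI : Finite (AdjoinRoot (wPoly P A B)) := Module.finite_of_finite F
  have hk := card_dvd F k hF
  -- characters
  have hχ : ∀ i, ∃ χ : (AdjoinRoot (π i))ˣ →* Multiplicative (ZMod n), Function.Surjective χ ∧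
      ∀ x, χ x = 1 ↔ ∃ y, x = y ^ n := fun i =>
    exists_char (AdjoinRoot (π i)) hn.ne_zero (card_dvd k (AdjoinRoot (π i)) hk)
  choose χ hχs hχk using hχ
  set c : ∀ i, (AdjoinRoot (π i))ˣ → ZMod n := fun i x => Multiplicative.toAdd (χ i x) with hc
  have hcmul : ∀ i x y, c i (x * y) = c i x + c i y := by
    intro i x y; simp only [hc]; rw [map_mul, toAdd_mul]
  have hcpow : ∀ i x (m : ℕ), c i (x ^ m) = m * c i x := by
    intro i x m; simp only [hc]; rw [map_pow, toAdd_pow, nsmul_eq_mul]
  have hcone : ∀ i, c i 1 = 0 := by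
    intro i; simp only [hc]; rw [map_one, toAdd_one]
  have hcprod : ∀ i (f : Fin r → (AdjoinRoot (π i))ˣ), c i (∏ j, f j) = ∑ j, c i (f j) := by
    intro i f
    simp only [hc]
    rw [map_prod, toAdd_prod]
  -- reduction of units
  set rU : ∀ i, (AdjoinRoot (wPoly P A B))ˣ →* (AdjoinRoot (π i))ˣ := fun i =>
    Units.map ((red (h.dvdW i) : AdjoinRoot (wPoly P A B) →+* AdjoinRoot (π i)) :
      AdjoinRoot (wPoly P A B) →* AdjoinRoot (π i)) with hrU
  have hmkne : ∀ i (p : k[X]), p ∉ (place (π i) (h.hπ i)).asIdeal →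
      AdjoinRoot.mk (π i) p ≠ 0 := by
    intro i p hp h0
    apply hp
    show p ∈ Ideal.span {π i}
    rw [Ideal.mem_span_singleton, ← AdjoinRoot.mk_eq_zero]
    exact h0
  set tU : ∀ i, Fin r → (AdjoinRoot (π i))ˣ := fun i j =>
    Units.mk0 (AdjoinRoot.mk (π i) (tt F (π j))) (hmkne i _ (h.tt_notMem i j)) with htU
  set θU : ∀ i, (AdjoinRoot (π i))ˣ := fun i =>
    Units.mk0 (AdjoinRoot.mk (π i) (-th A B τ (1 : k ≃ₐ[F] k))) (hmkne i _ (by
      rw [neg_mem_iff]
      exact bad_th_self A B τ (mem_of_val (h.val_qq i)) h.hAB h.hτ)) with hθU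
  set BU : ∀ i, (AdjoinRoot (π i))ˣ := fun i =>
    Units.mk0 (AdjoinRoot.mk (π i) (B.map (algebraMap F k)))
      (hmkne i _ (h.B_notMem _ (h.prod_mem i))) with hBU
  -- the matrix
  set M : Matrix (Fin r) (Fin r) (ZMod n) := fun i j =>
    -c i (tU i j) + (if i = j then c i (θU i) else 0) with hM
  -- the homomorphism
  let f : (AdjoinRoot (wPoly P A B))ˣ →* Multiplicative (Fin r → ZMod n) :=
    { toFun := fun b => Multiplicative.ofAdd fun i => c i (rU i b)
      map_one' := by
        have : (fun i => c i (rU i 1)) = (0 : Fin r → ZMod n) := by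
          funext i
          rw [map_one, hcone]; rfl
        rw [this]; rfl
      map_mul' := fun b b' => by
        have : (fun i => c i (rU i (b * b'))) =
            (fun i => c i (rU i b)) + (fun i => c i (rU i b')) := by
          funext i
          rw [map_mul, hcmul]; rfl
        rw [this]; rfl }
  have hf : Function.Surjective f := by
    intro v
    choose y hy using fun i => hχs i (Multiplicative.ofAdd (Multiplicative.toAdd v i))
    obtain ⟨b, hb⟩ := h.exists_unit y
    refine ⟨b, ?_⟩
    show Multiplicative.ofAdd (fun i => c i (rU i b)) = v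
    have h1 : ∀ i, rU i b = y i := fun i => Units.ext (hb i)
    have h2 : (fun i => c i (rU i b)) = Multiplicative.toAdd v := by
      funext i
      rw [h1 i]
      simp only [hc]
      rw [hy i]
      rfl
    rw [h2]
    exact ofAdd_toAdd v
  set S : Set (Multiplicative (Fin r → ZMod n)) := {v | (M + Matrix.diagonal
    (fun i => -(Multiplicative.toAdd v i) - c i (BU i))).det ≠ 0} with hS
  have hcardS : (n - 1) ^ r ≤ Nat.card S := by
    have h1 := card_det r M
    rw [Nat.card_zmod] at h1
    refine h1.trans ?_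
    refine Nat.card_le_card_of_injective
      (fun d : {d : Fin r → ZMod n // (M + Matrix.diagonal d).det ≠ 0} =>
        (⟨Multiplicative.ofAdd fun i => -(d.1 i) - c i (BU i), ?_⟩ : S)) ?_
    · show (M + Matrix.diagonal (fun i => -(-(d.1 i) - c i (BU i)) - c i (BU i))).det ≠ 0
      have h2 : (fun i => -(-(d.1 i) - c i (BU i)) - c i (BU i)) = d.1 := by
        funext i; ring
      rw [h2]
      exact d.2
    · rintro ⟨d, hd⟩ ⟨d', hd'⟩ hdd
      apply Subtype.ext
      funext i
      have h3 := congrFun (congrArg Multiplicative.toAdd (congrArg Subtype.val hdd)) i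
      simp only [toAdd_ofAdd] at h3
      linear_combination -h3
  have hcount := card_preimage f hf S
  have hcardH : Nat.card (Multiplicative (Fin r → ZMod n)) = n ^ r := by
    rw [Nat.card_congr Multiplicative.toAdd, Nat.card_fun, Nat.card_zmod, Nat.card_fin]
  rw [hcardH] at hcount
  refine (Nat.mul_le_mul_right _ hcardS).trans ?_
  rw [← hcount]
  refine Nat.mul_le_mul_left _ ?_
  refine Nat.card_le_card_of_injective
    (fun b : {b : (AdjoinRoot (wPoly P A B))ˣ // f b ∈ S} =>
      (⟨b.1, ?_⟩ : {b : (AdjoinRoot (wPoly P A B))ˣ // ∀ D : F[X],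
        AdjoinRoot.mk (wPoly P A B) D = (b : AdjoinRoot (wPoly P A B)) →
        ∀ s : Fin r → ℕ, Rel h n a D s → ∀ i, n ∣ s i})) ?_
  swap
  · rintro ⟨b, hb⟩ ⟨b', hb'⟩ hbb
    apply Subtype.ext
    have h9 := Subtype.ext_iff.1 hbb
    exact h9
  · obtain ⟨b, hb⟩ := b
    intro D hDb s hrel
    have hdet : (M + Matrix.diagonal (fun i => -(c i (rU i b)) - c i (BU i))).det ≠ 0 := hb
    have ha' : (a : ZMod n) = -1 := by
      have h1 := congrArg (fun m : ℕ => (m : ZMod n)) ha
      push_cast at h1
      rw [ZMod.natCast_self, zero_mul] at h1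
      linear_combination h1
    have hn' : ((n - 1 : ℕ) : ZMod n) = -1 := by
      rw [Nat.cast_sub hn.one_lt.le, ZMod.natCast_self, Nat.cast_one, zero_sub]
    have hmul : (M + Matrix.diagonal (fun i => -(c i (rU i b)) - c i (BU i))).mulVec
        (fun i => (s i : ZMod n)) = 0 := by
      funext i
      obtain ⟨x, hx⟩ := hrel i
      have hx' : AdjoinRoot.mk (π i) ((∏ j, tt F (π j) ^ s j) ^ (n - 1) *
          (-((D * B).map (algebraMap F k) ^ a * th A B τ (1 : k ≃ₐ[F] k))) ^ s i * x ^ n) = 1 := by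
        have h1 : (∏ j, tt F (π j) ^ s j) ^ (n - 1) *
          (-((D * B).map (algebraMap F k) ^ a * th A B τ (1 : k ≃ₐ[F] k))) ^ s i * x ^ n - 1 ∈
            Ideal.span {π i} := hx
        rw [Ideal.mem_span_singleton, ← AdjoinRoot.mk_eq_zero, map_sub, map_one, sub_eq_zero] at h1
        exact h1
      have hDred : AdjoinRoot.mk (π i) (D.map (algebraMap F k)) = (rU i b : AdjoinRoot (π i)) := by
        rw [← red_mk (h.dvdW i), hDb]
        rfl
      have hx0 : AdjoinRoot.mk (π i) x ≠ 0 := by
        intro h0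
        rw [map_mul, map_pow _ x, h0, zero_pow hn.ne_zero, mul_zero] at hx'
        exact zero_ne_one hx'
      set xU : (AdjoinRoot (π i))ˣ := Units.mk0 _ hx0 with hxU
      have hrelU : (∏ j, tU i j ^ s j) ^ (n - 1) *
          (θU i * (rU i b * BU i) ^ a) ^ s i * xU ^ n = 1 := by
        apply Units.ext
        simp only [Units.val_mul, Units.val_pow_eq_pow_val, Units.val_one, Units.coe_prod, htU,
          hθU, hBU, hxU, Units.val_mk0]
        rw [← hx', ← hDred]
        simp only [map_mul, map_pow, map_prod, map_neg, Polynomial.map_mul]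
        ring
      have h2 := congrArg (c i) hrelU
      rw [hcmul, hcmul, hcpow, hcprod, hcpow, hcmul, hcpow, hcmul, hcpow, hcone, hn', ha',
        ZMod.natCast_self] at h2
      simp only [hcpow] at h2
      rw [Matrix.add_mulVec, Pi.add_apply, Matrix.mulVec_diagonal]
      show M.mulVec (fun i => (s i : ZMod n)) i + _ = 0
      have h3 : M.mulVec (fun i => (s i : ZMod n)) i =
          -(∑ j, (s j : ZMod n) * c i (tU i j)) + c i (θU i) * s i := by
        rw [Matrix.mulVec, dotProduct]
        simp only [hM, add_mul, Finset.sum_add_distrib, ite_mul, zero_mul, Finset.sum_ite_eq,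
          Finset.mem_univ, if_true]
        rw [← Finset.sum_neg_distrib]
        congr 1
        refine Finset.sum_congr rfl fun j _ => ?_
        ring
      rw [h3]
      linear_combination h2
    have h4 := Matrix.eq_zero_of_mulVec_eq_zero hdet hmul
    intro i
    have h5 := congrFun h4 i
    exact (ZMod.natCast_eq_zero_iff _ _).1 h5

end

end Pool.Agent.H83.TN
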