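import Pool.Agent.H83.T5.Norm

/-!
`n`-th roots of principal units in finite extensions of a complete ultrametric field in which `n` is
a unit.
-/

set_option linter.unusedSectionVars false
set_option linter.style.haveILetI false

namespace Pool.Agent.H83.TN

open Polynomial

section

variable {E : Type*} [NormedField E] [IsUltrametricDist E]

/-- `(1 + x) ^ n - (1 + y) ^ n - n (x - y)` is small -/
theorem pow_diff (n : ℕ) {c : ℝ} (hc : c ≤ 1) {x y : E} (hx : ‖x‖ ≤ c) (hy : ‖y‖ ≤ c) :
    ‖(1 + x) ^ n - (1 + y) ^ n - n * (x - y)‖ ≤ c * ‖x - y‖ := by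
  have hc0 : 0 ≤ c := (norm_nonneg _).trans hx
  induction n with
  | zero => simp [mul_nonneg hc0 (norm_nonneg _)]
  | succ n ih =>
    have h1 : (1 + x) ^ (n + 1) - (1 + y) ^ (n + 1) - ((n + 1 : ℕ) : E) * (x - y) =
        (1 + x) * ((1 + x) ^ n - (1 + y) ^ n - n * (x - y)) +
        ((x * (n : E)) * (x - y) + ((1 + y) ^ n - 1) * (x - y)) := by
      push_cast
      ring
    have hn : ‖(n : E)‖ ≤ 1 := IsUltrametricDist.norm_natCast_le_one E n
    have h1x : ‖1 + x‖ ≤ 1 := by
      refine (IsUltrametricDist.norm_add_le_max _ _).trans (max_le ?_ (hx.trans hc))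
      rw [norm_one]
    have h1y : ‖1 + y‖ ≤ 1 := by
      refine (IsUltrametricDist.norm_add_le_max _ _).trans (max_le ?_ (hy.trans hc))
      rw [norm_one]
    have hy' : ‖(1 + y) ^ n - 1‖ ≤ c := by
      clear ih h1 hn
      induction n with
      | zero => simpa using hc0
      | succ n ih =>
        have h2 : (1 + y) ^ (n + 1) - 1 = (1 + y) ^ n * y + ((1 + y) ^ n - 1) := by ring
        rw [h2]
        refine (IsUltrametricDist.norm_add_le_max _ _).trans (max_le ?_ ih)
        rw [norm_mul, norm_pow]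
        exact (mul_le_of_le_one_left (norm_nonneg _) (pow_le_one₀ (norm_nonneg _) h1y)).trans hy
    rw [h1]
    refine (IsUltrametricDist.norm_add_le_max _ _).trans (max_le ?_ ?_)
    · rw [norm_mul]
      exact (mul_le_of_le_one_left (norm_nonneg _) h1x).trans ih
    · refine (IsUltrametricDist.norm_add_le_max _ _).trans (max_le ?_ ?_)
      · rw [norm_mul, norm_mul]
        refine mul_le_mul_of_nonneg_right ?_ (norm_nonneg _)
        exact (mul_le_of_le_one_right (norm_nonneg _) hn).trans hx
      · rw [norm_mul]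
        exact mul_le_mul_of_nonneg_right hy' (norm_nonneg _)

theorem exists_root [CompleteSpace E] (n : ℕ) (hn : ‖(n : E)‖ = 1) (z : E) (hz : ‖z‖ < 1) :
    ∃ s : E, s ^ n = 1 + z := by
  -- `s = 1 + t`, `t = t - ((1 + t) ^ n - 1 - z) / n`
  set f : E → E := fun t => t - ((1 + t) ^ n - 1 - z) / n with hf
  set S : Set E := Metric.closedBall (0 : E) ‖z‖ with hS
  have hn0 : (n : E) ≠ 0 := by
    intro h0; rw [h0, norm_zero] at hn; exact zero_ne_one hn
  have hmem : ∀ t, t ∈ S ↔ ‖t‖ ≤ ‖z‖ := by
    intro t; rw [hS, mem_closedBall_zero_iff]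
  have hdiff : ∀ x ∈ S, ∀ y ∈ S, ‖f x - f y‖ ≤ ‖z‖ * ‖x - y‖ := by
    intro x hx y hy
    have h1 : f x - f y = -(((1 + x) ^ n - (1 + y) ^ n - n * (x - y)) / n) := by
      simp only [hf]
      field_simp
      ring
    rw [h1, norm_neg, norm_div, hn, div_one]
    exact pow_diff n hz.le ((hmem x).1 hx) ((hmem y).1 hy)
  have h0 : (0 : E) ∈ S := by rw [hmem, norm_zero]; exact norm_nonneg _
  have hf0 : f 0 = z / n := by
    simp only [hf]
    rw [add_zero, one_pow]
    ring
  have hmaps : Set.MapsTo f S S := by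
    intro t ht
    rw [hmem]
    have h1 : f t = (f t - f 0) + f 0 := by ring
    rw [h1]
    refine (IsUltrametricDist.norm_add_le_max _ _).trans (max_le ?_ ?_)
    · refine (hdiff t ht 0 h0).trans ?_
      rw [sub_zero]
      exact (mul_le_of_le_one_left (norm_nonneg _) hz.le).trans ((hmem t).1 ht)
    · rw [hf0, norm_div, hn, div_one]
  have hcontr : ContractingWith ⟨‖z‖, norm_nonneg z⟩ (hmaps.restrict f S S) := by
    refine ⟨by exact_mod_cast hz, ?_⟩
    refine LipschitzWith.of_dist_le_mul fun x y => ?_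
    rw [Subtype.dist_eq, Subtype.dist_eq, Set.MapsTo.val_restrict_apply,
      Set.MapsTo.val_restrict_apply, dist_eq_norm, dist_eq_norm]
    exact hdiff x x.2 y y.2
  obtain ⟨t, -, ht, -⟩ := hcontr.exists_fixedPoint' (Metric.isClosed_closedBall.isComplete)
    hmaps (x := 0) (by rw [hmem]; simp) (edist_ne_top _ _)
  refine ⟨1 + t, ?_⟩
  have h3 : t - ((1 + t) ^ n - 1 - z) / n = t := ht
  have h4 : ((1 + t) ^ n - 1 - z) / n = 0 := by linear_combination -h3
  rw [div_eq_zero_iff] at h4
  rcases h4 with h4 | h4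
  · linear_combination h4
  · exact absurd h4 hn0

end

section

variable {M : Type*} [NontriviallyNormedField M] {M' : Type*} [Field M'] [Algebra M M']
  [FiniteDimensional M M'] [IsUltrametricDist M] [CompleteSpace M]

theorem exists_root_ext (n : ℕ) (hn : ‖(n : M)‖ = 1) (z : M') (hz : spectralNorm M M' z < 1) :
    ∃ s : M', s ^ n = 1 + z := by
  letI : NormedField M' := spectralNorm.normedField M M'
  haveI : CompleteSpace M' := spectralNorm.completeSpace M M'
  haveI : IsUltrametricDist M' := by
    refine IsUltrametricDist.isUltrametricDist_of_isNonarchimedean_norm ?_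
    exact isNonarchimedean_spectralNorm (K := M) (L := M')
  refine exists_root n ?_ z hz
  have h := spectralNorm_extends (K := M) (L := M') (n : M)
  rw [hn, map_natCast] at h
  exact h

end

end Pool.Agent.H83.TN
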