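import Pool.Agent.H83.TN.Trans
import Pool.Agent.H83.T5.Setup

/-!
The theorems over the finite field `F`.
-/

set_option linter.unusedSectionVars false
set_option linter.style.haveILetI false

namespace Pool.Agent.H83.TN

open Polynomial WithZero IsDedekindDomain HeightOneSpectrum
open Pool.Agent.H94.LT (place)
open Pool.Agent.H83.T5 (sB sB_apply sB_C sB_X sB_base sB_mul sB_one sL sL_alg sL_aeval
  sL_ne_zero val_transport val_eq_one C_notMem prod_notMem polyAlg ratAlg isScalarTower_rat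
  ratAlg_algebraMap exists_below mem_below asIdeal_eq_span irreducible_map_of_coprime
  natDegree_dvd_of_factor val_gen exists_data)

/-- the Selmer conditions at the finite places -/
structure Sel {F : Type*} [Field F] (n a : ℕ) (P A B D : F[X]) (Δ : (RatFunc F)[X]) : Prop where
  coprime : IsCoprime Δ ((fPoly P A B).map (algebraMap F[X] (RatFunc F)))
  norm : ∃ y : RatFunc F, Algebra.norm (RatFunc F)
    (AdjoinRoot.mk ((fPoly P A B).map (algebraMap F[X] (RatFunc F))) Δ) = y ^ n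
  locally : ∀ v : HeightOneSpectrum F[X], LocN n a (fPoly P A B) (D * B) v Δ

/-- the prime factors of `D` have degree prime to `m` -/
def Inert {F : Type*} [Field F] (m : ℕ) (D : F[X]) : Prop :=
  ∀ Q : F[X], Irreducible Q → Q ∣ D → Nat.Coprime Q.natDegree m

section

variable {F k : Type*} [Field F] [Field k] [Algebra F k] [FiniteDimensional F k]

attribute [local instance] polyAlg ratAlg isScalarTower_rat

variable [Fintype (k ≃ₐ[F] k)] [DecidableEq (k ≃ₐ[F] k)]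

theorem struct [Finite F] [Finite k] {n a g e0 : ℕ} (hn : n.Prime) (hF : n ∣ Nat.card F - 1)
    (ha : a + 1 = n * e0) (hnk : (n : k) ≠ 0)
    {P A B : F[X]} {τ : k} {ι : Type} [Fintype ι] [DecidableEq ι] {w : ι → F[X]} {π : ι → k[X]}
    (h : FacData P A B τ ι w π) (hm : Fintype.card (k ≃ₐ[F] k) = n * g + 1) (D : F[X])
    (hD : Inert (Module.finrank F k) D) (Δ : (RatFunc F)[X]) (hS : Sel n a P A B D Δ) :
    ∃ s : ι → ℕ, (∃ z : RatFunc k, z ≠ 0 ∧ dd A B τ Δ (1 : k ≃ₐ[F] k) *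
        algebraMap k[X] (RatFunc k) (∏ i, tt F (π i) ^ s i) = z ^ n) ∧ Rel h n a D s := by
  obtain ⟨y, hy⟩ := hS.norm
  have hnorm : ∏ σ : k ≃ₐ[F] k, dd A B τ Δ σ = (algebraMap (RatFunc F) (RatFunc k) y) ^ n := by
    rw [← norm_eq h.hP h.qne, hy, map_pow]
  exact core hn hF ha hnk h hm D hD Δ hS.locally (dd_ne_zero h.hP h.qne hS.coprime 1) hnorm

/-- polynomials `T_i` with `T_i(θ) = t_i` -/
theorem bound [Finite F] [Finite k] {n a g e0 : ℕ} (hn : n.Prime) (hF : n ∣ Nat.card F - 1)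
    (ha : a + 1 = n * e0) (hnk : (n : k) ≠ 0)
    {P A B : F[X]} {τ : k} (hgen : ∀ c : k, ∃ p : F[X], aeval τ p = c)
    {ι : Type} [Fintype ι] [DecidableEq ι] {w : ι → F[X]} {π : ι → k[X]}
    (h : FacData P A B τ ι w π) (hm : Fintype.card (k ≃ₐ[F] k) = n * g + 1) :
    ∃ T : ι → (RatFunc F)[X], ∀ D : F[X], Inert (Module.finrank F k) D →
      ∀ Δ : (RatFunc F)[X], Sel n a P A B D Δ → ∃ (s : ι → ℕ)
        (γ : AdjoinRoot ((fPoly P A B).map (algebraMap F[X] (RatFunc F)))),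
        AdjoinRoot.mk ((fPoly P A B).map (algebraMap F[X] (RatFunc F)))
          (Δ * ∏ i, T i ^ s i) = γ ^ n := by
  choose T hT using fun i => exists_aeval h.hB h.hP h.qne hgen
    (algebraMap k[X] (RatFunc k) (tt F (π i)))
  refine ⟨T, fun D hD Δ hS => ?_⟩
  obtain ⟨s, ⟨z, hz0, hz⟩, -⟩ := struct hn hF ha hnk h hm D hD Δ hS
  have h1 : dd A B τ (Δ * ∏ i, T i ^ s i) (1 : k ≃ₐ[F] k) =
      dd A B τ 1 (1 : k ≃ₐ[F] k) * z ^ n := by
    rw [← hz, dd, dd, dd, map_one, one_mul, map_mul, map_prod, map_prod]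
    congr 1
    refine Finset.prod_congr rfl fun i _ => ?_
    rw [map_pow, map_pow, hT i]
  obtain ⟨γ, hγ⟩ := transfer h.hB h.hP h.hτ h.qne hgen h1
  exact ⟨s, γ, by rw [hγ, map_one, one_mul]⟩

theorem trivial_of_rel [Finite F] [Finite k] {n a g e0 : ℕ} (hn : n.Prime)
    (hF : n ∣ Nat.card F - 1)
    (ha : a + 1 = n * e0) (hnk : (n : k) ≠ 0)
    {P A B : F[X]} {τ : k} (hgen : ∀ c : k, ∃ p : F[X], aeval τ p = c)
    {ι : Type} [Fintype ι] [DecidableEq ι] {w : ι → F[X]} {π : ι → k[X]}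
    (h : FacData P A B τ ι w π) (hm : Fintype.card (k ≃ₐ[F] k) = n * g + 1) (D : F[X])
    (hrel : ∀ s : ι → ℕ, Rel h n a D s → ∀ i, n ∣ s i) (hD : Inert (Module.finrank F k) D)
    (Δ : (RatFunc F)[X]) (hS : Sel n a P A B D Δ) :
    ∃ γ : AdjoinRoot ((fPoly P A B).map (algebraMap F[X] (RatFunc F))),
      AdjoinRoot.mk ((fPoly P A B).map (algebraMap F[X] (RatFunc F))) Δ = γ ^ n := by
  obtain ⟨s, ⟨z, hz0, hz⟩, hR⟩ := struct hn hF ha hnk h hm D hD Δ hS
  choose s' hs' using hrel s hR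
  set t := algebraMap k[X] (RatFunc k) (∏ i, tt F (π i) ^ s' i) with ht
  have ht0 : t ≠ 0 := by
    rw [ht, Ne, FaithfulSMul.algebraMap_eq_zero_iff]
    exact Finset.prod_ne_zero_iff.2 fun i _ => pow_ne_zero _ (h.tt_ne i)
  have h1 : algebraMap k[X] (RatFunc k) (∏ i, tt F (π i) ^ s i) = t ^ n := by
    rw [ht, ← map_pow, ← Finset.prod_pow]
    congr 1
    refine Finset.prod_congr rfl fun i _ => ?_
    rw [hs' i, ← pow_mul, mul_comm]
  rw [h1] at hz
  have h2 : dd A B τ Δ (1 : k ≃ₐ[F] k) = dd A B τ 1 (1 : k ≃ₐ[F] k) * (z / t) ^ n := by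
    rw [dd, dd, map_one, one_mul, div_pow, eq_div_iff (pow_ne_zero n ht0)]
    exact hz
  obtain ⟨γ, hγ⟩ := transfer h.hB h.hP h.hτ h.qne hgen h2
  exact ⟨γ, by rw [hγ, map_one, one_mul]⟩

end

section

variable {F : Type} [Field F] [Finite F]

theorem cast_ne {k : Type*} [Field k] [Algebra F k] {n : ℕ} (hn : n.Prime)
    (hF : n ∣ Nat.card F - 1) : (n : k) ≠ 0 := by
  have h1 : (n : F) ≠ 0 := by
    intro h0
    have : Fintype F := Fintype.ofFinite F
    have h2 : ((Nat.card F : ℕ) : F) = 0 := by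
      rw [Nat.card_eq_fintype_card]
      exact FiniteField.cast_card_eq_zero F
    obtain ⟨j, hj⟩ := hF
    have hpos : 0 < Nat.card F := Nat.card_pos
    have h3 : Nat.card F = n * j + 1 := by omega
    rw [h3] at h2
    push_cast at h2
    rw [h0, zero_mul, zero_add] at h2
    exact one_ne_zero h2
  intro h0
  apply h1
  apply (algebraMap F k).injective
  rw [map_natCast, map_zero]
  exact h0

theorem exists_facData {n g : ℕ} {P A B : F[X]} (hP : P.Monic) (hirr : Irreducible P)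
    (hdeg : P.natDegree = n * g + 1) (hng : 1 ≤ n * g) (hAB : IsCoprime A B) (hB : B ≠ 0)
    {ι : Type} [Fintype ι] {w : ι → F[X]} (hw : ∀ i, Irreducible (w i))
    (hW : wPoly P A B = ∏ i, w i) (hcop : ∀ i j, i ≠ j → IsCoprime (w i) (w j)) :
    ∃ (k : Type) (_ : Field k) (_ : Algebra F k) (_ : FiniteDimensional F k) (_ : Finite k)
      (_ : Fintype (k ≃ₐ[F] k)) (_ : DecidableEq (k ≃ₐ[F] k)) (τ : k) (π : ι → k[X]),
      FacData P A B τ ι w π ∧ (∀ c : k, ∃ p : F[X], aeval τ p = c) ∧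
      Fintype.card (k ≃ₐ[F] k) = n * g + 1 ∧ Module.finrank F k = P.natDegree := by
  obtain ⟨k, _, _, _, _, _, _, τ, hPs, hτ, hgen, hcard, hrank⟩ := exists_data hP hirr
  have h1 : ∀ i, ∃ π : k[X], Irreducible π ∧ π ∣ (w i).map (algebraMap F k) ∧
      π ∣ qq A B τ (1 : k ≃ₐ[F] k) := fun i =>
    exists_factor hPs (hw i) (by rw [hW]; exact Finset.dvd_prod_of_mem _ (Finset.mem_univ i))
  choose π hπ hπw hπq using h1
  exact ⟨k, inferInstance, inferInstance, inferInstance, inferInstance, inferInstance,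
    inferInstance, τ, π, ⟨hPs, hτ, hcard, by omega, hAB, hB, hw, hW, hcop, hπ, hπw, hπq⟩, hgen,
    by rw [hcard, hrank, hdeg], hrank⟩

theorem finite_main {n a g e0 : ℕ} (hn : n.Prime) (hF : n ∣ Nat.card F - 1)
    (ha : a + 1 = n * e0) {P A B : F[X]} (hP : P.Monic) (hirr : Irreducible P)
    (hdeg : P.natDegree = n * g + 1) (hg : 1 ≤ g) (hAB : IsCoprime A B) (hB : B ≠ 0)
    {r : ℕ} {w : Fin r → F[X]} (hw : ∀ i, Irreducible (w i))
    (hW : wPoly P A B = ∏ i, w i) (hcop : ∀ i j, i ≠ j → IsCoprime (w i) (w j)) :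
    (∃ T : Fin r → (RatFunc F)[X], ∀ D : F[X], Inert P.natDegree D →
      ∀ Δ : (RatFunc F)[X], Sel n a P A B D Δ → ∃ (s : Fin r → ℕ)
        (γ : AdjoinRoot ((fPoly P A B).map (algebraMap F[X] (RatFunc F)))),
        AdjoinRoot.mk ((fPoly P A B).map (algebraMap F[X] (RatFunc F)))
          (Δ * ∏ i, T i ^ s i) = γ ^ n) ∧
    (n - 1) ^ r * Nat.card (AdjoinRoot (wPoly P A B))ˣ ≤ n ^ r *
      Nat.card {b : (AdjoinRoot (wPoly P A B))ˣ // ∀ D : F[X],
        AdjoinRoot.mk (wPoly P A B) D = (b : AdjoinRoot (wPoly P A B)) → Inert P.natDegree D →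
        ∀ Δ : (RatFunc F)[X], Sel n a P A B D Δ →
          ∃ γ : AdjoinRoot ((fPoly P A B).map (algebraMap F[X] (RatFunc F))),
            AdjoinRoot.mk ((fPoly P A B).map (algebraMap F[X] (RatFunc F))) Δ = γ ^ n} := by
  have hng : 1 ≤ n * g := Nat.mul_pos hn.pos hg
  obtain ⟨k, _, _, _, _, _, _, τ, π, h, hgen, hm, hrank⟩ :=
    exists_facData hP hirr hdeg hng hAB hB hw hW hcop
  have hnk : (n : k) ≠ 0 := cast_ne hn hF
  refine ⟨?_, ?_⟩
  · have h1 := bound hn hF ha hnk hgen h hm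
    rwa [hrank] at h1
  · refine (count hn hF ha h).trans (Nat.mul_le_mul_left _ ?_)
    haveI : FiniteDimensional F (AdjoinRoot (wPoly P A B)) :=
      (AdjoinRoot.powerBasis h.W_ne).finite
    haveI : Finite (AdjoinRoot (wPoly P A B)) := Module.finite_of_finite F
    refine Nat.card_le_card_of_injective (fun b => ⟨b.1, fun D hDb hD Δ hS => ?_⟩) ?_
    · exact trivial_of_rel hn hF ha hnk hgen h hm D (b.2 D hDb) (by rw [hrank]; exact hD) Δ hS
    · rintro ⟨b, hb⟩ ⟨b', hb'⟩ hbb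
      apply Subtype.ext
      have h9 := Subtype.ext_iff.1 hbb
      exact h9

end

end Pool.Agent.H83.TN
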