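import Pool.Agent.H83.TN.Resid

/-!
Transfer between `K[U]/(f)` and `k(x)`.
-/

set_option linter.unusedSectionVars false
set_option linter.style.haveILetI false

namespace Pool.Agent.H83.TN

open Polynomial WithZero IsDedekindDomain HeightOneSpectrum
open Pool.Agent.H94.TC (norm_eq_resultant)
open Pool.Agent.H83.T5 (sB sB_apply sB_C sB_X sB_base sB_mul sB_one sL sL_alg sL_aeval
  sL_ne_zero val_transport val_eq_one C_notMem prod_notMem polyAlg ratAlg isScalarTower_rat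
  ratAlg_algebraMap exists_below mem_below asIdeal_eq_span irreducible_map_of_coprime
  natDegree_dvd_of_factor val_gen)

section

variable {F k : Type*} [Field F] [Field k] [Algebra F k] [FiniteDimensional F k]

attribute [local instance] polyAlg ratAlg isScalarTower_rat

variable [Fintype (k ≃ₐ[F] k)] [DecidableEq (k ≃ₐ[F] k)]

theorem fK_monic {P A B : F[X]} {τ : k}
    (hP : P.map (algebraMap F k) = ∏ σ : k ≃ₐ[F] k, (X - C (σ τ)))
    (hne : ∀ σ : k ≃ₐ[F] k, qq A B τ σ ≠ 0) :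
    ((fPoly P A B).map (algebraMap F[X] (RatFunc F))).Monic := by
  rw [← monic_map_iff (f := algebraMap (RatFunc F) (RatFunc k)), fPoly_split P A B τ hP hne]
  exact monic_prod_of_monic _ _ fun σ _ => monic_X_sub_C _

theorem norm_eq {P A B : F[X]} {τ : k}
    (hP : P.map (algebraMap F k) = ∏ σ : k ≃ₐ[F] k, (X - C (σ τ)))
    (hne : ∀ σ : k ≃ₐ[F] k, qq A B τ σ ≠ 0) (Δ : (RatFunc F)[X]) :
    algebraMap (RatFunc F) (RatFunc k) (Algebra.norm (RatFunc F)
      (AdjoinRoot.mk ((fPoly P A B).map (algebraMap F[X] (RatFunc F))) Δ)) =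
      ∏ σ, dd A B τ Δ σ := by
  rw [norm_eq_resultant _ (fK_monic hP hne), ← resultant_map_map, fPoly_split P A B τ hP hne,
    ← natDegree_map (algebraMap (RatFunc F) (RatFunc k)), fPoly_split P A B τ hP hne,
    resultant_prod_left _ _ _ _ _ (natDegree_map_le)]
  · refine Finset.prod_congr rfl fun σ _ => ?_
    rw [natDegree_X_sub_C, resultant_X_sub_C_left _ _ _ natDegree_map_le, eval_map_algebraMap]
    rfl
  · refine Finset.prod_ne_zero_iff.2 fun σ _ => ?_
    rw [leadingCoeff_X_sub_C]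
    exact one_ne_zero

theorem eval_root {P A B : F[X]} {τ : k}
    (hP : P.map (algebraMap F k) = ∏ σ : k ≃ₐ[F] k, (X - C (σ τ)))
    (hne : ∀ σ : k ≃ₐ[F] k, qq A B τ σ ≠ 0) (σ : k ≃ₐ[F] k) :
    aeval (algebraMap k[X] (RatFunc k) (th A B τ σ))
      ((fPoly P A B).map (algebraMap F[X] (RatFunc F))) = 0 := by
  rw [← eval_map_algebraMap, fPoly_split P A B τ hP hne, eval_prod]
  refine Finset.prod_eq_zero (Finset.mem_univ σ) ?_
  rw [eval_sub, eval_X, eval_C, sub_self]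

theorem dd_ne_zero {P A B : F[X]} {τ : k}
    (hP : P.map (algebraMap F k) = ∏ σ : k ≃ₐ[F] k, (X - C (σ τ)))
    (hne : ∀ σ : k ≃ₐ[F] k, qq A B τ σ ≠ 0) {Δ : (RatFunc F)[X]}
    (h : IsCoprime Δ ((fPoly P A B).map (algebraMap F[X] (RatFunc F)))) (σ : k ≃ₐ[F] k) :
    dd A B τ Δ σ ≠ 0 := by
  obtain ⟨a, b, hab⟩ := h
  intro h0
  have h1 := congrArg (aeval (algebraMap k[X] (RatFunc k) (th A B τ σ))) hab
  rw [map_add, map_mul, map_mul, eval_root hP hne, mul_zero, add_zero, map_one] at h1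
  have h2 : aeval (algebraMap k[X] (RatFunc k) (th A B τ σ)) Δ = 0 := h0
  rw [h2, mul_zero] at h1
  exact zero_ne_one h1

/-- a polynomial vanishing at `θ` is divisible by `f` -/
theorem dvd_of_aeval {P A B : F[X]} {τ : k} (hB : B ≠ 0)
    (hP : P.map (algebraMap F k) = ∏ σ : k ≃ₐ[F] k, (X - C (σ τ)))
    (hτ : ∀ σ ρ : k ≃ₐ[F] k, σ τ = ρ τ → σ = ρ)
    (hne : ∀ σ : k ≃ₐ[F] k, qq A B τ σ ≠ 0) {g : (RatFunc F)[X]}
    (h : aeval (algebraMap k[X] (RatFunc k) (th A B τ (1 : k ≃ₐ[F] k))) g = 0) :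
    (fPoly P A B).map (algebraMap F[X] (RatFunc F)) ∣ g := by
  rw [← map_dvd_map' (algebraMap (RatFunc F) (RatFunc k)), fPoly_split P A B τ hP hne]
  refine Finset.prod_dvd_of_coprime (fun σ _ ρ _ hσρ => ?_) fun σ _ => ?_
  · refine isCoprime_X_sub_C_of_isUnit_sub ?_
    rw [isUnit_iff_ne_zero, ← map_sub, Ne, FaithfulSMul.algebraMap_eq_zero_iff, th_sub A B τ hσρ]
    refine mul_ne_zero ?_ (mul_ne_zero ?_ (Finset.prod_ne_zero_iff.2 fun κ _ => hne κ))
    · rwa [Ne, Polynomial.map_eq_zero]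
    · rw [Ne, C_eq_zero, sub_eq_zero]
      exact fun h0 => hσρ (hτ _ _ h0)
  · rw [dvd_iff_isRoot, IsRoot.def, eval_map_algebraMap]
    have h1 := congrArg (sL σ) h
    rw [sL_aeval, sL_alg, sB_th, mul_one, map_zero] at h1
    exact h1

/-- every element of `k(x)` is a polynomial in `θ` over `F(x)` -/
theorem exists_aeval {P A B : F[X]} {τ : k} (hB : B ≠ 0)
    (hP : P.map (algebraMap F k) = ∏ σ : k ≃ₐ[F] k, (X - C (σ τ)))
    (hne : ∀ σ : k ≃ₐ[F] k, qq A B τ σ ≠ 0) (hgen : ∀ c : k, ∃ p : F[X], aeval τ p = c)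
    (z : RatFunc k) :
    ∃ p : (RatFunc F)[X],
      aeval (algebraMap k[X] (RatFunc k) (th A B τ (1 : k ≃ₐ[F] k))) p = z := by
  set θ := algebraMap k[X] (RatFunc k) (th A B τ (1 : k ≃ₐ[F] k)) with hθ
  have hint : IsIntegral (RatFunc F) θ :=
    ⟨_, fK_monic hP hne, by rw [← aeval_def]; exact eval_root hP hne 1⟩
  have hθ0 : θ ≠ 0 := by
    rw [hθ, Ne, FaithfulSMul.algebraMap_eq_zero_iff, th]
    exact Finset.prod_ne_zero_iff.2 fun ρ _ => hne ρ
  set E := IntermediateField.adjoin (RatFunc F) {θ} with hE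
  have hθE : θ ∈ E := IntermediateField.mem_adjoin_simple_self _ _
  have hbase : ∀ p : F[X], algebraMap k[X] (RatFunc k) (p.map (algebraMap F k)) ∈ E := by
    intro p
    rw [← ratAlg_algebraMap]
    exact E.algebraMap_mem _
  have hB0 : algebraMap k[X] (RatFunc k) (B.map (algebraMap F k)) ≠ 0 := by
    rw [Ne, FaithfulSMul.algebraMap_eq_zero_iff, Polynomial.map_eq_zero]; exact hB
  have hq : algebraMap k[X] (RatFunc k) (qq A B τ (1 : k ≃ₐ[F] k)) ∈ E := by
    have h1 : algebraMap k[X] (RatFunc k) (qq A B τ (1 : k ≃ₐ[F] k)) * θ =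
        algebraMap k[X] (RatFunc k) ((wPoly P A B).map (algebraMap F k)) := by
      rw [hθ, ← map_mul, qq_mul_th, prod_qq A B τ P hP]
    rw [eq_div_of_mul_eq hθ0 h1]
    exact E.div_mem (hbase _) hθE
  have hτE : algebraMap k[X] (RatFunc k) (C τ) ∈ E := by
    have h1 : algebraMap k[X] (RatFunc k) (C τ) =
        (algebraMap k[X] (RatFunc k) (A.map (algebraMap F k)) -
          algebraMap k[X] (RatFunc k) (qq A B τ (1 : k ≃ₐ[F] k))) /
          algebraMap k[X] (RatFunc k) (B.map (algebraMap F k)) := by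
      rw [eq_div_iff hB0, ← map_sub, ← map_mul, qq]
      congr 1
      rw [AlgEquiv.one_apply]
      ring
    rw [h1]
    exact E.div_mem (E.sub_mem (hbase _) hq) (hbase _)
  have hX : algebraMap k[X] (RatFunc k) X ∈ E := by
    have := hbase X
    rwa [Polynomial.map_X] at this
  have hC : ∀ c : k, algebraMap k[X] (RatFunc k) (C c) ∈ E := by
    intro c
    obtain ⟨p, rfl⟩ := hgen c
    induction p using Polynomial.induction_on' with
    | add p q hp hq =>
      rw [map_add, C_add, map_add]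
      exact E.add_mem hp hq
    | monomial n a =>
      rw [aeval_monomial, C_mul, map_mul, C_pow, map_pow]
      refine E.mul_mem ?_ (pow_mem hτE n)
      have := hbase (C a)
      rwa [Polynomial.map_C] at this
  have hpoly : ∀ p : k[X], algebraMap k[X] (RatFunc k) p ∈ E := by
    intro p
    induction p using Polynomial.induction_on' with
    | add p q hp hq =>
      rw [map_add]
      exact E.add_mem hp hq
    | monomial n a =>
      rw [← C_mul_X_pow_eq_monomial, map_mul, map_pow]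
      exact E.mul_mem (hC a) (pow_mem hX n)
  have hz : z ∈ E := by
    obtain ⟨a, b, hb, rfl⟩ := IsFractionRing.div_surjective (A := k[X]) z
    exact E.div_mem (hpoly a) (hpoly b)
  have h2 : z ∈ (IntermediateField.adjoin (RatFunc F) {θ}).toSubalgebra := hz
  rw [IntermediateField.adjoin_simple_toSubalgebra_of_isAlgebraic hint.isAlgebraic,
    Algebra.adjoin_singleton_eq_range_aeval] at h2
  obtain ⟨p, hp⟩ := h2
  exact ⟨p, hp⟩

theorem transfer {P A B : F[X]} {τ : k} (hB : B ≠ 0)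
    (hP : P.map (algebraMap F k) = ∏ σ : k ≃ₐ[F] k, (X - C (σ τ)))
    (hτ : ∀ σ ρ : k ≃ₐ[F] k, σ τ = ρ τ → σ = ρ)
    (hne : ∀ σ : k ≃ₐ[F] k, qq A B τ σ ≠ 0) (hgen : ∀ c : k, ∃ p : F[X], aeval τ p = c)
    {n : ℕ} {Δ Δ' : (RatFunc F)[X]} {z : RatFunc k}
    (h : dd A B τ Δ (1 : k ≃ₐ[F] k) = dd A B τ Δ' (1 : k ≃ₐ[F] k) * z ^ n) :
    ∃ γ, AdjoinRoot.mk ((fPoly P A B).map (algebraMap F[X] (RatFunc F))) Δ =
      AdjoinRoot.mk ((fPoly P A B).map (algebraMap F[X] (RatFunc F))) Δ' * γ ^ n := by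
  obtain ⟨p, hp⟩ := exists_aeval hB hP hne hgen z
  refine ⟨AdjoinRoot.mk _ p, ?_⟩
  rw [← map_pow, ← map_mul, AdjoinRoot.mk_eq_mk]
  refine dvd_of_aeval hB hP hτ hne ?_
  have h1 : aeval (algebraMap k[X] (RatFunc k) (th A B τ (1 : k ≃ₐ[F] k))) Δ =
    aeval (algebraMap k[X] (RatFunc k) (th A B τ (1 : k ≃ₐ[F] k))) Δ' * z ^ n := h
  rw [map_sub, map_mul, map_pow, hp, h1, sub_self]

/-- transfer in the other direction -/
theorem transfer_inv {P A B : F[X]} {τ : k}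
    (hP : P.map (algebraMap F k) = ∏ σ : k ≃ₐ[F] k, (X - C (σ τ)))
    (hne : ∀ σ : k ≃ₐ[F] k, qq A B τ σ ≠ 0) {n : ℕ} {Δ : (RatFunc F)[X]}
    {γ : AdjoinRoot ((fPoly P A B).map (algebraMap F[X] (RatFunc F)))}
    (h : AdjoinRoot.mk ((fPoly P A B).map (algebraMap F[X] (RatFunc F))) Δ = γ ^ n) :
    ∃ z : RatFunc k, dd A B τ Δ (1 : k ≃ₐ[F] k) = z ^ n := by
  obtain ⟨p, rfl⟩ := AdjoinRoot.mk_surjective γ
  rw [← map_pow, AdjoinRoot.mk_eq_mk] at h
  obtain ⟨q, hq⟩ := h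
  refine ⟨aeval (algebraMap k[X] (RatFunc k) (th A B τ (1 : k ≃ₐ[F] k))) p, ?_⟩
  have h1 := congrArg (aeval (algebraMap k[X] (RatFunc k) (th A B τ (1 : k ≃ₐ[F] k)))) hq
  rw [map_sub, map_mul, eval_root hP hne, zero_mul, sub_eq_zero, map_pow] at h1
  exact h1

end

end Pool.Agent.H83.TN
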