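import Pool.Agent.H83.T5.Pair
import Pool.Agent.H83.TN.Cl
import Pool.Agent.H83.TN.Root

/-!
Norms from finite extensions containing an `n`-th root of a unit which is not an `n`-th power.
-/

set_option linter.unusedSectionVars false
set_option linter.style.haveILetI false

namespace Pool.Agent.H83.TN

open Polynomial WithZero IntermediateField
open Pool.Agent.H83.T5 (norm_lt_iff norm_le_iff norm_eq_iff norm_eq_one_iff' norm_le_one_iff' sn_mul
  sn_add sn_alg sn_neg sn_sub sn_add_eq_of_lt sn_ne_zero sn_pos sn_inv sn_div sn_pow norm_ne_zero'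
  val_norm_of_sn_one norm_one_add_sub_one monic_induction)

section

variable {M : Type*} [NontriviallyNormedField M] [IsUltrametricDist M] [CompleteSpace M]
  {M' : Type*} [Field M'] [Algebra M M'] [FiniteDimensional M M'] {w : Valuation M ℤᵐ⁰} {n : ℕ}

theorem cl_norm_one_add (hw : ∀ x : M, ‖x‖ < 1 ↔ w x < 1) {z : M'}
    (hz : spectralNorm M M' z < 1) : Cl w n (Algebra.norm M (1 + z)) :=
  Cl.of_lt ((hw _).1 (norm_one_add_sub_one z hz))

/-- dominant term -/
theorem cl_norm_add (hw : ∀ x : M, ‖x‖ < 1 ↔ w x < 1) {x y : M'}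
    (h : spectralNorm M M' y < spectralNorm M M' x) :
    Cl w n (Algebra.norm M (x + y) / Algebra.norm M x) := by
  have hx : x ≠ 0 := by
    rintro rfl
    rw [spectralNorm_zero] at h
    exact absurd h (not_lt.2 (spectralNorm_nonneg y))
  have h1 : x + y = x * (1 + y / x) := by field_simp
  have h2 : spectralNorm M M' (y / x) < 1 := by
    rw [sn_div, div_lt_one (sn_pos hx)]; exact h
  rw [h1, map_mul, mul_div_cancel_left₀ _ (norm_ne_zero' hx)]
  exact cl_norm_one_add hw h2

theorem cl_norm_sub (hw : ∀ x : M, ‖x‖ < 1 ↔ w x < 1) {x y : M'}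
    (h : spectralNorm M M' y < spectralNorm M M' x) :
    Cl w n (Algebra.norm M (x - y) / Algebra.norm M x) := by
  rw [sub_eq_add_neg]
  exact cl_norm_add hw (by rw [sn_neg]; exact h)

/-- norm of `γ ^ n - u` for `γ` of degree prime to `n` -/
theorem ev_pow_sub (hw : ∀ x : M, ‖x‖ < 1 ↔ w x < 1) (hn0 : n ≠ 0) {u : M} (hu : w u = 1)
    (hcl : ¬ Cl w n u) (hcop : Nat.Coprime (Module.finrank M M') n) (γ : M') :
    Ev w n (Algebra.norm M (γ ^ n - algebraMap M M' u)) := by
  have hu0 : u ≠ 0 := by rintro rfl; simp at hu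
  have hu1 : ‖u‖ = 1 := (norm_eq_one_iff' hw u).2 hu
  have hsu : spectralNorm M M' (algebraMap M M' u) = 1 := by rw [sn_alg, hu1]
  rcases lt_trichotomy (spectralNorm M M' γ) 1 with h | h | h
  · refine Ev.of_val (val_norm_of_sn_one hw ?_)
    have h1 : γ ^ n - algebraMap M M' u = γ ^ n + -algebraMap M M' u := by ring
    rw [h1, sn_add_eq_of_lt, sn_neg, hsu]
    rw [sn_neg, hsu, sn_pow]
    exact pow_lt_one₀ (spectralNorm_nonneg _) h hn0
  · have hγ0 : γ ≠ 0 := by
      rintro rfl
      rw [spectralNorm_zero] at h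
      exact zero_ne_one h
    have hle : spectralNorm M M' (γ ^ n - algebraMap M M' u) ≤ 1 := by
      refine (sn_sub _ _).trans (max_le ?_ hsu.le)
      rw [sn_pow, h, one_pow]
    rcases lt_or_eq_of_le hle with hlt | heq
    · exfalso
      apply hcl
      have h1 : Cl w n (Algebra.norm M (algebraMap M M' u +
          (γ ^ n - algebraMap M M' u)) / Algebra.norm M (algebraMap M M' u)) :=
        cl_norm_add hw (by rw [hsu]; exact hlt)
      rw [add_sub_cancel, map_pow, Algebra.norm_algebraMap] at h1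
      have h2 : Cl w n (u ^ Module.finrank M M') := by
        have h3 := h1.inv
        rw [inv_div, div_eq_mul_inv, ← inv_pow] at h3
        exact Cl.of_mul_npow (inv_ne_zero (norm_ne_zero' hγ0)) h3
      exact Cl.of_pow hu0 hcop h2
    · exact Ev.of_val (val_norm_of_sn_one hw heq)
  · have hγ0 : γ ≠ 0 := by
      rintro rfl
      rw [spectralNorm_zero] at h
      exact absurd h (by norm_num)
    have h1 : Cl w n (Algebra.norm M (γ ^ n - algebraMap M M' u) / Algebra.norm M (γ ^ n)) := by
      apply cl_norm_sub hw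
      rw [hsu, sn_pow]
      exact one_lt_pow₀ h hn0
    have h2 : Ev w n (Algebra.norm M (γ ^ n)) := by
      rw [map_pow]
      exact Ev.npow (norm_ne_zero' hγ0)
    have h3 := h1.ev.mul h2
    rwa [div_mul_cancel₀ _ h2.ne_zero] at h3

end

section

variable {M : Type*} [NontriviallyNormedField M] [IsUltrametricDist M] [CompleteSpace M]
  {w : Valuation M ℤᵐ⁰} {n : ℕ}

/-- norms of polynomials of degree `< n` in `u ^ (1 / n)` -/
theorem ev_norm_mk (hw : ∀ x : M, ‖x‖ < 1 ↔ w x < 1) (hn : n.Prime) {u : M} (hu : w u = 1)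
    (hcl : ¬ Cl w n u) (g : M[X]) (hg0 : g ≠ 0) (hg : g.natDegree < n) :
    Ev w n (Algebra.norm M (AdjoinRoot.mk (X ^ n - C u) g)) := by
  have hf : (X ^ n - C u : M[X]).Monic := monic_X_pow_sub_C u hn.ne_zero
  have hfd : (X ^ n - C u : M[X]).natDegree = n := natDegree_X_pow_sub_C
  haveI : Module.Free M (AdjoinRoot (X ^ n - C u)) := hf.free_adjoinRoot
  have hrank : Module.finrank M (AdjoinRoot (X ^ n - C u)) = n :=
    (finrank_quotient_span_eq_natDegree' hf).trans hfd
  -- monic polynomials
  have hmonic : ∀ A : M[X], A.Monic → (A.natDegree < n →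
      Ev w n (Algebra.norm M (AdjoinRoot.mk (X ^ n - C u) A))) := by
    refine monic_induction (motive := fun A => A.natDegree < n →
      Ev w n (Algebra.norm M (AdjoinRoot.mk (X ^ n - C u) A))) ?_ ?_
    · intro _
      rw [map_one, map_one]
      exact Ev.of_val (map_one w)
    · intro p q hp hirr hq ih hdeg
      rw [hp.natDegree_mul hq] at hdeg
      rw [map_mul, map_mul]
      refine Ev.mul ?_ (ih (by omega))
      haveI : Fact (Irreducible p) := ⟨hirr⟩
      haveI : FiniteDimensional M (AdjoinRoot p) := hp.finite_adjoinRoot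
      have hpd : Module.finrank M (AdjoinRoot p) = p.natDegree :=
        finrank_quotient_span_eq_natDegree' hp
      have hppos := hirr.natDegree_pos
      have hcop : Nat.Coprime (Module.finrank M (AdjoinRoot p)) n := by
        rw [hpd, Nat.coprime_comm, hn.coprime_iff_not_dvd]
        intro hd
        have := Nat.le_of_dvd hppos hd
        omega
      have h1 := ev_pow_sub (M' := AdjoinRoot p) hw hn.ne_zero hu hcl hcop (AdjoinRoot.root p)
      have h2 : AdjoinRoot.root p ^ n - algebraMap M (AdjoinRoot p) u =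
          AdjoinRoot.mk p (X ^ n - C u) := by
        rw [map_sub, map_pow, AdjoinRoot.mk_X, AdjoinRoot.mk_C]; rfl
      rw [h2, H94.TC.norm_eq_resultant p hp] at h1
      rw [H94.TC.norm_eq_resultant _ hf, resultant_comm]
      exact (Ev.of_val (by rw [map_pow, Valuation.map_neg, map_one, one_pow])).mul h1
  have h1 : g = C g.leadingCoeff * (g * C g.leadingCoeff⁻¹) := by
    have h2 : (C g.leadingCoeff * C g.leadingCoeff⁻¹ : M[X]) = 1 := by
      rw [← C_mul, mul_inv_cancel₀ (leadingCoeff_ne_zero.2 hg0), C_1]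
    linear_combination (-g) * h2
  rw [h1, map_mul, map_mul]
  refine Ev.mul ?_ (hmonic _ (monic_mul_leadingCoeff_inv hg0) ?_)
  · have h2 : AdjoinRoot.mk (X ^ n - C u) (C g.leadingCoeff) =
        algebraMap M (AdjoinRoot (X ^ n - C u)) g.leadingCoeff := rfl
    rw [h2, Algebra.norm_algebraMap, hrank]
    exact Ev.npow (leadingCoeff_ne_zero.2 hg0)
  · rw [natDegree_mul_leadingCoeff_inv _ hg0]
    exact hg

end

section

variable {M : Type*} [NontriviallyNormedField M] [IsUltrametricDist M] [CompleteSpace M]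
  {M' : Type*} [Field M'] [Algebra M M'] [FiniteDimensional M M'] {w : Valuation M ℤᵐ⁰} {n : ℕ}

theorem unram (hw : ∀ x : M, ‖x‖ < 1 ↔ w x < 1) (hn : n.Prime) {u : M} (hu : w u = 1)
    (hcl : ¬ Cl w n u) {ρ : M'} (hρ : ρ ^ n = algebraMap M M' u) :
    n ∣ Module.finrank M M' ∧ ∀ x : M', x ≠ 0 → Ev w n (Algebra.norm M x) := by
  have hint : IsIntegral M ρ := Algebra.IsIntegral.isIntegral ρ
  have hf : (X ^ n - C u : M[X]).Monic := monic_X_pow_sub_C u hn.ne_zero
  have hfd : (X ^ n - C u : M[X]).natDegree = n := natDegree_X_pow_sub_C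
  have hirr : Irreducible (X ^ n - C u : M[X]) := by
    refine X_pow_sub_C_irreducible_of_prime hn fun b hb => ?_
    apply hcl
    rw [← hb]
    refine Cl.npow ?_
    rintro rfl
    rw [← hb, map_pow, map_zero, zero_pow hn.ne_zero] at hu
    exact zero_ne_one hu
  have hmin : minpoly M ρ = X ^ n - C u := by
    refine (minpoly.eq_of_irreducible_of_monic hirr ?_ hf).symm
    simp [hρ]
  have hrank : Module.finrank M M⟮ρ⟯ = n := by
    rw [adjoin.finrank hint, hmin, hfd]
  constructor
  · rw [← Module.finrank_mul_finrank M M⟮ρ⟯ M', hrank]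
    exact Dvd.intro _ rfl
  · intro x hx
    set y := Algebra.norm M⟮ρ⟯ x with hy
    have hN : Algebra.norm M y = Algebra.norm M x := Algebra.norm_norm
    have hy0 : y ≠ 0 := by
      rw [hy, Ne, Algebra.norm_eq_zero_iff]; exact hx
    rw [← hN]
    -- transport to `AdjoinRoot`
    let e : AdjoinRoot (X ^ n - C u) ≃ₐ[M] M⟮ρ⟯ :=
      (AdjoinRoot.algEquivOfEq M _ _ hmin.symm).trans (adjoinRootEquivAdjoin M hint)
    have h1 : Algebra.norm M (e.symm y) = Algebra.norm M y := Algebra.norm_eq_of_algEquiv e.symm y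
    rw [← h1]
    have he0 : e.symm y ≠ 0 := by
      rw [Ne, map_eq_zero_iff _ e.symm.injective]; exact hy0
    obtain ⟨p, hp⟩ := AdjoinRoot.mk_surjective (e.symm y)
    rw [← hp] at he0 ⊢
    have h2 : AdjoinRoot.mk (X ^ n - C u) p =
        AdjoinRoot.mk (X ^ n - C u) (p %ₘ (X ^ n - C u)) := by
      rw [AdjoinRoot.mk_eq_mk]
      exact ⟨p /ₘ (X ^ n - C u), by
        linear_combination -(modByMonic_add_div p (X ^ n - C u))⟩
    rw [h2] at he0 ⊢
    refine ev_norm_mk hw hn hu hcl _ ?_ ?_
    · intro h0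
      rw [h0, map_zero] at he0
      exact he0 rfl
    · have h3 := natDegree_modByMonic_lt p hf (by
        intro h0
        have := hfd
        rw [h0, natDegree_one] at this
        exact hn.ne_zero this.symm)
      rwa [hfd] at h3

end

end Pool.Agent.H83.TN
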